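import Pool.Agent.R379.DL.Stm

/-! DL-A: a primitive solvable permutation group is affine over a prime field. -/

namespace Pool.Agent.R379.DL

open Equiv

theorem ds_conj {G : Type*} [Group G] {P : Subgroup G} {g : G} (hg : g ∈ P) (n : ℕ) :
    ∀ a ∈ ds P n, g * a * g⁻¹ ∈ ds P n := by
  intro a ha
  obtain ⟨a', ha', hR⟩ := relds (fun a a' : G => a' = g * a * g⁻¹)
    (by intro a a' b b' h1 h2; rw [h1, h2]; group)
    (by intro a a' h1; rw [h1]; group)
    (by simp) P P
    (by intro b hb; exact ⟨_, P.mul_mem (P.mul_mem hg hb) (P.inv_mem hg), rfl⟩) n a ha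
  rw [← hR]; exact ha'

theorem trans_of_normal {S : Type} {P : Subgroup (Perm S)}
    (hprim : ∀ r : Setoid S, (∀ g ∈ P, ∀ x y, r x y → r (g x) (g y)) → r = ⊥ ∨ r = ⊤)
    (N : Subgroup (Perm S)) (hN : N ≠ ⊥) (hnorm : ∀ g ∈ P, ∀ a ∈ N, g * a * g⁻¹ ∈ N) :
    ∀ x y, ∃ n ∈ N, n x = y := by
  let r : Setoid S :=
    { r := fun x y => ∃ n ∈ N, n x = y
      iseqv :=
        { refl := fun x => ⟨1, N.one_mem, rfl⟩
          symm := by
            rintro x y ⟨n, hn, rfl⟩
            exact ⟨n⁻¹, N.inv_mem hn, by simp⟩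
          trans := by
            rintro x y z ⟨n, hn, rfl⟩ ⟨n', hn', rfl⟩
            exact ⟨n' * n, N.mul_mem hn' hn, rfl⟩ } }
  have hr : ∀ x y, r x y ↔ ∃ n ∈ N, n x = y := fun x y => Iff.rfl
  have hinv : ∀ g ∈ P, ∀ x y, r x y → r (g x) (g y) := by
    intro g hg x y hxy
    obtain ⟨n, hn, rfl⟩ := (hr x y).1 hxy
    exact (hr _ _).2 ⟨g * n * g⁻¹, hnorm g hg n hn, by simp⟩
  rcases hprim r hinv with h | h
  · exfalso
    apply hN
    rw [Subgroup.eq_bot_iff_forall]
    intro n hn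
    ext x
    have h1 : r x (n x) := (hr _ _).2 ⟨n, hn, rfl⟩
    rw [h] at h1
    exact h1.symm
  · intro x y
    have h1 : r x y := by rw [h]; trivial
    exact (hr x y).1 h1

theorem exists_coord1 (M : Type) (p : ℕ) [Fact p.Prime] [AddCommGroup M] [Finite M]
    [Module (ZMod p) M] : ∃ d : ℕ, Nonempty (M ≃+ Vp p d) := by
  have h1 : Module.Finite (ZMod p) M := Module.Finite.of_finite
  have h2 : Module.Free (ZMod p) M := inferInstance
  let b := Module.finBasis (ZMod p) M
  exact ⟨_, ⟨b.equivFun.toAddEquiv⟩⟩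

theorem exists_coord (M : Type) [AddCommGroup M] [Finite M] (p : ℕ) [Fact p.Prime]
    (h : ∀ x : M, p • x = 0) : ∃ d : ℕ, Nonempty (M ≃+ Vp p d) := by
  let _ : Module (ZMod p) M := AddCommGroup.zmodModule h
  exact exists_coord1 M p

theorem pc_aff : ST_aff := by
  classical
  intro S _ _ P hsol htr hprim
  obtain ⟨x₀, y₀, hxy0⟩ := exists_pair_ne S
  have hPne : ds P 0 ≠ ⊥ := by
    intro h
    obtain ⟨g, hg, hgx⟩ := htr x₀ y₀
    have : g ∈ ds P 0 := hg
    rw [h, Subgroup.mem_bot] at this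
    rw [this] at hgx
    exact hxy0 hgx
  set m := Nat.find hsol with hm
  have hm0 : m ≠ 0 := by
    intro h
    have := Nat.find_spec hsol
    rw [← hm, h] at this
    exact hPne this
  obtain ⟨k, hk⟩ := Nat.exists_eq_succ_of_ne_zero hm0
  have hA1 : ds P k ≠ ⊥ := Nat.find_min hsol (by omega)
  have hA2 : ds P (k + 1) = ⊥ := by
    have := Nat.find_spec hsol
    rw [← hm, hk] at this
    exact this
  set A := ds P k with hA
  have hcomm : ∀ a ∈ A, ∀ b ∈ A, a * b = b * a := by
    intro a ha b hb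
    have h1 : a * b * a⁻¹ * b⁻¹ ∈ ds P (k + 1) := Subgroup.commutator_mem_commutator ha hb
    rw [hA2, Subgroup.mem_bot, mul_inv_eq_one, mul_inv_eq_iff_eq_mul] at h1
    exact h1
  -- a prime
  have hcard : Nat.card A ≠ 1 := by
    intro h
    rw [Subgroup.card_eq_one] at h
    exact hA1 h
  obtain ⟨p, hp, hpd⟩ := Nat.exists_prime_and_dvd hcard
  haveI : Fact p.Prime := ⟨hp⟩
  obtain ⟨u, hu⟩ := exists_prime_orderOf_dvd_card' (G := A) p hpd
  let B : Subgroup (Perm S) :=
    { carrier := {a | a ∈ A ∧ a ^ p = 1}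
      one_mem' := ⟨A.one_mem, one_pow p⟩
      mul_mem' := by
        rintro a b ⟨ha, ha'⟩ ⟨hb, hb'⟩
        refine ⟨A.mul_mem ha hb, ?_⟩
        have hc : Commute a b := hcomm a ha b hb
        rw [hc.mul_pow, ha', hb', one_mul]
      inv_mem' := by
        rintro a ⟨ha, ha'⟩
        exact ⟨A.inv_mem ha, by rw [inv_pow, ha', inv_one]⟩ }
  have hBA : ∀ b ∈ B, b ∈ A := fun b hb => hb.1
  have hBp : ∀ b ∈ B, b ^ p = 1 := fun b hb => hb.2
  have hBne : B ≠ ⊥ := by
    intro h
    have h1 : (u : Perm S) ∈ B := by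
      refine ⟨u.2, ?_⟩
      have := pow_orderOf_eq_one u
      rw [hu] at this
      have h2 := congrArg (Subtype.val) this
      simpa using h2
    rw [h, Subgroup.mem_bot] at h1
    have h3 : u = 1 := Subtype.ext h1
    rw [h3, orderOf_one] at hu
    exact hp.one_lt.ne hu
  have hBnorm : ∀ g ∈ P, ∀ a ∈ B, g * a * g⁻¹ ∈ B := by
    rintro g hg a ⟨ha, ha'⟩
    refine ⟨ds_conj hg k a ha, ?_⟩
    rw [conj_pow, ha', mul_one, mul_inv_cancel]
  have hBtr := trans_of_normal hprim B hBne hBnorm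
  have hBcomm : ∀ a b : B, a * b = b * a := fun a b =>
    Subtype.ext (hcomm a.1 (hBA _ a.2) b.1 (hBA _ b.2))
  have hreg : Function.Injective (fun b : B => (b : Perm S) x₀) := by
    intro b b' h
    have h' : (b : Perm S) x₀ = (b' : Perm S) x₀ := h
    apply Subtype.ext
    ext y
    obtain ⟨c, hc, rfl⟩ := hBtr x₀ y
    have e1 : (b : Perm S) * c = c * b := hcomm _ (hBA _ b.2) _ (hBA _ hc)
    have e2 : (b' : Perm S) * c = c * b' := hcomm _ (hBA _ b'.2) _ (hBA _ hc)
    rw [← Perm.mul_apply, ← Perm.mul_apply, e1, e2, Perm.mul_apply, Perm.mul_apply, h']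
  have hsurj : Function.Surjective (fun b : B => (b : Perm S) x₀) := by
    intro y
    obtain ⟨c, hc, hcy⟩ := hBtr x₀ y
    exact ⟨⟨c, hc⟩, hcy⟩
  let φ : B ≃ S := Equiv.ofBijective _ ⟨hreg, hsurj⟩
  have hφ : ∀ b : B, φ b = (b : Perm S) x₀ := fun _ => rfl
  letI : CommGroup B := { (inferInstance : Group B) with mul_comm := hBcomm }
  haveI : Finite (Additive B) := inferInstanceAs (Finite B)
  obtain ⟨d, ⟨L⟩⟩ := exists_coord (Additive B) p (by
    intro x
    show Additive.ofMul ((Additive.toMul x) ^ p) = 0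
    have : (Additive.toMul x : B) ^ p = 1 := Subtype.ext (by
      simpa using hBp _ (Additive.toMul x).2)
    rw [this]; rfl)
  let e : S ≃ Vp p d := φ.symm.trans (Additive.ofMul.trans L.toEquiv)
  have hd0 : 0 < d := by
    rcases Nat.eq_zero_or_pos d with h | h
    · exfalso
      haveI : Subsingleton (Vp p d) := by
        rw [h]
        infer_instance
      exact hxy0 (e.injective (Subsingleton.elim _ _))
    · exact h
  refine ⟨p, d, inferInstance, hd0, e, ?_⟩
  intro g hg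
  let β : Vp p d → B := fun v => Additive.toMul (L.symm v)
  have hβ : ∀ x y z, β (x + y - z) = β x * β y * (β z)⁻¹ := by
    intro x y z
    show Additive.toMul (L.symm (x + y - z)) = _
    rw [map_sub, map_add, sub_eq_add_neg]
    rfl
  have hesymm : ∀ v, e.symm v = (β v : Perm S) x₀ := fun v => rfl
  let K : B →* B :=
    { toFun := fun b => ⟨g * b * g⁻¹, hBnorm g hg b b.2⟩
      map_one' := Subtype.ext (by simp)
      map_mul' := by
        intro a b
        apply Subtype.ext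
        show g * (a * b : Perm S) * g⁻¹ = (g * a * g⁻¹) * (g * b * g⁻¹)
        group }
  obtain ⟨c, hc, hcx⟩ := hBtr x₀ (g x₀)
  have hkey : ∀ v, ((e.symm.trans g).trans e) v = L (Additive.ofMul (K (β v) * ⟨c, hc⟩)) := by
    intro v
    show e (g (e.symm v)) = _
    have h1 : g (e.symm v) = φ (K (β v) * ⟨c, hc⟩) := by
      rw [hesymm, hφ]
      show g ((β v : Perm S) x₀) = (g * (β v : Perm S) * g⁻¹ * c) x₀
      rw [Perm.mul_apply _ c, hcx]
      simp
    rw [h1]
    show L (Additive.ofMul (φ.symm (φ _))) = _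
    rw [Equiv.symm_apply_apply]
  intro x y z
  have hK : K (β x * β y * (β z)⁻¹) = K (β x) * K (β y) * (K (β z))⁻¹ := by
    rw [map_mul K, map_mul K, map_inv K]
  rw [hkey, hkey, hkey, hkey, hβ, hK]
  simp only [ofMul_mul, ofMul_inv, map_add L, map_neg L]
  abel

end Pool.Agent.R379.DL
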