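import Pool.Agent.R379.DL.Stm

/-!
# Project DL, piece C1: affine maps between cones over robust sets
-/

namespace Pool.Agent.R379.DL

open Equiv

namespace C1P

variable {p d : ℕ}

/-- the vector with first coordinate `a` and tail `u` -/
def cn (a : ZMod p) (u : Vp p d) : Vp p (d + 1) := Fin.cons a u

theorem cn_zero (a : ZMod p) (u : Vp p d) : cn a u 0 = a := rfl

theorem cn_succ (a : ZMod p) (u : Vp p d) (i : Fin d) : cn a u i.succ = u i := rfl

theorem cn_eta (x : Vp p (d + 1)) : cn (x 0) (fun i => x i.succ) = x := by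
  ext i
  refine Fin.cases ?_ ?_ i
  · rfl
  · intro i; rfl

theorem cn_add (a b : ZMod p) (u v : Vp p d) : cn (a + b) (u + v) = cn a u + cn b v := by
  ext i
  refine Fin.cases ?_ ?_ i
  · rfl
  · intro i; rfl

theorem cn_sub (a b : ZMod p) (u v : Vp p d) : cn (a - b) (u - v) = cn a u - cn b v := by
  ext i
  refine Fin.cases ?_ ?_ i
  · rfl
  · intro i; rfl

theorem cn_inj {a b : ZMod p} {u v : Vp p d} (h : cn a u = cn b v) : u = v := by
  ext i
  have := congrFun h i.succ
  exact this

theorem cn_smul (a b : ZMod p) (u : Vp p d) : a • cn b u = cn (a * b) (a • u) := by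
  ext i
  refine Fin.cases ?_ ?_ i
  · rfl
  · intro i; rfl

theorem cone_iff (D : Vp p d → Bool) (x : Vp p (d + 1)) :
    cone p d D x = true ↔ x = 0 ∨ (x 0 = 1 ∧ D (fun i => x i.succ) = true) := by
  simp [cone]

variable [Fact p.Prime]

theorem cn_ne (u : Vp p d) : cn 1 u ≠ 0 := by
  intro h
  have := congrFun h 0
  rw [cn_zero] at this
  exact one_ne_zero this

theorem cone_cn (D : Vp p d → Bool) (u : Vp p d) : cone p d D (cn 1 u) = D u := by
  rw [Bool.eq_iff_iff, cone_iff]
  constructor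
  · rintro (h | h)
    · exact absurd h (cn_ne u)
    · exact h.2
  · intro h
    exact Or.inr ⟨rfl, h⟩

/-- a robust set has at least two points (one outside any given point) -/
theorem rob_ne (hd : 0 < d) {D : Vp p d → Bool} (hD : Rob p d D) (x₀ : Vp p d) :
    ∃ x, D x = true ∧ x ≠ x₀ := by
  by_contra hcon
  push Not at hcon
  have h := hD x₀ (Pi.evalAddMonoidHom (fun _ : Fin d => ZMod p) ⟨0, hd⟩) 0
    (fun x hx hne => absurd (hcon x hx) hne)
  have h1 := congrArg (fun f : Vp p d →+ ZMod p => f (fun _ => 1)) h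
  simp at h1

/-- additivity of an affine map, recentred -/
def lin (g : Perm (Vp p (d + 1))) (hg : IsAff g) : Vp p (d + 1) →+ ZMod p where
  toFun y := g y 0 - g 0 0
  map_zero' := sub_self _
  map_add' x y := by
    have h := hg x y 0
    rw [sub_zero] at h
    rw [h, Pi.sub_apply, Pi.add_apply]
    ring

theorem lin_apply (g : Perm (Vp p (d + 1))) (hg : IsAff g) (y : Vp p (d + 1)) :
    lin g hg y = g y 0 - g 0 0 := rfl

/-- restriction of a functional to the hyperplane `x_0 = 0` -/
def res (ψ : Vp p (d + 1) →+ ZMod p) : Vp p d →+ ZMod p where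
  toFun u := ψ (cn 0 u)
  map_zero' := by
    have : cn (0 : ZMod p) (0 : Vp p d) = 0 := by
      have h := cn_sub (0 : ZMod p) 0 (0 : Vp p d) 0
      simpa using h
    rw [this, map_zero]
  map_add' x y := by
    have h := cn_add (0 : ZMod p) 0 x y
    rw [add_zero] at h
    rw [h, map_add]

theorem res_apply (ψ : Vp p (d + 1) →+ ZMod p) (u : Vp p d) : res ψ u = ψ (cn 0 u) := rfl

theorem split1 (ψ : Vp p (d + 1) →+ ZMod p) (a : ZMod p) (u : Vp p d) :
    ψ (cn a u) = a * ψ (cn 1 0) + res ψ u := by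
  have h : cn a u = a • cn 1 0 + cn 0 u := by
    rw [cn_smul, ← cn_add]; simp
  rw [h, map_add, ZMod.map_smul, smul_eq_mul, res_apply]

/-- the basic step -/
theorem step (hd : 0 < d) {D : Vp p d → Bool} (hD : Rob p d D) (ψ : Vp p (d + 1) →+ ZMod p)
    (x₀ : Vp p d) (c : ZMod p) (h : ∀ u, D u = true → u ≠ x₀ → ψ (cn 1 u) = c) :
    ∀ a u, ψ (cn a u) = a * c := by
  have h1 : res ψ = 0 := by
    refine hD x₀ _ (c - ψ (cn 1 0)) ?_
    intro x hx hne
    have h2 := h x hx hne
    rw [split1] at h2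
    linear_combination h2
  obtain ⟨x, hx, hne⟩ := rob_ne hd hD x₀
  have h3 := h x hx hne
  rw [split1, h1, AddMonoidHom.zero_apply, one_mul, add_zero] at h3
  intro a u
  rw [split1, h1, h3, AddMonoidHom.zero_apply, add_zero]

theorem aii {α : Type*} (g : Perm α) (y : α) : g (g⁻¹ y) = y := g.apply_symm_apply y

theorem iai {α : Type*} (g : Perm α) (y : α) : g⁻¹ (g y) = y := g.symm_apply_apply y

end C1P

open C1P in
theorem pc_coneFix : ST_coneFix := by
  intro p d _ hd D D' hD hD' g hg hgc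
  have hga : IsAff g := hg
  have hgi : IsAff (g⁻¹ : Perm (Vp p (d + 1))) := (aff _).inv_mem hg
  -- the origin is fixed
  have h0 : g 0 = 0 := by
    by_contra hne
    have h1 : cone p d D' (g 0) = true := by
      rw [hgc, cone_iff]; exact Or.inl rfl
    rw [cone_iff] at h1
    rcases h1 with h1 | ⟨h1, h2⟩
    · exact hne h1
    have hg0 : g 0 = cn 1 (fun i => g 0 i.succ) := by
      rw [← h1]; exact (cn_eta _).symm
    have key : ∀ y, cone p d D' y = true → y ≠ g 0 → (g⁻¹ : Perm (Vp p (d + 1))) y 0 = 1 := by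
      intro y hy hyne
      have h3 := hgc (g⁻¹ y)
      rw [aii, hy] at h3
      rcases (cone_iff D _).mp h3.symm with h4 | h4
      · exfalso
        apply hyne
        rw [← h4, aii]
      · exact h4.1
    have k0 : (g⁻¹ : Perm (Vp p (d + 1))) 0 0 = 1 :=
      key 0 ((cone_iff _ _).mpr (Or.inl rfl)) (Ne.symm hne)
    have h5 := step hd hD' (lin g⁻¹ hgi) (fun i => g 0 i.succ) 0 (by
      intro u hu hune
      rw [lin_apply, key (cn 1 u) (by rw [cone_cn, hu]) (by
        rw [hg0]; intro h6; exact hune (cn_inj h6)), k0, sub_self])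
    have h6 := h5 1 (fun i => g 0 i.succ)
    rw [← hg0, lin_apply, iai, k0] at h6
    simp at h6
  have h1 : ∀ x : Vp p (d + 1), g x 0 = x 0 := by
    have h2 := step hd hD (lin g hga) 0 1 (by
      intro u hu _
      rw [lin_apply, h0]
      have h3 : cone p d D' (g (cn 1 u)) = true := by rw [hgc, cone_cn, hu]
      rcases (cone_iff D' _).mp h3 with h4 | h4
      · exfalso
        apply cn_ne u
        apply g.injective
        rw [h4, h0]
      · rw [h4.1]; simp)
    intro x
    have h3 := h2 (x 0) (fun i => x i.succ)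
    rw [cn_eta, lin_apply, h0, mul_one] at h3
    simpa using h3
  have h1i : ∀ x : Vp p (d + 1), (g⁻¹ : Perm (Vp p (d + 1))) x 0 = x 0 := by
    intro x
    have h2 := h1 (g⁻¹ x)
    rw [aii] at h2
    exact h2.symm
  have hg1 : ∀ u : Vp p d, cn 1 (fun i => g (cn 1 u) i.succ) = g (cn 1 u) := by
    intro u
    have h2 := cn_eta (g (cn 1 u))
    rw [h1] at h2
    exact h2
  have hg2 : ∀ u : Vp p d, cn 1 (fun i => (g⁻¹ : Perm (Vp p (d + 1))) (cn 1 u) i.succ) = g⁻¹ (cn 1 u) := by
    intro u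
    have h2 := cn_eta ((g⁻¹ : Perm (Vp p (d + 1))) (cn 1 u))
    rw [h1i] at h2
    exact h2
  refine ⟨h0, h1, ?_⟩
  refine ⟨⟨fun u i => g (cn 1 u) i.succ, fun u i => (g⁻¹ : Perm (Vp p (d + 1))) (cn 1 u) i.succ, ?_, ?_⟩,
    ?_, ?_, ?_⟩
  · intro u
    simp only
    rw [hg1, iai]
    rfl
  · intro u
    simp only
    rw [hg2, aii]
    rfl
  · intro x y z
    ext i
    have h2 : cn 1 (x + y - z) = cn 1 x + cn 1 y - cn 1 z := by
      rw [← cn_add, ← cn_sub]
      congr 1
      ring
    have h3 := hg (cn 1 x) (cn 1 y) (cn 1 z)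
    simp only [Equiv.coe_fn_mk]
    rw [h2, h3]
    rfl
  · intro u
    exact (hg1 u).symm
  · intro u
    simp only [Equiv.coe_fn_mk]
    rw [← cone_cn D', hg1, hgc, cone_cn]

end Pool.Agent.R379.DL
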