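import Pool.Agent.R379.DL.Stm

/-! # Project DL, piece C2: derived length for cones -/

namespace Pool.Agent.R379.DL

open Equiv

theorem pc_coneDl (h : ST_coneFix) : ST_coneDl := by
  intro p d hp hd D hR hD
  have : NeZero p := ⟨hp.out.ne_zero⟩
  rw [eq_bot_iff]
  intro g hg
  obtain ⟨g', hg', hga, hg0, hgu⟩ := relds
    (R := fun (g : Perm (Vp p (d + 1))) (g' : Perm (Vp p d)) => IsAff g ∧ g 0 = 0 ∧
      ∀ u : Vp p d, g (Fin.cons 1 u : Vp p (d + 1)) = Fin.cons 1 (g' u))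
    (by
      rintro a a' b b' ⟨ha1, ha2, ha3⟩ ⟨hb1, hb2, hb3⟩
      refine ⟨(aff _).mul_mem ha1 hb1, ?_, ?_⟩
      · rw [Perm.mul_apply, hb2, ha2]
      · intro u
        rw [Perm.mul_apply, hb3, ha3, Perm.mul_apply])
    (by
      rintro a a' ⟨ha1, ha2, ha3⟩
      refine ⟨(aff _).inv_mem ha1, ?_, ?_⟩
      · rw [Perm.inv_eq_iff_eq, ha2]
      · intro u
        rw [Perm.inv_eq_iff_eq, ha3]
        simp)
    ⟨(aff _).one_mem, rfl, fun u => rfl⟩
    (cst (aff (Vp p (d + 1))) (cone p d D)) (cst (aff (Vp p d)) D)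
    (by
      intro g hg
      obtain ⟨h1, -, h', hh', hu, hD'⟩ := h p d hd D D hR hR g hg.1 hg.2
      exact ⟨h', ⟨hh', hD'⟩, hg.1, h1, hu⟩) 3 g hg
  rw [hD, Subgroup.mem_bot] at hg'
  subst hg'
  simp only [Perm.one_apply] at hgu
  rw [Subgroup.mem_bot]
  have h0 : ∀ v : Vp p d, g (Fin.cons 0 v : Vp p (d + 1)) = Fin.cons 0 v := by
    intro v
    have e : (Fin.cons 0 v : Vp p (d + 1)) = Fin.cons 1 v + 0 - Fin.cons 1 0 := by
      funext i
      refine Fin.cases ?_ (fun j => ?_) i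
      · simp
      · simp
    have e2 := hga (Fin.cons 1 v) 0 (Fin.cons 1 0)
    rw [← e, hgu, hgu, hg0, ← e] at e2
    exact e2
  have hn : ∀ (n : ℕ) (v : Vp p d), g (Fin.cons (n : ZMod p) v : Vp p (d + 1)) =
      Fin.cons (n : ZMod p) v := by
    intro n
    induction n with
    | zero => intro v; simpa using h0 v
    | succ n ih =>
      intro v
      have e : (Fin.cons ((n + 1 : ℕ) : ZMod p) v : Vp p (d + 1)) =
          Fin.cons (n : ZMod p) v + Fin.cons 1 0 - 0 := by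
        funext i
        refine Fin.cases ?_ (fun j => ?_) i
        · simp
        · simp
      have e2 := hga (Fin.cons (n : ZMod p) v) (Fin.cons 1 0) 0
      rw [← e, ih, hgu, hg0, ← e] at e2
      exact e2
  ext1 x
  have hx : x = Fin.cons (((x 0).val : ℕ) : ZMod p) (Fin.tail x) := by
    rw [ZMod.natCast_zmod_val, Fin.cons_self_tail]
  rw [Perm.one_apply]
  conv_lhs => rw [hx]
  rw [hn, ← hx]

end Pool.Agent.R379.DL
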