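import Pool.Agent.R379.DL.Stm

/-!
# Project DL, piece C3: cones over good families
-/

set_option maxHeartbeats 400000

namespace Pool.Agent.R379.DL

open Equiv

namespace C3

variable {p d : ℕ}

/-- `cons` with its type -/
def cs (a : ZMod p) (u : Vp p d) : Vp p (d + 1) := Fin.cons a u

theorem cs_zero (a : ZMod p) (u : Vp p d) : cs a u 0 = a := rfl

theorem cs_succ (a : ZMod p) (u : Vp p d) (i : Fin d) : cs a u i.succ = u i := rfl

theorem cs_add (a b : ZMod p) (u v : Vp p d) : cs a u + cs b v = cs (a + b) (u + v) := by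
  funext i
  refine Fin.cases ?_ ?_ i
  · rfl
  · intro j; rfl

theorem cs_self (x : Vp p (d + 1)) : cs (x 0) (fun i => x i.succ) = x := by
  funext i
  refine Fin.cases ?_ ?_ i
  · rfl
  · intro j; rfl

theorem cs_nsmul (n : ℕ) (a : ZMod p) : n • cs a (0 : Vp p d) = cs ((n : ZMod p) * a) 0 := by
  funext i
  refine Fin.cases ?_ ?_ i
  · show n • a = n * a
    rw [nsmul_eq_mul]
  · intro j
    show n • (0 : ZMod p) = 0
    rw [smul_zero]

theorem compl_true (D : Vp p d → Bool) (a : ZMod p) (u : Vp p d)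
    (h0 : a ≠ 0 ∨ u ≠ 0) (h1 : a ≠ 1 ∨ D u = false) : (!(cone p d D (cs a u))) = true := by
  have e0 : cs a u ≠ 0 := by
    intro h
    rcases h0 with h0 | h0
    · apply h0
      have := congrFun h 0
      exact this
    · apply h0
      funext i
      have := congrFun h i.succ
      exact this
  unfold cone
  have e1 : (decide (cs a u 0 = 1) && D (fun i => cs a u i.succ)) = false := by
    rcases h1 with h1 | h1
    · have : decide (cs a u 0 = 1) = false := decide_eq_false h1
      rw [this, Bool.false_and]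
    · have : D (fun i => cs a u i.succ) = false := h1
      rw [this, Bool.and_false]
  rw [e1, decide_eq_false e0]
  rfl

theorem rob_nonempty [Fact p.Prime] (hd : 0 < d) (D : Vp p d → Bool) (h : Rob p d D) :
    ∃ u, D u = true := by
  by_contra hcon
  push Not at hcon
  have h1 := h 0 (Pi.evalAddMonoidHom (fun _ : Fin d => ZMod p) ⟨0, hd⟩) 0
    (fun x hx => absurd hx (hcon x))
  have h2 := DFunLike.congr_fun h1 (fun _ => (1 : ZMod p))
  exact one_ne_zero (α := ZMod p) h2

theorem rob_compl [Fact p.Prime] (hd : 0 < d) (hp : 5 ≤ p ^ d) (D : Vp p d → Bool)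
    (h2 : p = 2 → ∃ x y, x ≠ y ∧ D x = false ∧ D y = false) :
    Rob p (d + 1) (fun x => !(cone p d D x)) := by
  intro x₀ f c hf
  set us : Vp p d := fun i => x₀ i.succ with hus
  have key : ∀ (a : ZMod p) (u : Vp p d), (a ≠ 0 ∨ u ≠ 0) → (a ≠ 1 ∨ D u = false) → u ≠ us →
      f (cs a u) = c := by
    intro a u h0 h1 hu
    refine hf _ (compl_true D a u h0 h1) ?_
    intro h
    apply hu
    rw [hus, ← h]
    rfl
  have hch : ∀ v : Vp p d, ∃ u : Vp p d, u ≠ 0 ∧ u ≠ us ∧ u ≠ -v ∧ u ≠ us - v := by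
    intro v
    obtain ⟨u, hu⟩ : ∃ u, u ∉ ({0, us, -v, us - v} : Finset (Vp p d)) := by
      by_contra hcon
      push Not at hcon
      have h3 : (Finset.univ : Finset (Vp p d)).card ≤ 4 :=
        (Finset.card_le_card (fun x _ => hcon x)).trans Finset.card_le_four
      have h4 : (Finset.univ : Finset (Vp p d)).card = p ^ d := by
        rw [Finset.card_univ]
        simp [ZMod.card]
      omega
    simp only [Finset.mem_insert, Finset.mem_singleton, not_or] at hu
    exact ⟨u, hu.1, hu.2.1, hu.2.2.1, hu.2.2.2⟩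
  have h01 : (0 : ZMod p) ≠ 1 := zero_ne_one
  have hv : ∀ v : Vp p d, f (cs 0 v) = 0 := by
    intro v
    obtain ⟨u, hu0, hu1, hu2, hu3⟩ := hch v
    have e1 := key 0 u (Or.inr hu0) (Or.inl h01) hu1
    have e2 := key 0 (u + v) (Or.inr (fun h => hu2 (eq_neg_of_add_eq_zero_left h)))
      (Or.inl h01) (fun h => hu3 (eq_sub_of_add_eq h))
    have e3 : cs 0 (u + v) = cs 0 u + cs 0 v := by rw [cs_add, add_zero]
    rw [e3, map_add, e1] at e2
    exact left_eq_add.1 e2.symm
  have hc : c = 0 := by
    obtain ⟨u, hu0, hu1, -, -⟩ := hch 0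
    rw [← key 0 u (Or.inr hu0) (Or.inl h01) hu1, hv]
  have h1 : f (cs 1 0) = 0 := by
    by_cases hp2 : p = 2
    · obtain ⟨x, y, hxy, hx, hy⟩ := h2 hp2
      obtain ⟨z, hz, hzu⟩ : ∃ z, D z = false ∧ z ≠ us := by
        by_cases hxu : x = us
        · exact ⟨y, hy, fun h => hxy (hxu.trans h.symm)⟩
        · exact ⟨x, hx, hxu⟩
      have e1 := key 1 z (Or.inl one_ne_zero) (Or.inr hz) hzu
      have e2 : cs 1 z = cs 1 0 + cs 0 z := by rw [cs_add, add_zero, zero_add]
      rw [e2, map_add, hv, add_zero, hc] at e1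
      exact e1
    · obtain ⟨u, hu0, hu1, -, -⟩ := hch 0
      have hpp := (Fact.out : p.Prime)
      have h20 : (2 : ZMod p) ≠ 0 := by
        intro h
        have h3 : ((2 : ℕ) : ZMod p) = 0 := by exact_mod_cast h
        rw [ZMod.natCast_eq_zero_iff] at h3
        exact hp2 ((Nat.prime_dvd_prime_iff_eq hpp Nat.prime_two).1 h3)
      have h21 : (2 : ZMod p) ≠ 1 := by
        intro h
        have h3 : (1 : ZMod p) + 1 = 1 := by rw [one_add_one_eq_two]; exact h
        exact one_ne_zero (α := ZMod p) (left_eq_add.1 h3.symm)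
      have e1 := key 2 u (Or.inl h20) (Or.inl h21) hu1
      have e2 : cs 2 u = cs 1 0 + cs 1 0 + cs 0 u := by
        rw [cs_add, cs_add, one_add_one_eq_two, add_zero, add_zero, zero_add]
      rw [e2, map_add, map_add, hv, add_zero, hc, ← two_mul] at e1
      exact (mul_eq_zero.1 e1).resolve_left h20
  refine DFunLike.ext _ _ fun x => ?_
  have e1 : x = cs (x 0) 0 + cs 0 (fun i => x i.succ) := by
    rw [cs_add, add_zero, zero_add, cs_self]
  have e2 : cs (x 0) (0 : Vp p d) = (x 0).val • cs 1 0 := by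
    rw [cs_nsmul, mul_one, ZMod.natCast_zmod_val]
  rw [e1, map_add, hv, add_zero, e2, map_nsmul, h1, smul_zero]
  rfl

theorem cst_compl {H : Subgroup (Perm (Vp p d))} (c : Vp p d → Bool) :
    cst H (fun x => !(c x)) = cst H c := by
  ext g
  rw [mem_cst, mem_cst]
  refine and_congr_right fun _ => forall_congr' fun x => ?_
  cases c (g x) <;> cases c x <;> simp

end C3

open C3 in
theorem pc_coneGood (h : ST_coneFix) (h2 : ST_coneDl) : ST_coneGood := by
  intro p d _ hd hp hG
  obtain ⟨D, hR, hds, hne, h22⟩ := hG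
  refine ⟨fun i x => !(cone p d (D i) x), ?_, ?_, ?_, ?_⟩
  · intro i
    exact rob_compl hd hp (D i) (fun hp2 => h22 hp2 i)
  · intro i
    show ds (cst (aff (Vp p (d + 1))) (fun x => !(cone p d (D i) x))) 3 = ⊥
    rw [cst_compl]
    exact h2 p d hd (D i) (hR i) (hds i)
  · intro i j g hg hx
    have hx' : ∀ x, cone p d (D i) (g x) = cone p d (D j) x := by
      intro x
      have := hx x
      exact Bool.not_inj this
    obtain ⟨-, -, h', hh', -, hD⟩ := h p d hd (D j) (D i) (hR j) (hR i) g hg hx'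
    exact hne i j h' hh' hD
  · intro hp2 i
    obtain ⟨u, hu⟩ := rob_nonempty hd (D i) (hR i)
    refine ⟨0, cs 1 u, ?_, ?_, ?_⟩
    · intro h0
      have := congrFun h0 0
      exact zero_ne_one (α := ZMod p) this
    · show (!(cone p d (D i) 0)) = false
      unfold cone
      simp
    · show (!(cone p d (D i) (cs 1 u))) = false
      unfold cone
      have e1 : (decide (cs (1 : ZMod p) u 0 = 1) && D i (fun k => cs (1 : ZMod p) u k.succ)) = true := by
        have e2 : decide (cs (1 : ZMod p) u 0 = 1) = true := decide_eq_true rfl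
        have e3 : D i (fun k => cs (1 : ZMod p) u k.succ) = true := hu
        rw [e2, e3]; rfl
      rw [e1, Bool.or_true]
      rfl

end Pool.Agent.R379.DL
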