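import Pool.Agent.R379.DL.Stm

/-!
# Project DL (MP_5a645a_al), piece D: dimension one
-/

namespace Pool.Agent.R379.DL

open Equiv

namespace DP

theorem hom_eq {p : ℕ} {W : Type*} [AddCommGroup W] [Module (ZMod p) W] (L : Vp p 1 →+ W)
    (x : Vp p 1) : L x = x 0 • L (fun _ => 1) := by
  have h := (L.toZModLinearMap p).map_smul (x 0) (fun _ => 1)
  have hx : x = x 0 • (fun _ => (1 : ZMod p) : Vp p 1) := by
    funext j
    rw [Pi.smul_apply, smul_eq_mul, mul_one, Fin.eq_zero j]
  have h1 : L x = L (x 0 • (fun _ => (1 : ZMod p) : Vp p 1)) := by rw [← hx]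
  rw [h1]
  exact h

theorem aff_eq {p : ℕ} {g : Perm (Vp p 1)} (hg : IsAff g) :
    ∃ l : ZMod p, ∀ x, g x = l • x + g 0 := by
  let L : Vp p 1 →+ Vp p 1 :=
    { toFun := fun x => g x - g 0
      map_zero' := sub_self _
      map_add' := by
        intro x y
        have := hg x y 0
        rw [sub_zero] at this
        change g (x + y) - g 0 = (g x - g 0) + (g y - g 0)
        rw [this]
        abel }
  refine ⟨L (fun _ => 1) 0, fun x => ?_⟩
  have h1 : g x - g 0 = x 0 • L (fun _ => 1) := hom_eq L x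
  rw [← sub_eq_iff_eq_add, h1]
  funext j
  rw [Fin.eq_zero j, Pi.smul_apply, Pi.smul_apply, smul_eq_mul, smul_eq_mul, mul_comm]

/-- translations -/
def tr (p : ℕ) : Subgroup (Perm (Vp p 1)) where
  carrier := {g | ∃ c, ∀ x, g x = x + c}
  one_mem' := ⟨0, fun x => (add_zero x).symm⟩
  mul_mem' := by
    rintro a b ⟨c, hc⟩ ⟨d, hd⟩
    refine ⟨d + c, fun x => ?_⟩
    rw [Perm.mul_apply, hc, hd, add_assoc]
  inv_mem' := by
    rintro a ⟨c, hc⟩
    refine ⟨-c, fun x => ?_⟩
    rw [Perm.inv_eq_iff_eq, hc]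
    abel

theorem comm_tr {p : ℕ} {a b : Perm (Vp p 1)} (ha : IsAff a) (hb : IsAff b) :
    a * b * a⁻¹ * b⁻¹ ∈ tr p := by
  obtain ⟨l, hl⟩ := aff_eq ha
  obtain ⟨k, hk⟩ := aff_eq hb
  refine ⟨a (b 0) - b (a 0), fun x => ?_⟩
  have h1 : ∀ y, (a * b) y = (b * a) y + (a (b 0) - b (a 0)) := by
    intro y
    rw [Perm.mul_apply, Perm.mul_apply, hl (b y), hk (a y), hk y, hl y, hl (b 0), hk (a 0)]
    rw [smul_add, smul_add, smul_smul, smul_smul, mul_comm k l]
    abel
  have h2 := h1 ((a⁻¹ * b⁻¹) x)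
  have h3 : (b * a) ((a⁻¹ * b⁻¹) x) = x := by
    rw [← Perm.mul_apply]
    have : b * a * (a⁻¹ * b⁻¹) = 1 := by group
    rw [this]; rfl
  rw [h3] at h2
  rw [← h2]
  rfl

theorem card_lt {p : ℕ} [Fact p.Prime] (i : ℕ) (hi : i ≤ p) :
    (Finset.univ.filter (fun x : Vp p 1 => (x 0).val < i)).card = i := by
  have hp : 0 < p := (Fact.out : p.Prime).pos
  have : (Finset.univ.filter (fun x : Vp p 1 => (x 0).val < i)) =
      (Finset.range i).image (fun n : ℕ => (fun _ => (n : ZMod p) : Vp p 1)) := by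
    ext x
    rw [Finset.mem_filter, Finset.mem_image]
    constructor
    · rintro ⟨_, h⟩
      refine ⟨(x 0).val, Finset.mem_range.2 h, ?_⟩
      funext j
      rw [Fin.eq_zero j, ZMod.natCast_zmod_val]
    · rintro ⟨n, hn, rfl⟩
      rw [Finset.mem_range] at hn
      refine ⟨Finset.mem_univ _, ?_⟩
      rw [ZMod.val_natCast, Nat.mod_eq_of_lt (lt_of_lt_of_le hn hi)]
      exact hn
  rw [this, Finset.card_image_of_injOn, Finset.card_range]
  intro a ha b hb hab
  have h0 := congrFun hab 0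
  rw [Finset.coe_range, Set.mem_Iio] at ha hb
  have h1 := congrArg ZMod.val h0
  rw [ZMod.val_natCast, ZMod.val_natCast, Nat.mod_eq_of_lt (lt_of_lt_of_le ha hi),
    Nat.mod_eq_of_lt (lt_of_lt_of_le hb hi)] at h1
  exact h1

theorem ineq {p : ℕ} [Fact p.Prime] (hp : 5 ≤ p) (i j : Fin 5) (g : Perm (Vp p 1))
    (h : ∀ x, ((g x) 0).val < (i : ℕ) ↔ (x 0).val < (j : ℕ)) : i = j := by
  have h1 := card_lt (p := p) (i : ℕ) (by omega)
  have h2 := card_lt (p := p) (j : ℕ) (by omega)
  have h3 : (Finset.univ.filter (fun x : Vp p 1 => (x 0).val < (i : ℕ))) =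
      (Finset.univ.filter (fun x : Vp p 1 => (x 0).val < (j : ℕ))).map g.toEmbedding := by
    ext x
    rw [Finset.mem_map, Finset.mem_filter]
    constructor
    · rintro ⟨_, hx⟩
      refine ⟨g.symm x, ?_, by simp⟩
      rw [Finset.mem_filter]
      refine ⟨Finset.mem_univ _, ?_⟩
      rw [← h, Equiv.apply_symm_apply]
      exact hx
    · rintro ⟨y, hy, rfl⟩
      rw [Finset.mem_filter] at hy
      exact ⟨Finset.mem_univ _, (h y).2 hy.2⟩
  rw [h3, Finset.card_map, h2] at h1
  exact Fin.ext h1.symm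

end DP

theorem pc_line : ST_line := by
  intro p _
  rw [show (2 : ℕ) = 1 + 1 from rfl, ds_succ, ds_succ, ds_zero]
  have h1 : ⁅aff (Vp p 1), aff (Vp p 1)⁆ ≤ DP.tr p := by
    rw [Subgroup.commutator_le]
    intro a ha b hb
    exact DP.comm_tr ha hb
  rw [Subgroup.commutator_eq_bot_iff_le_centralizer]
  intro a ha
  rw [Subgroup.mem_centralizer_iff]
  intro b hb
  obtain ⟨c, hc⟩ := h1 ha
  obtain ⟨d, hd⟩ := h1 hb
  ext1 x
  rw [Perm.mul_apply, Perm.mul_apply, hc, hd, hd, hc]
  abel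

theorem pc_lineTop : ST_lineTop := by
  intro p _ hp
  refine ⟨fun i x => if (x 0).val < (i : ℕ) then 1 else 0, fun i => ?_, fun i j g hg h => ?_⟩
  · apply ds_eq_bot_of_le (m := 2) (by norm_num)
    apply ds_eq_bot_mono _ (pc_line p)
    intro g hg
    exact hg.1
  · apply DP.ineq hp i j g
    intro x
    have := h x
    by_cases h1 : ((g x) 0).val < (i : ℕ) <;> by_cases h2 : (x 0).val < (j : ℕ) <;>
      simp [h1, h2] at this ⊢

theorem pc_lineGood : ST_lineGood := by
  intro p _ hp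
  refine ⟨fun i x => !(decide ((x 0).val < (i : ℕ))), fun i => ?_, fun i => ?_, fun i j g hg h => ?_,
    fun h2 => by omega⟩
  · intro x₀ f c hf
    have hval : ∀ n : ℕ, n < p → 4 ≤ n → (fun _ => (n : ZMod p) : Vp p 1) ≠ x₀ →
        f (fun _ => (n : ZMod p)) = c := by
      intro n hn h4 hne
      apply hf _ _ hne
      simp only [Bool.not_eq_true', decide_eq_false_iff_not, not_lt]
      rw [ZMod.val_natCast, Nat.mod_eq_of_lt hn]
      omega
    have hinj : ∀ n m : ℕ, n < p → m < p → n ≠ m → ((n : ZMod p) ≠ (m : ZMod p)) := by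
      intro n m hn hm hne h
      apply hne
      have := congrArg ZMod.val h
      rwa [ZMod.val_natCast, ZMod.val_natCast, Nat.mod_eq_of_lt hn, Nat.mod_eq_of_lt hm] at this
    have hex : ∃ n m : ℕ, n < p ∧ m < p ∧ n ≠ m ∧ f (fun _ => (n : ZMod p)) = c ∧
        f (fun _ => (m : ZMod p)) = c := by
      by_cases h4 : (fun _ => ((4 : ℕ) : ZMod p) : Vp p 1) = x₀
      · refine ⟨5, 6, by omega, by omega, by omega, hval 5 (by omega) (by omega) ?_,
          hval 6 (by omega) (by omega) ?_⟩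
        · rw [← h4]; intro h; exact hinj 5 4 (by omega) (by omega) (by omega) (congrFun h 0)
        · rw [← h4]; intro h; exact hinj 6 4 (by omega) (by omega) (by omega) (congrFun h 0)
      · by_cases h5 : (fun _ => ((5 : ℕ) : ZMod p) : Vp p 1) = x₀
        · refine ⟨4, 6, by omega, by omega, by omega, hval 4 (by omega) (by omega) h4,
            hval 6 (by omega) (by omega) ?_⟩
          rw [← h5]; intro h; exact hinj 6 5 (by omega) (by omega) (by omega) (congrFun h 0)
        · exact ⟨4, 5, by omega, by omega, by omega, hval 4 (by omega) (by omega) h4,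
            hval 5 (by omega) (by omega) h5⟩
    obtain ⟨n, m, hn, hm, hne, h1, h2⟩ := hex
    have h3 : f (fun _ => (n : ZMod p)) = (n : ZMod p) * f (fun _ => 1) := DP.hom_eq f _
    have h4 : f (fun _ => (m : ZMod p)) = (m : ZMod p) * f (fun _ => 1) := DP.hom_eq f _
    have h5 : ((n : ZMod p) - m) * f (fun _ => 1) = 0 := by
      rw [sub_mul, ← h3, ← h4, h1, h2, sub_self]
    have h6 : f (fun _ => 1) = 0 := by
      rcases mul_eq_zero.1 h5 with h | h
      · exact absurd (sub_eq_zero.1 h) (hinj n m hn hm hne)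
      · exact h
    refine AddMonoidHom.ext fun x => ?_
    rw [DP.hom_eq f x, h6, smul_zero]
    rfl
  · apply ds_eq_bot_of_le (m := 2) (by norm_num)
    apply ds_eq_bot_mono _ (pc_line p)
    intro g hg
    exact hg.1
  · apply DP.ineq (by omega) i j g
    intro x
    have := h x
    by_cases h1 : ((g x) 0).val < (i : ℕ) <;> by_cases h2 : (x 0).val < (j : ℕ) <;>
      simp [h1, h2] at this ⊢

end Pool.Agent.R379.DL
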