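import Mathlib

/-!
# Project DL (MP_5a645a_al): the derived length after a 2-colouring; definitions and basic tools

`ds H n` is the ambient derived series of a subgroup, `cst H c` the stabiliser in `H` of a colouring `c`,
`aff V` the group of (integral-)affine permutations of an additive commutative group `V`.
-/

namespace Pool.Agent.R379.DL

open Equiv

/-- ambient derived series -/
def ds {G : Type*} [Group G] (H : Subgroup G) : ℕ → Subgroup G
  | 0 => H
  | n + 1 => ⁅ds H n, ds H n⁆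

/-- the stabiliser in `H` of a colouring `c` -/
def cst {Ω κ : Type*} (H : Subgroup (Perm Ω)) (c : Ω → κ) : Subgroup (Perm Ω) where
  carrier := {g | g ∈ H ∧ ∀ x, c (g x) = c x}
  one_mem' := ⟨H.one_mem, fun _ => rfl⟩
  mul_mem' := by
    intro a b ha hb
    exact ⟨H.mul_mem ha.1 hb.1, fun x => by rw [Perm.mul_apply, ha.2, hb.2]⟩
  inv_mem' := by
    intro a ha
    refine ⟨H.inv_mem ha.1, fun x => ?_⟩
    have := ha.2 (a⁻¹ x)
    rw [← Perm.mul_apply, mul_inv_cancel, Perm.one_apply] at this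
    exact this.symm

theorem mem_cst {Ω κ : Type*} {H : Subgroup (Perm Ω)} {c : Ω → κ} {g : Perm Ω} :
    g ∈ cst H c ↔ g ∈ H ∧ ∀ x, c (g x) = c x := Iff.rfl

/-- integral-affine permutations -/
def IsAff {V : Type*} [AddCommGroup V] (g : Perm V) : Prop :=
  ∀ x y z, g (x + y - z) = g x + g y - g z

/-- the group of affine permutations -/
def aff (V : Type*) [AddCommGroup V] : Subgroup (Perm V) where
  carrier := {g | IsAff g}
  one_mem' := fun _ _ _ => rfl
  mul_mem' := by
    intro a b ha hb x y z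
    rw [Perm.mul_apply, hb, ha]; rfl
  inv_mem' := by
    intro a ha x y z
    apply a.injective
    rw [ha]
    simp

theorem mem_aff {V : Type*} [AddCommGroup V] {g : Perm V} : g ∈ aff V ↔ IsAff g := Iff.rfl

/-- the space `F_p^d` -/
abbrev Vp (p d : ℕ) := Fin d → ZMod p

/-- five pairwise inequivalent `k`-colourings of `F_p^d` whose affine stabilisers have derived length `≤ m` -/
def TOP (k m p d : ℕ) : Prop :=
  ∃ C : Fin 5 → (Vp p d → Fin k),
    (∀ i, ds (cst (aff (Vp p d)) (C i)) m = ⊥) ∧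
    (∀ i j, ∀ g ∈ aff (Vp p d), (∀ x, C i (g x) = C j x) → i = j)

/-- robust sets: no nonzero functional is constant on the set minus one point -/
def Rob (p d : ℕ) (D : Vp p d → Bool) : Prop :=
  ∀ x₀ : Vp p d, ∀ f : Vp p d →+ ZMod p, ∀ c : ZMod p,
    (∀ x, D x = true → x ≠ x₀ → f x = c) → f = 0

/-- five pairwise inequivalent robust sets with affine stabilisers of derived length `≤ 3` -/
def Good (p d : ℕ) : Prop :=
  ∃ D : Fin 5 → (Vp p d → Bool),
    (∀ i, Rob p d (D i)) ∧
    (∀ i, ds (cst (aff (Vp p d)) (D i)) 3 = ⊥) ∧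
    (∀ i j, ∀ g ∈ aff (Vp p d), (∀ x, D i (g x) = D j x) → i = j) ∧
    (p = 2 → ∀ i, ∃ x y, x ≠ y ∧ D i x = false ∧ D i y = false)

/-! ## basic facts on `ds` -/

section
variable {G G' : Type*} [Group G] [Group G']

theorem ds_zero (H : Subgroup G) : ds H 0 = H := rfl
theorem ds_succ (H : Subgroup G) (n : ℕ) : ds H (n + 1) = ⁅ds H n, ds H n⁆ := rfl

theorem ds_le (H : Subgroup G) (n : ℕ) : ds H n ≤ H := by
  induction n with
  | zero => exact le_rfl
  | succ n ih =>
    rw [ds_succ, Subgroup.commutator_le]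
    intro a ha b hb
    exact H.mul_mem (H.mul_mem (H.mul_mem (ih ha) (ih hb)) (H.inv_mem (ih ha))) (H.inv_mem (ih hb))

theorem ds_mono {H K : Subgroup G} (h : H ≤ K) (n : ℕ) : ds H n ≤ ds K n := by
  induction n with
  | zero => exact h
  | succ n ih => exact Subgroup.commutator_mono ih ih

theorem ds_add (H : Subgroup G) (m n : ℕ) : ds H (m + n) = ds (ds H m) n := by
  induction n with
  | zero => rfl
  | succ n ih => rw [← add_assoc, ds_succ, ds_succ, ih]

theorem ds_bot (n : ℕ) : ds (⊥ : Subgroup G) n = ⊥ := le_bot_iff.mp (ds_le _ n)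

theorem ds_antitone (H : Subgroup G) {m n : ℕ} (h : m ≤ n) : ds H n ≤ ds H m := by
  obtain ⟨k, rfl⟩ := Nat.exists_eq_add_of_le h
  rw [ds_add]; exact ds_le _ _

theorem ds_eq_bot_mono {H K : Subgroup G} (h : H ≤ K) {n : ℕ} (hK : ds K n = ⊥) : ds H n = ⊥ :=
  le_bot_iff.mp (hK ▸ ds_mono h n)

theorem ds_eq_bot_of_le {H : Subgroup G} {m n : ℕ} (h : m ≤ n) (hm : ds H m = ⊥) : ds H n = ⊥ :=
  le_bot_iff.mp (hm ▸ ds_antitone H h)

/-- Transport of the derived series along a multiplicative relation. -/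
theorem relds (R : G → G' → Prop)
    (hmul : ∀ a a' b b', R a a' → R b b' → R (a * b) (a' * b'))
    (hinv : ∀ a a', R a a' → R a⁻¹ a'⁻¹) (hone : R 1 1)
    (H : Subgroup G) (H' : Subgroup G') (h : ∀ g ∈ H, ∃ g' ∈ H', R g g') (n : ℕ) :
    ∀ g ∈ ds H n, ∃ g' ∈ ds H' n, R g g' := by
  induction n with
  | zero => exact h
  | succ n ih =>
    let K : Subgroup G :=
      { carrier := {g | ∃ g' ∈ ds H' (n + 1), R g g'}
        one_mem' := ⟨1, Subgroup.one_mem _, hone⟩
        mul_mem' := by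
          rintro a b ⟨a', ha', hra⟩ ⟨b', hb', hrb⟩
          exact ⟨a' * b', Subgroup.mul_mem _ ha' hb', hmul _ _ _ _ hra hrb⟩
        inv_mem' := by
          rintro a ⟨a', ha', hra⟩
          exact ⟨a'⁻¹, Subgroup.inv_mem _ ha', hinv _ _ hra⟩ }
    have hK : ds H (n + 1) ≤ K := by
      rw [ds_succ, Subgroup.commutator_le]
      intro a ha b hb
      obtain ⟨a', ha', hra⟩ := ih a ha
      obtain ⟨b', hb', hrb⟩ := ih b hb
      exact ⟨a' * b' * a'⁻¹ * b'⁻¹, Subgroup.commutator_mem_commutator ha' hb',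
        hmul _ _ _ _ (hmul _ _ _ _ (hmul _ _ _ _ hra hrb) (hinv _ _ hra)) (hinv _ _ hrb)⟩
    exact hK

theorem ds_map (f : G →* G') (H : Subgroup G) (n : ℕ) : ds (H.map f) n = (ds H n).map f := by
  induction n with
  | zero => rfl
  | succ n ih => rw [ds_succ, ds_succ, ih, Subgroup.map_commutator]

theorem ds_top (n : ℕ) : ds (⊤ : Subgroup G) n = derivedSeries G n := by
  induction n with
  | zero => rfl
  | succ n ih => rw [ds_succ, ih, derivedSeries_succ]

theorem ds_eq_map (H : Subgroup G) (n : ℕ) : ds H n = (derivedSeries H n).map H.subtype := by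
  rw [← ds_top, ← ds_map]
  congr 1
  rw [← MonoidHom.range_eq_map, Subgroup.range_subtype]

theorem ds_eq_bot_iff (H : Subgroup G) (n : ℕ) : ds H n = ⊥ ↔ derivedSeries H n = ⊥ := by
  rw [ds_eq_map, Subgroup.map_eq_bot_iff_of_injective _ H.subtype_injective]

theorem isSolvable_iff_ds (H : Subgroup G) : Group.IsSolvable H ↔ ∃ n, ds H n = ⊥ := by
  simp_rw [ds_eq_bot_iff]
  exact ⟨fun h => h.solvable, fun h => ⟨h⟩⟩

end

end Pool.Agent.R379.DL
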