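import Pool.Agent.R379.DL.Stm

/-!
# Project DL (MP_5a645a_al), pieces E0 and E2
-/

namespace Pool.Agent.R379.DL

open Equiv

namespace E0P

theorem tct_map {V : Type} [AddCommGroup V] [DecidableEq V] {S S' : Finset V} {g : Perm V}
    (hg : IsAff g) (h : ∀ x, g x ∈ S ↔ x ∈ S') (x : V) : tct S (g x) = tct S' x := by
  unfold tct
  symm
  apply Finset.card_bij (fun q _ => (g q.1, g q.2))
  · intro q hq
    rw [Finset.mem_filter, Finset.mem_product] at hq ⊢
    refine ⟨⟨(h _).2 hq.1.1, (h _).2 hq.1.2⟩, ?_⟩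
    rw [← hg, h]
    exact hq.2
  · intro q _ q' _ he
    rw [Prod.mk.injEq] at he
    exact Prod.ext (g.injective he.1) (g.injective he.2)
  · intro q hq
    rw [Finset.mem_filter, Finset.mem_product] at hq
    refine ⟨(g.symm q.1, g.symm q.2), ?_, ?_⟩
    · rw [Finset.mem_filter, Finset.mem_product]
      refine ⟨⟨?_, ?_⟩, ?_⟩
      · rw [← h, Equiv.apply_symm_apply]; exact hq.1.1
      · rw [← h, Equiv.apply_symm_apply]; exact hq.1.2
      · rw [← h, hg, Equiv.apply_symm_apply, Equiv.apply_symm_apply]; exact hq.2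
    · rw [Equiv.apply_symm_apply, Equiv.apply_symm_apply]

theorem mem_iff {V : Type} [DecidableEq V] {S S' : Finset V} {g : Perm V}
    (h : ∀ x, setD S (g x) = setD S' x) (x : V) : g x ∈ S ↔ x ∈ S' := by
  have := h x
  unfold setD at this
  rwa [decide_eq_decide] at this

theorem fix_all {p d : ℕ} [Fact p.Prime] {g : Perm (Vp p d)} (hg : IsAff g) (h0 : g 0 = 0)
    (hi : ∀ i, i < d → g (ev p d i) = ev p d i) : g = 1 := by
  have hadd : ∀ x y, g (x + y) = g x + g y := by
    intro x y
    have := hg x y 0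
    rwa [h0, sub_zero, sub_zero] at this
  let L : Vp p d →+ Vp p d := ⟨⟨g, h0⟩, hadd⟩
  have hL : (L.toZModLinearMap p) = LinearMap.id := by
    apply LinearMap.pi_ext'
    intro i
    apply LinearMap.ext_ring
    have hev : ev p d i = Pi.single i (1 : ZMod p) := by
      funext j
      unfold ev
      rw [Pi.single_apply]
      simp only [Fin.ext_iff]
    have := hi i i.2
    rw [hev] at this
    simp only [LinearMap.coe_comp, Function.comp_apply, LinearMap.coe_single, LinearMap.id_coe, id]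
    exact this
  ext1 x
  exact congrArg (fun f : Vp p d →ₗ[ZMod p] Vp p d => f x) hL

end E0P

theorem pc_tl (h : ST_parts) : ST_tl := by
  intro p d _ S h0 hev hc
  have hH : ∀ g ∈ cst (aff (Vp p d)) (setD S), IsAff g ∧ ∀ x, g x ∈ S ↔ x ∈ S := by
    intro g hg
    exact ⟨hg.1, E0P.mem_iff hg.2⟩
  refine h (Vp p d) ℕ (cst (aff (Vp p d)) (setD S)) (S : Set (Vp p d)) (tct S) 3 le_rfl ?_ ?_ ?_
  · intro g hg x hx
    obtain ⟨ha, hm⟩ := hH g hg
    exact ⟨(hm x).2 hx, E0P.tct_map ha hm x⟩
  · intro q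
    have hs : {x | x ∈ (S : Set (Vp p d)) ∧ tct S x = q} =
        ((S.filter (fun x => tct S x = q) : Finset (Vp p d)) : Set (Vp p d)) := by
      ext x
      simp
    rw [hs]
    refine ⟨Finset.finite_toSet _, ?_⟩
    rw [Set.ncard_coe_finset]
    rcases (S.filter (fun x => tct S x = q)).eq_empty_or_nonempty with he | ⟨y, hy⟩
    · rw [he]; simp
    · rw [Finset.mem_filter] at hy
      rw [← hy.2]
      exact hc y hy.1
  · intro g hg hf
    obtain ⟨ha, hm⟩ := hH g hg
    exact E0P.fix_all ha (hf 0 h0) (fun i hi => hf _ (hev i hi))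

theorem pc_inv : ST_inv := by
  intro p d _ S S' g hg h
  have hm := E0P.mem_iff h
  have hS : S = S'.map g.toEmbedding := by
    ext x
    rw [Finset.mem_map]
    constructor
    · intro hx
      refine ⟨g.symm x, ?_, by simp⟩
      rw [← hm, Equiv.apply_symm_apply]
      exact hx
    · rintro ⟨y, hy, rfl⟩
      exact (hm y).2 hy
  constructor
  · rw [hS, Finset.card_map]
  · have h2 : ∑ x ∈ S, tct S x = ∑ x ∈ S'.map g.toEmbedding, tct S x := by
      rw [← hS]
    rw [h2, Finset.sum_map]
    apply Finset.sum_congr rfl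
    intro x _
    exact E0P.tct_map hg hm x

end Pool.Agent.R379.DL
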