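import Pool.Agent.R379.DL.Stm

/-!
# Project DL, pieces E1 and E3 (helper33)
-/

namespace Pool.Agent.R379.DL

open Equiv

theorem pc_robc : ST_robc := by
  intro p d _ S hS x₀ f c h
  have hcardV : Fintype.card (Vp p d) = p ^ d := by
    simp [Vp, ZMod.card]
  refine AddMonoidHom.ext fun v => ?_
  classical
  let B : Finset (Vp p d) := insert x₀ S
  have hB : B.card ≤ S.card + 1 := Finset.card_insert_le _ _
  let B' : Finset (Vp p d) := B.image (fun x => x - v)
  have hB' : B'.card ≤ S.card + 1 := le_trans Finset.card_image_le hB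
  have hU : (B ∪ B').card < Fintype.card (Vp p d) := by
    have := Finset.card_union_le B B'
    rw [hcardV]
    omega
  obtain ⟨x, hx⟩ : ∃ x, x ∉ B ∪ B' := by
    by_contra hcon
    push Not at hcon
    have : B ∪ B' = Finset.univ := Finset.eq_univ_iff_forall.mpr hcon
    rw [this, Finset.card_univ] at hU
    exact lt_irrefl _ hU
  rw [Finset.mem_union, not_or] at hx
  obtain ⟨hx1, hx2⟩ := hx
  have hx3 : x + v ∉ B := by
    intro hmem
    exact hx2 (Finset.mem_image.mpr ⟨x + v, hmem, by abel⟩)
  have key : ∀ y, y ∉ B → f y = c := by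
    intro y hy
    have hy1 : y ≠ x₀ := fun he => hy (by rw [he]; exact Finset.mem_insert_self _ _)
    have hy2 : y ∉ S := fun he => hy (Finset.mem_insert_of_mem he)
    refine h y ?_ hy1
    simp only [setD, decide_eq_false hy2, Bool.not_false]
  have e1 := key x hx1
  have e2 := key (x + v) hx3
  rw [map_add, e1] at e2
  have : f v = 0 := by
    have := add_left_cancel (a := c) (b := f v) (c := 0) (by rw [e2, add_zero])
    exact this
  simpa using this

theorem cst_not {V : Type} [AddCommGroup V] [DecidableEq V] (H : Subgroup (Perm V)) (S : Finset V) :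
    cst H (fun x => !(setD S x)) = cst H (setD S) := by
  ext g
  rw [mem_cst, mem_cst]
  constructor
  · rintro ⟨h1, h2⟩
    refine ⟨h1, fun x => ?_⟩
    have := h2 x
    exact Bool.not_inj this
  · rintro ⟨h1, h2⟩
    exact ⟨h1, fun x => by rw [h2 x]⟩

theorem pc_mkGood (h0 : ST_tl) (h1 : ST_robc) (h2 : ST_inv) : ST_mkGood := by
  intro p d _ hd S hS hc hz he ht
  refine ⟨fun i x => !(setD (S i) x), fun i => h1 p d (S i) (hS i), fun i => ?_, ?_, ?_⟩
  · rw [cst_not]
    exact h0 p d (S i) (hz i) (fun j hj => he i j hj) (ht i)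
  · intro i j g hg hx
    exact hc i j (h2 p d (S i) (S j) g hg (fun x => Bool.not_inj (hx x))).1
  · intro _ i
    refine ⟨0, ev p d 0, ?_, ?_, ?_⟩
    · intro h
      have := congrFun h ⟨0, hd⟩
      simp [ev] at this
    · simp [setD, hz i]
    · simp [setD, he i 0 hd]

end Pool.Agent.R379.DL
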