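import Pool.Agent.R379.DL.Stm

/-! # Project DL: the final statement from the upper and the lower bound -/

namespace Pool.Agent.R379.DL

open Equiv

theorem isLeast_three (hu : ST_upper) (hs : ST_solv) (hl : ST_low) :
    IsLeast {c : ℕ | ∀ (Ω : Type) [Finite Ω] (G : Subgroup (Perm Ω)), Group.IsSolvable G →
      ∃ γ : Ω → Bool, derivedSeries (cst G γ) c = ⊥} 3 := by
  constructor
  · intro Ω _ G hG
    obtain ⟨γ, hγ⟩ := hu Ω G ((isSolvable_iff_ds G).mp hG)
    exact ⟨γ, (ds_eq_bot_iff _ _).mp hγ⟩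
  · intro c hc
    by_contra hlt
    obtain ⟨γ, hγ⟩ := hc Om GG ((isSolvable_iff_ds GG).mpr hs)
    exact hl γ (ds_eq_bot_of_le (show c ≤ 2 by omega) ((ds_eq_bot_iff _ _).mpr hγ))

end Pool.Agent.R379.DL
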