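import Pool.Agent.R379.DL.Stm

/-!
# Project DL (MP_5a645a_al), piece I1: one step of the induction
-/

namespace Pool.Agent.R379.DL

open Equiv

namespace I1P

theorem inv_app {α : Type*} (u : Perm α) (x : α) : u⁻¹ (u x) = x := u.symm_apply_apply x

theorem app_inv {α : Type*} (u : Perm α) (x : α) : u (u⁻¹ x) = x := u.apply_symm_apply x

theorem restr {B S : Type} (W : Subgroup (Perm B)) (f : B → S) (s₀ : S)
    (hblk : ∀ g ∈ W, ∀ x y, f x = f y → f (g x) = f (g y)) (u : Perm B) (hu : u ∈ W)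
    (b : B) (hb : f b = s₀) (hub : f (u b) = s₀) :
    ∃ h ∈ W1 W f s₀, ∀ x : {x : B // f x = s₀}, u x.1 = (h x).1 := by
  have h1 : ∀ x, f x = s₀ → f (u x) = s₀ := by
    intro x hx
    rw [hblk u hu x b (by rw [hx, hb]), hub]
  have h2 : ∀ x, f (u x) = s₀ → f x = s₀ := by
    intro x hx
    have := hblk u⁻¹ (W.inv_mem hu) (u x) (u b) (by rw [hx, hub])
    rw [I1P.inv_app, I1P.inv_app] at this
    rw [this, hb]
  let h : Perm {x : B // f x = s₀} := u.subtypePerm (p := fun x => f x = s₀)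
    (fun x => ⟨h2 x, h1 x⟩)
  exact ⟨h, ⟨u, hu, fun x => rfl⟩, fun x => rfl⟩

end I1P

theorem pc_step : ST_step := by
  intro B S _ W f s₀ htr hsurj hblk p d k m D e haff hTOP c hc1 hc2 hmD
  obtain ⟨C, hC1, hC2⟩ := hTOP
  obtain ⟨b₀, hb₀⟩ := hsurj s₀
  have hw : ∀ s, ∃ g ∈ W, f (g b₀) = s := by
    intro s
    obtain ⟨b, hb⟩ := hsurj s
    obtain ⟨g, hg, hgb⟩ := htr b₀ b
    exact ⟨g, hg, by rw [hgb, hb]⟩
  choose w hwW hwf using hw
  have hfib : ∀ s x, f x = s₀ → f (w s x) = s := by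
    intro s x hx
    rw [hblk (w s) (hwW s) x b₀ (by rw [hx, hb₀]), hwf]
  have hfib' : ∀ s x, f x = s → f ((w s)⁻¹ x) = s₀ := by
    intro s x hx
    have h2 := hblk (w s)⁻¹ (W.inv_mem (hwW s)) x (w s b₀) (by rw [hx, hwf])
    rw [I1P.inv_app] at h2
    rw [h2, hb₀]
  let γ : (Vp p d → Fin k) → (B → Bool) := fun C' x =>
    c (C' (e (f x))) ⟨(w (f x))⁻¹ x, hfib' (f x) x rfl⟩
  have hγ : ∀ (C' : Vp p d → Fin k) (s : S) (x : B) (hx : f x = s),
      γ C' x = c (C' (e s)) ⟨(w s)⁻¹ x, hfib' s x hx⟩ := by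
    intro C' s x hx
    subst hx
    rfl
  -- the induced permutation of `S`
  have hq : ∀ g ∈ W, ∃ q : Perm S, ∀ x, f (g x) = q (f x) := by
    intro g hg
    have hA : ∀ g' ∈ W, ∀ x, f (g' (w (f x) b₀)) = f (g' x) := by
      intro g' hg' x
      exact hblk g' hg' _ _ (hwf (f x))
    refine ⟨⟨fun s => f (g (w s b₀)), fun s => f (g⁻¹ (w s b₀)), fun s => ?_, fun s => ?_⟩,
      fun x => (hA g hg x).symm⟩
    · change f (g⁻¹ (w (f (g (w s b₀))) b₀)) = s
      rw [hA g⁻¹ (W.inv_mem hg), I1P.inv_app, hwf]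
    · change f (g (w (f (g⁻¹ (w s b₀))) b₀)) = s
      rw [hA g hg, I1P.app_inv, hwf]
  -- the key computation
  have key : ∀ (C₁ C₂ : Vp p d → Fin k) (g : Perm B), g ∈ W → (∀ x, γ C₁ (g x) = γ C₂ x) →
      ∀ q : Perm S, (∀ x, f (g x) = q (f x)) → ∀ s : S,
      ∃ h ∈ W1 W f s₀, (∀ y : {x : B // f x = s₀}, ((w (q s))⁻¹ * g * w s) y.1 = (h y).1) ∧
        ∀ y, c (C₁ (e (q s))) (h y) = c (C₂ (e s)) y := by
    intro C₁ C₂ g hg hgγ q hqg s
    have hu : (w (q s))⁻¹ * g * w s ∈ W :=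
      W.mul_mem (W.mul_mem (W.inv_mem (hwW _)) hg) (hwW s)
    have hub : f (((w (q s))⁻¹ * g * w s) b₀) = s₀ := by
      rw [Perm.mul_apply, Perm.mul_apply]
      apply hfib'
      rw [hqg, hwf]
    obtain ⟨h, hh, hhy⟩ := I1P.restr W f s₀ hblk _ hu b₀ hb₀ hub
    refine ⟨h, hh, hhy, fun y => ?_⟩
    have h1 := hgγ (w s y.1)
    have hfy : f (w s y.1) = s := hfib s y.1 y.2
    have hfgy : f (g (w s y.1)) = q s := by rw [hqg, hfy]
    rw [hγ C₁ (q s) _ hfgy, hγ C₂ s _ hfy] at h1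
    have e1 : (⟨(w (q s))⁻¹ (g (w s y.1)), hfib' (q s) _ hfgy⟩ : {x : B // f x = s₀}) = h y := by
      apply Subtype.ext
      exact hhy y
    have e2 : (⟨(w s)⁻¹ (w s y.1), hfib' s _ hfy⟩ : {x : B // f x = s₀}) = y := by
      apply Subtype.ext
      exact I1P.inv_app _ _
    rw [e1, e2] at h1
    exact h1
  have keyC : ∀ (C₁ C₂ : Vp p d → Fin k) (g : Perm B), g ∈ W → (∀ x, γ C₁ (g x) = γ C₂ x) →
      ∀ q : Perm S, (∀ x, f (g x) = q (f x)) → ∀ s : S, C₁ (e (q s)) = C₂ (e s) := by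
    intro C₁ C₂ g hg hgγ q hqg s
    obtain ⟨h, hh, _, h2⟩ := key C₁ C₂ g hg hgγ q hqg s
    exact hc2 _ _ h hh h2
  have keyV : ∀ (C₁ C₂ : Vp p d → Fin k) (g : Perm B), g ∈ W → (∀ x, γ C₁ (g x) = γ C₂ x) →
      ∃ q' : Perm (Vp p d), q' ∈ aff (Vp p d) ∧ (∀ x, e (f (g x)) = q' (e (f x))) ∧
        ∀ v, C₁ (q' v) = C₂ v := by
    intro C₁ C₂ g hg hgγ
    obtain ⟨q, hqg⟩ := hq g hg
    refine ⟨(e.symm.trans q).trans e, haff g hg q hqg, fun x => ?_, fun v => ?_⟩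
    · simp [hqg]
    · have := keyC C₁ C₂ g hg hgγ q hqg (e.symm v)
      simpa using this
  refine ⟨fun i => γ (C i), fun i => ?_, fun i j g hg h => ?_⟩
  · -- derived length
    apply ds_eq_bot_of_le hmD
    rw [ds_add]
    have hle : ds (cst W (γ (C i))) m ≤ cst W (γ (C i)) := ds_le _ _
    have hfix : ∀ g ∈ ds (cst W (γ (C i))) m, ∀ x, f (g x) = f x := by
      intro g hg x
      obtain ⟨q', hq', hr⟩ := relds
        (fun (g : Perm B) (q' : Perm (Vp p d)) => ∀ x, e (f (g x)) = q' (e (f x)))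
        (fun a a' b b' ha hb x => by rw [Perm.mul_apply, ha, hb]; rfl)
        (fun a a' ha x => by
          have := ha (a⁻¹ x)
          rw [I1P.app_inv] at this
          rw [this, I1P.inv_app])
        (fun x => rfl) (cst W (γ (C i))) (cst (aff (Vp p d)) (C i))
        (fun g hg => by
          obtain ⟨q', h1, h2, h3⟩ := keyV (C i) (C i) g hg.1 hg.2
          exact ⟨q', ⟨h1, h3⟩, h2⟩) m g hg
      rw [hC1, Subgroup.mem_bot] at hq'
      subst hq'
      exact e.injective (hr x)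
    rw [eq_bot_iff]
    intro g hg
    rw [Subgroup.mem_bot]
    ext1 x
    obtain ⟨h, hh, hr⟩ := relds
      (fun (g : Perm B) (h : Perm {x : B // f x = s₀}) =>
        ∀ y : {x : B // f x = s₀}, ((w (f x))⁻¹ * g * w (f x)) y.1 = (h y).1)
      (fun a a' b b' ha hb y => by
        have e1 : (w (f x))⁻¹ * (a * b) * w (f x) =
          ((w (f x))⁻¹ * a * w (f x)) * ((w (f x))⁻¹ * b * w (f x)) := by group
        rw [e1, Perm.mul_apply, hb, ha]; rfl)
      (fun a a' ha y => by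
        have e1 : (w (f x))⁻¹ * a⁻¹ * w (f x) = ((w (f x))⁻¹ * a * w (f x))⁻¹ := by group
        rw [e1, Perm.inv_eq_iff_eq, ha, I1P.app_inv])
      (fun y => by
        have e1 : (w (f x))⁻¹ * 1 * w (f x) = 1 := by group
        rw [e1]; rfl)
      (ds (cst W (γ (C i))) m) (cst (W1 W f s₀) (c (C i (e (f x)))))
      (fun g hg => by
        obtain ⟨h, hh, h1, h2⟩ := key (C i) (C i) g (hle hg).1 (hle hg).2 1
          (fun x => hfix g hg x) (f x)
        exact ⟨h, ⟨hh, h2⟩, h1⟩) D g hg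
    rw [hc1, Subgroup.mem_bot] at hh
    subst hh
    have h1 := hr ⟨(w (f x))⁻¹ x, hfib' (f x) x rfl⟩
    rw [Perm.mul_apply, Perm.mul_apply, Perm.one_apply] at h1
    simp only at h1
    rw [I1P.app_inv] at h1
    exact (w (f x))⁻¹.injective h1
  · obtain ⟨q', h1, h2, h3⟩ := keyV (C i) (C j) g hg h
    exact hC2 i j q' h1 h3

end Pool.Agent.R379.DL
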