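import Pool.Agent.R379.DL.Stm

/-! # Project DL: the induction on the degree -/

namespace Pool.Agent.R379.DL

open Equiv

/-- restriction of a permutation preserving a fibre -/
theorem exists_restrict {B S : Type} {W : Subgroup (Perm B)} {f : B → S}
    (hf : ∀ g ∈ W, ∀ x y, f x = f y → f (g x) = f (g y)) (s₀ : S) {g : Perm B} (hg : g ∈ W)
    {x : B} (hx : f x = s₀) (hgx : f (g x) = s₀) :
    ∃ h ∈ W1 W f s₀, ∀ y, g y.1 = (h y).1 := by
  have h1 : ∀ y, f y = s₀ ↔ f (g y) = s₀ := by
    intro y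
    constructor
    · intro hy; rw [hf g hg y x (hy.trans hx.symm), hgx]
    · intro hy
      have := hf g⁻¹ (W.inv_mem hg) (g y) (g x) (hy.trans hgx.symm)
      rw [← Perm.mul_apply, ← Perm.mul_apply, inv_mul_cancel, Perm.one_apply, Perm.one_apply] at this
      rw [this, hx]
  exact ⟨g.subtypePerm (fun y => (h1 y).symm), ⟨g, hg, fun y => rfl⟩, fun y => rfl⟩

theorem exists_quot {B : Type} {W : Subgroup (Perm B)} (r : Setoid B)
    (hr : ∀ g ∈ W, ∀ x y, r x y → r (g x) (g y)) {g : Perm B} (hg : g ∈ W) :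
    ∃ q : Perm (Quotient r), ∀ x, (Quotient.mk r (g x)) = q (Quotient.mk r x) := by
  refine ⟨⟨Quotient.map g (fun x y h => hr g hg x y h),
    Quotient.map g.symm (fun x y h => hr g⁻¹ (W.inv_mem hg) x y h), ?_, ?_⟩, fun x => rfl⟩
  · intro q
    induction q using Quotient.ind with
    | _ x => simp [Quotient.map_mk]
  · intro q
    induction q using Quotient.ind with
    | _ x => simp [Quotient.map_mk]

theorem small_family {F : Type} [Finite F] (b : ℕ) (hb : Nat.card F = b) :
    ∃ c : Fin (b + 1) → (F → Bool), ∀ i j, ∀ h : Perm F, (∀ x, c i (h x) = c j x) → i = j := by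
  obtain ⟨φ⟩ : Nonempty (F ≃ Fin b) := ⟨Finite.equivFinOfCardEq hb⟩
  refine ⟨fun i x => decide ((φ x : ℕ) < i), fun i j h hh => ?_⟩
  have key : ∀ i : Fin (b + 1), Nat.card {x : F // (φ x : ℕ) < i} = i := by
    intro i
    have e1 : {x : F // (φ x : ℕ) < i} ≃ {y : Fin b // (y : ℕ) < i} :=
      φ.subtypeEquiv (fun x => Iff.rfl)
    have e2 : {y : Fin b // (y : ℕ) < i} ≃ Fin i :=
      ⟨fun y => ⟨y.1, y.2⟩, fun z => ⟨⟨z.1, by omega⟩, z.2⟩, fun y => rfl, fun z => rfl⟩
    rw [Nat.card_congr (e1.trans e2), Nat.card_fin]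
  have e : {x : F // (φ x : ℕ) < j} ≃ {x : F // (φ x : ℕ) < i} :=
    h.subtypeEquiv (fun x => by
      have := hh x
      rw [decide_eq_decide] at this
      exact this.symm)
  have := Nat.card_congr e
  rw [key, key] at this
  exact Fin.ext this.symm

theorem pc_ind (h1 : ST_perm) (ha : ST_aff) (h2 : ST_K2) (h3 : ST_K3) (h4 : ST_K4) (h5 : ST_K5)
    (hs : ST_step) : ST_ind := by
  suffices H : ∀ n, ∀ (B : Type) [Finite B] (W : Subgroup (Perm B)), (∃ n, ds W n = ⊥) →
      (∀ x y, ∃ g ∈ W, g x = y) → 4 ≤ Nat.card B → Nat.card B = n →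
      ∃ γ : Fin 5 → (B → Bool), (∀ i, ds (cst W (γ i)) 3 = ⊥) ∧
        (∀ i j, ∀ g ∈ W, (∀ x, γ i (g x) = γ j x) → i = j) by
    intro B _ W hW htr hc
    exact H _ B W hW htr hc rfl
  intro n
  induction n using Nat.strong_induction_on with
  | _ n ih =>
  intro B _ W hW htr hc hn
  obtain ⟨N, hN⟩ := hW
  have hntB : Nontrivial B := Finite.one_lt_card_iff_nontrivial.mp (by omega)
  -- a maximal proper invariant setoid
  have hfinS : Finite (Setoid B) := by
    refine Finite.of_injective (fun r : Setoid B => fun x y => r x y) ?_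
    intro r r' h
    exact Setoid.ext (fun x y => iff_of_eq (congrFun (congrFun h x) y))
  let Q : Set (Setoid B) := {r | (∀ g ∈ W, ∀ x y, r x y → r (g x) (g y)) ∧ r ≠ ⊤}
  have hQ : Q.Nonempty := by
    refine ⟨⊥, ?_, ?_⟩
    · intro g hg x y hxy
      have : x = y := hxy
      rw [this]
    · intro h
      obtain ⟨x, y, hxy⟩ := hntB.exists_pair_ne
      have h' : (⊥ : Setoid B) x y := by rw [h]; trivial
      exact hxy h'
  obtain ⟨r, hr⟩ := (Set.toFinite Q).exists_maximal hQ
  have hinv := hr.prop.1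
  have hneT := hr.prop.2
  obtain ⟨b₀⟩ : Nonempty B := inferInstance
  let f : B → Quotient r := Quotient.mk r
  have hfs : Function.Surjective f := Quotient.exists_rep
  have hf : ∀ g ∈ W, ∀ x y, f x = f y → f (g x) = f (g y) := by
    intro g hg x y h
    exact Quotient.sound (hinv g hg x y (Quotient.exact h))
  let s₀ : Quotient r := f b₀
  -- the top group
  let P : Subgroup (Perm (Quotient r)) :=
    { carrier := {q | ∃ g ∈ W, ∀ x, f (g x) = q (f x)}
      one_mem' := ⟨1, W.one_mem, fun _ => rfl⟩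
      mul_mem' := by
        rintro a b ⟨a', ha', hra⟩ ⟨b', hb', hrb⟩
        refine ⟨a' * b', W.mul_mem ha' hb', fun x => ?_⟩
        rw [Perm.mul_apply, hra, hrb]; rfl
      inv_mem' := by
        rintro a ⟨a', ha', hra⟩
        refine ⟨a'⁻¹, W.inv_mem ha', fun x => ?_⟩
        rw [eq_comm, Perm.inv_eq_iff_eq, ← hra, ← Perm.mul_apply, mul_inv_cancel, Perm.one_apply] }
  have hPs : ds P N = ⊥ := by
    rw [eq_bot_iff]
    intro q hq
    obtain ⟨g, hg, hgq⟩ := relds (fun (q : Perm (Quotient r)) (g : Perm B) => ∀ x, f (g x) = q (f x))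
      (by
        intro a a' b b' ha hb x
        rw [Perm.mul_apply, ha, hb]; rfl)
      (by
        intro a a' ha x
        rw [eq_comm, Perm.inv_eq_iff_eq, ← ha, ← Perm.mul_apply, mul_inv_cancel, Perm.one_apply])
      (fun x => rfl) P W (fun q hq => hq) N q hq
    rw [hN, Subgroup.mem_bot] at hg
    subst hg
    rw [Subgroup.mem_bot]
    ext s
    obtain ⟨x, rfl⟩ := hfs s
    exact (hgq x).symm
  have hPtr : ∀ x y, ∃ g ∈ P, g x = y := by
    intro s t
    obtain ⟨x, rfl⟩ := hfs s
    obtain ⟨y, rfl⟩ := hfs t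
    obtain ⟨g, hg, hgx⟩ := htr x y
    obtain ⟨q, hq⟩ := exists_quot r hinv hg
    refine ⟨q, ⟨g, hg, hq⟩, ?_⟩
    rw [← hgx]
    exact (hq x).symm
  have hprim : ∀ r' : Setoid (Quotient r), (∀ g ∈ P, ∀ x y, r' x y → r' (g x) (g y)) →
      r' = ⊥ ∨ r' = ⊤ := by
    intro r' hr'
    let r2 : Setoid B := r'.comap f
    have hr2 : ∀ x y, r2 x y ↔ r' (f x) (f y) := fun x y => Iff.rfl
    have hle : r ≤ r2 := by
      intro x y hxy
      rw [hr2, show f x = f y from Quotient.sound hxy]
    have hr2inv : ∀ g ∈ W, ∀ x y, r2 x y → r2 (g x) (g y) := by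
      intro g hg x y hxy
      obtain ⟨q, hq⟩ := exists_quot r hinv hg
      rw [hr2] at hxy ⊢
      have := hr' q ⟨g, hg, hq⟩ _ _ hxy
      rwa [← hq, ← hq] at this
    by_cases hT : r2 = ⊤
    · right
      rw [eq_top_iff]
      intro s t _
      obtain ⟨x, rfl⟩ := hfs s
      obtain ⟨y, rfl⟩ := hfs t
      have : r2 x y := by rw [hT]; trivial
      exact this
    · left
      have hle2 : r2 ≤ r := hr.le_of_ge ⟨hr2inv, hT⟩ hle
      rw [eq_bot_iff]
      intro s t hst
      obtain ⟨x, rfl⟩ := hfs s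
      obtain ⟨y, rfl⟩ := hfs t
      exact Quotient.sound (hle2 hst)
  have hntS : Nontrivial (Quotient r) := by
    by_contra hcon
    rw [not_nontrivial_iff_subsingleton] at hcon
    apply hneT
    rw [eq_top_iff]
    intro x y _
    exact Quotient.exact (Subsingleton.elim (f x) (f y))
  obtain ⟨p, d, hp, hd, e, he⟩ := ha (Quotient r) P ⟨N, hPs⟩ hPtr hprim
  have hPaff : ∀ g ∈ W, ∀ q : Perm (Quotient r), (∀ x, f (g x) = q (f x)) →
      IsAff ((e.symm.trans q).trans e) := fun g hg q hq => he q ⟨g, hg, hq⟩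
  -- the block
  obtain ⟨b, hb⟩ : ∃ b, Nat.card {x : B // f x = s₀} = b := ⟨_, rfl⟩
  have hb1 : 1 ≤ b := by
    rw [← hb]
    have : Nonempty {x : B // f x = s₀} := ⟨⟨b₀, rfl⟩⟩
    exact Nat.card_pos
  have hbB : b < Nat.card B := by
    rw [← hb]
    obtain ⟨s, hs⟩ := exists_ne s₀
    obtain ⟨x, rfl⟩ := hfs s
    exact Finite.card_subtype_lt (x := x) hs
  rcases Nat.lt_or_ge b 4 with hb4 | hb4
  · obtain ⟨c, hcc⟩ := small_family b hb
    have hD : ∀ i, ds (cst (W1 W f s₀) (c i)) (b - 1) = ⊥ := by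
      intro i
      exact h1 _ (b - 1) (by omega) (by omega) _
    have hcc' : ∀ i j, ∀ h ∈ W1 W f s₀, (∀ x, c i (h x) = c j x) → i = j :=
      fun i j h _ hh => hcc i j h hh
    have hT : TOP (b + 1) (4 - b) p d := by
      interval_cases b
      · refine h2 p d hd ?_
        have hinj : Function.Injective f := by
          intro x y hxy
          obtain ⟨g, hg, hgx⟩ := htr x b₀
          have h1 : f (g x) = s₀ := by rw [hgx]
          have h2 : f (g y) = s₀ := by rw [← hf g hg x y hxy, h1]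
          have hsub : Subsingleton {x : B // f x = s₀} := by
            rw [← Finite.card_le_one_iff_subsingleton, hb]
          have := Subsingleton.elim (⟨g x, h1⟩ : {x : B // f x = s₀}) ⟨g y, h2⟩
          exact g.injective (congrArg Subtype.val this)
        have hle := Nat.card_le_card_of_injective f hinj
        rw [Nat.card_congr e] at hle
        have hcV : Nat.card (Vp p d) = p ^ d := by
          rw [Nat.card_pi]; simp
        omega
      · exact h3 p d hd
      · exact h4 p d hd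
    exact hs B (Quotient r) W f s₀ htr hfs hf p d (b + 1) (4 - b) (b - 1) e hPaff hT c hD hcc' (by omega)
  · have htr1 : ∀ x y, ∃ g ∈ W1 W f s₀, g x = y := by
      intro x y
      obtain ⟨g, hg, hgx⟩ := htr x.1 y.1
      obtain ⟨h, hh, hgh⟩ := exists_restrict hf s₀ hg x.2 (by rw [hgx]; exact y.2)
      refine ⟨h, hh, Subtype.ext ?_⟩
      rw [← hgh, hgx]
    have hW1s : ds (W1 W f s₀) N = ⊥ := by
      rw [eq_bot_iff]
      intro h hh
      obtain ⟨g, hg, hgh⟩ := relds
        (fun (h : Perm {x : B // f x = s₀}) (g : Perm B) => ∀ x, g x.1 = (h x).1)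
        (by
          intro a a' b b' ha hb x
          rw [Perm.mul_apply, hb, ha]; rfl)
        (by
          intro a a' ha x
          rw [Perm.inv_eq_iff_eq, ha, ← Perm.mul_apply, mul_inv_cancel, Perm.one_apply])
        (fun x => rfl) (W1 W f s₀) W (fun h hh => hh) N h hh
      rw [hN, Subgroup.mem_bot] at hg
      subst hg
      rw [Subgroup.mem_bot]
      ext x
      exact (hgh x).symm
    obtain ⟨c, hc1, hc2⟩ := ih b (by omega) {x : B // f x = s₀} (W1 W f s₀) ⟨N, hW1s⟩ htr1
      (by omega) hb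
    exact hs B (Quotient r) W f s₀ htr hfs hf p d 5 0 3 e hPaff (h5 p d hd) c hc1 hc2 (by omega)

end Pool.Agent.R379.DL
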