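import Pool.Agent.R379.DL.Stm

/-! # Project DL, piece I3: the upper bound for arbitrary solvable permutation groups -/

namespace Pool.Agent.R379.DL

open Equiv

theorem pc_upper (h1 : ST_perm) (h : ST_ind) : ST_upper := by
  intro Ω hΩ G hG
  classical
  obtain ⟨n, hn⟩ := hG
  -- the orbit map
  let r : Setoid Ω :=
    { r := fun x y => ∃ g ∈ G, g x = y
      iseqv := ⟨fun x => ⟨1, G.one_mem, rfl⟩,
        fun {x y} ⟨g, hg, hxy⟩ => ⟨g⁻¹, G.inv_mem hg, by rw [← hxy]; simp⟩,
        fun {x y z} ⟨g, hg, hxy⟩ ⟨g', hg', hyz⟩ => ⟨g' * g, G.mul_mem hg' hg, by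
          rw [Perm.mul_apply, hxy, hyz]⟩⟩ }
  let f : Ω → Quotient r := fun x => Quotient.mk r x
  have hf : ∀ g ∈ G, ∀ x, f (g x) = f x := by
    intro g hg x
    apply Quotient.sound
    exact ⟨g⁻¹, G.inv_mem hg, by simp⟩
  -- the restriction of an element of `G` to an orbit
  have hres : ∀ g ∈ G, ∀ q : Quotient r, ∃ h : Perm {x : Ω // f x = q},
      ∀ x, g x.1 = (h x).1 := by
    intro g hg q
    refine ⟨g.subtypePerm (p := fun x => f x = q) ?_, fun x => rfl⟩
    intro x
    show f (g x) = q ↔ f x = q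
    rw [hf g hg x]
  have hex : ∀ q : Quotient r, ∃ γ : {x : Ω // f x = q} → Bool, ds (cst (W1 G f q) γ) 3 = ⊥ := by
    intro q
    by_cases hc : 4 ≤ Nat.card {x : Ω // f x = q}
    · have hsol : ∃ n, ds (W1 G f q) n = ⊥ := by
        refine ⟨n, ?_⟩
        rw [eq_bot_iff]
        intro k hk
        obtain ⟨g, hg, hgk⟩ := relds
          (R := fun (k : Perm {x : Ω // f x = q}) (g : Perm Ω) => ∀ x, g x.1 = (k x).1)
          (by
            intro a a' b b' ha hb x
            rw [Perm.mul_apply, hb, ha]; rfl)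
          (by
            intro a a' ha x
            rw [Perm.inv_eq_iff_eq, ha]
            simp)
          (fun x => rfl) (W1 G f q) G
          (by
            intro k hk
            exact hk) n k hk
        rw [hn, Subgroup.mem_bot] at hg
        subst hg
        rw [Subgroup.mem_bot]
        ext1 x
        apply Subtype.ext
        rw [← hgk x]
        rfl
      have htr : ∀ x y : {x : Ω // f x = q}, ∃ k ∈ W1 G f q, k x = y := by
        intro x y
        have hxy : f x.1 = f y.1 := x.2.trans y.2.symm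
        obtain ⟨g, hg, hgx⟩ := Quotient.exact hxy
        obtain ⟨k, hk⟩ := hres g hg q
        refine ⟨k, ⟨g, hg, hk⟩, ?_⟩
        apply Subtype.ext
        rw [← hk x, hgx]
      obtain ⟨γ, hγ, -⟩ := h _ (W1 G f q) hsol htr hc
      exact ⟨γ 0, hγ 0⟩
    · exact ⟨fun _ => false, h1 _ 3 le_rfl (by omega) _⟩
  choose γ hγ using hex
  refine ⟨fun x => γ (f x) ⟨x, rfl⟩, ?_⟩
  have hγe : ∀ (q : Quotient r) (z : Ω) (hz : f z = q), γ (f z) ⟨z, rfl⟩ = γ q ⟨z, hz⟩ := by
    rintro _ z rfl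
    rfl
  rw [eq_bot_iff]
  intro g hg
  rw [Subgroup.mem_bot]
  ext1 y
  obtain ⟨k, hk, hgk⟩ := relds
    (R := fun (g : Perm Ω) (k : Perm {x : Ω // f x = f y}) => ∀ x, g x.1 = (k x).1)
    (by
      intro a a' b b' ha hb x
      rw [Perm.mul_apply, hb, ha]; rfl)
    (by
      intro a a' ha x
      rw [Perm.inv_eq_iff_eq, ha]
      simp)
    (fun x => rfl) (cst G (fun x => γ (f x) ⟨x, rfl⟩)) (cst (W1 G f (f y)) (γ (f y)))
    (by
      intro g hg
      obtain ⟨k, hk⟩ := hres g hg.1 (f y)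
      refine ⟨k, ⟨⟨g, hg.1, hk⟩, ?_⟩, hk⟩
      intro x
      have e := hg.2 x.1
      simp only at e
      rw [hγe (f y) x.1 x.2, hγe (f y) (g x.1) (by rw [hf g hg.1]; exact x.2)] at e
      have e2 : k x = ⟨g x.1, by rw [hf g hg.1]; exact x.2⟩ := Subtype.ext (hk x).symm
      rw [e2]
      exact e) 3 g hg
  rw [hγ, Subgroup.mem_bot] at hk
  subst hk
  have := hgk ⟨y, rfl⟩
  simpa using this

end Pool.Agent.R379.DL
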