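import Pool.Agent.R379.DL.Stm

/-!
# Project DL (MP_5a645a_al), piece K0: the path lemma
-/

set_option autoImplicit false

namespace Pool.Agent.R379.DL

open Equiv

namespace K0P

variable {p d : ℕ}

/-- the set `{e_{i+1}, …, e_{d-1}, f_i, …, f_{d-2}}` -/
def SS (p d i : ℕ) (x : Vp p d) : Prop :=
  (∃ j, i + 1 ≤ j ∧ j < d ∧ x = ev p d j) ∨
    (∃ j, i ≤ j ∧ j + 1 < d ∧ x = ev p d j + ev p d (j + 1))

theorem ev_self {i : ℕ} (hi : i < d) : ev p d i ⟨i, hi⟩ = 1 := by simp [ev]

theorem ev_ne {i j : ℕ} (hj : j < d) (h : j ≠ i) : ev p d i ⟨j, hj⟩ = 0 := by simp [ev, h]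

theorem F_coord {i : ℕ} (hi : i < d) : (ev p d i + ev p d (i + 1)) ⟨i, hi⟩ = 1 := by
  rw [Pi.add_apply, ev_self, ev_ne hi (by omega), add_zero]

theorem SS_coord {i : ℕ} {x : Vp p d} (hx : SS p d i x) (hi : i < d) :
    x ⟨i, hi⟩ = 0 ∨ x = ev p d i + ev p d (i + 1) := by
  rcases hx with ⟨j, hj, _, rfl⟩ | ⟨j, hj, _, rfl⟩
  · left
    exact ev_ne hi (by omega)
  · rcases Nat.eq_or_lt_of_le hj with rfl | hlt
    · right; rfl
    · left
      rw [Pi.add_apply, ev_ne hi (by omega), ev_ne hi (by omega), add_zero]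

variable [Fact p.Prime]

theorem one_ne : (1 : ZMod p) ≠ 0 := one_ne_zero

/-- the induction hypothesis -/
def PP (g : Perm (Vp p d)) (i : ℕ) : Prop :=
  (∀ j, j ≤ i → g (ev p d j) = ev p d j) ∧ ∀ x, SS p d i x → SS p d i (g x)

theorem step1 {g : Perm (Vp p d)} (hadd : ∀ x y, g (x + y) = g x + g y) (h0 : g 0 = 0) {i : ℕ}
    (hi : i + 1 < d) (hP : PP g i) :
    g (ev p d (i + 1)) = ev p d (i + 1) ∨
      (i + 2 = d ∧ g (ev p d (i + 1)) = ev p d i + ev p d (i + 1)) := by
  have hid : i < d := by omega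
  have ha : SS p d i (g (ev p d (i + 1))) := hP.2 _ (Or.inl ⟨i + 1, le_rfl, hi, rfl⟩)
  have hb : SS p d i (g (ev p d i + ev p d (i + 1))) := hP.2 _ (Or.inr ⟨i, le_rfl, hi, rfl⟩)
  rw [hadd, hP.1 i le_rfl] at hb
  rcases SS_coord ha hid with ha0 | haF
  · rcases SS_coord hb hid with hb0 | hbF
    · exfalso
      rw [Pi.add_apply, ev_self, ha0, add_zero] at hb0
      exact one_ne hb0
    · left
      exact add_left_cancel hbF
  · right
    refine ⟨?_, haF⟩
    by_contra hne
    have hi2 : i + 2 < d := by omega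
    have hc : SS p d i (g (ev p d (i + 2))) := hP.2 _ (Or.inl ⟨i + 2, by omega, hi2, rfl⟩)
    have ht : SS p d i (g (ev p d (i + 1) + ev p d (i + 1 + 1))) :=
      hP.2 _ (Or.inr ⟨i + 1, by omega, by omega, rfl⟩)
    rw [hadd, haF] at ht
    rcases SS_coord hc hid with hc0 | hcF
    · rcases SS_coord ht hid with ht0 | htF
      · rw [Pi.add_apply, F_coord, hc0, add_zero] at ht0
        exact one_ne ht0
      · have h1 : g (ev p d (i + 2)) = 0 := by
          have := htF
          rwa [add_eq_left] at this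
        rw [← h0] at h1
        have h2 := congrFun (g.injective h1) ⟨i + 2, hi2⟩
        rw [ev_self] at h2
        exact one_ne h2
    · have h1 : g (ev p d (i + 2)) = g (ev p d (i + 1)) := by rw [hcF, haF]
      have h2 := congrFun (g.injective h1) ⟨i + 2, hi2⟩
      rw [ev_self, ev_ne hi2 (by omega)] at h2
      exact one_ne h2

theorem step2 {g : Perm (Vp p d)} (hadd : ∀ x y, g (x + y) = g x + g y) {i : ℕ}
    (hi : i + 1 < d) (hP : PP g i) (h : g (ev p d (i + 1)) = ev p d (i + 1)) : PP g (i + 1) := by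
  have hid : i < d := by omega
  refine ⟨?_, ?_⟩
  · intro j hj
    rcases Nat.eq_or_lt_of_le hj with rfl | hlt
    · exact h
    · exact hP.1 j (by omega)
  · intro x hx
    have hx' : SS p d i x := by
      rcases hx with ⟨j, hj, hjd, hxj⟩ | ⟨j, hj, hjd, hxj⟩
      · exact Or.inl ⟨j, by omega, hjd, hxj⟩
      · exact Or.inr ⟨j, by omega, hjd, hxj⟩
    have hxi : x ⟨i, hid⟩ = 0 := by
      rcases hx with ⟨j, hj, hjd, rfl⟩ | ⟨j, hj, hjd, rfl⟩
      · exact ev_ne hid (by omega)
      · rw [Pi.add_apply, ev_ne hid (by omega), ev_ne hid (by omega), add_zero]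
    have hne1 : x ≠ ev p d (i + 1) := by
      rintro rfl
      rcases hx with ⟨j, hj, hjd, hxj⟩ | ⟨j, hj, hjd, hxj⟩
      · have h2 := congrFun hxj ⟨i + 1, hi⟩
        rw [ev_self, ev_ne hi (by omega)] at h2
        exact one_ne h2
      · have h2 := congrFun hxj ⟨j + 1, hjd⟩
        rw [Pi.add_apply, ev_self, ev_ne hjd (by omega), ev_ne hjd (by omega), zero_add] at h2
        exact one_ne h2.symm
    have hgF : g (ev p d i + ev p d (i + 1)) = ev p d i + ev p d (i + 1) := by
      rw [hadd, hP.1 i le_rfl, h]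
    rcases hP.2 x hx' with ⟨j, hj, hjd, hxj⟩ | ⟨j, hj, hjd, hxj⟩
    · refine Or.inl ⟨j, ?_, hjd, hxj⟩
      by_contra hcon
      have hj' : j = i + 1 := by omega
      subst hj'
      apply hne1
      apply g.injective
      rw [hxj, h]
    · refine Or.inr ⟨j, ?_, hjd, hxj⟩
      by_contra hcon
      have hj' : j = i := by omega
      subst hj'
      have h3 : x = ev p d j + ev p d (j + 1) := by
        apply g.injective
        rw [hxj, hgF]
      rw [h3, F_coord] at hxi
      exact one_ne hxi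

end K0P

open K0P

theorem pc_path : ST_path := by
  intro p d _ hd g hg h0 he hE
  have hadd : ∀ x y, g (x + y) = g x + g y := by
    intro x y
    have := hg x y 0
    rwa [sub_zero, h0, sub_zero] at this
  have hP0 : PP g 0 := by
    refine ⟨?_, ?_⟩
    · intro j hj
      have : j = 0 := by omega
      subst this
      exact he
    · intro x hx
      have h1 : inE p d x ∨ inF p d x := by
        rcases hx with ⟨j, hj, hjd, hxj⟩ | ⟨j, hj, hjd, hxj⟩
        · exact Or.inl ⟨j, by omega, hjd, hxj⟩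
        · exact Or.inr ⟨j, hjd, hxj⟩
      rcases hE x h1 with ⟨j, hj, hjd, hxj⟩ | ⟨j, hjd, hxj⟩
      · exact Or.inl ⟨j, by omega, hjd, hxj⟩
      · exact Or.inr ⟨j, by omega, hjd, hxj⟩
  have hPi : ∀ i, i + 1 < d → PP g i := by
    intro i
    induction i with
    | zero => intro _; exact hP0
    | succ i ih =>
      intro hi
      have hP := ih (by omega)
      rcases step1 hadd h0 (by omega : i + 1 < d) hP with h | ⟨h, _⟩
      · exact step2 hadd (by omega) hP h
      · omega
  refine ⟨fun i hi => (hPi i hi).1 i le_rfl, ?_⟩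
  rcases Nat.lt_or_ge 1 d with h1 | h1
  · obtain ⟨k, rfl⟩ : ∃ k, d = k + 2 := ⟨d - 2, by omega⟩
    have hP := hPi k (by omega)
    rcases step1 hadd h0 (by omega : k + 1 < k + 2) hP with h | ⟨_, h⟩
    · left
      exact h
    · right
      exact ⟨by omega, h⟩
  · have : d = 1 := by omega
    subst this
    left
    exact he

end Pool.Agent.R379.DL
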