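import Pool.Agent.R379.DL.Stm

/-! # Project DL: assembly of the 2-colour statement for affine spaces -/

namespace Pool.Agent.R379.DL

open Equiv

theorem top_of_good {p d : ℕ} (h : Good p d) : TOP 2 3 p d := by
  obtain ⟨D, -, hds, hin, -⟩ := h
  refine ⟨fun i x => if D i x = true then 1 else 0, ?_, ?_⟩
  · intro i
    have : cst (aff (Vp p d)) (fun x => (if D i x = true then 1 else 0 : Fin 2)) =
        cst (aff (Vp p d)) (D i) := by
      ext g
      rw [mem_cst, mem_cst]
      refine and_congr_right fun _ => forall_congr' fun x => ?_
      cases D i (g x) <;> cases D i x <;> simp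
    rw [this]; exact hds i
  · intro i j g hg h
    refine hin i j g hg fun x => ?_
    have := h x
    dsimp only at this
    by_cases h1 : D i (g x) = true <;> by_cases h2 : D j x = true
    · rw [h1, h2]
    · rw [if_pos h1, if_neg h2] at this; exact absurd this (by decide)
    · rw [if_neg h1, if_pos h2] at this; exact absurd this (by decide)
    · rw [Bool.not_eq_true] at h1 h2; rw [h1, h2]

theorem pc_K2 (hX22 : ST_X22) (hX23 : ST_X23) (hX24 : ST_X24) (hX25 : ST_X25)
    (hX32 : ST_X32) (hX33 : ST_X33) (hX52 : ST_X52) (hcg : ST_coneGood)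
    (hlt : ST_lineTop) (hlg : ST_lineGood) : ST_K2 := by
  have up : ∀ (p d₀ : ℕ) [Fact p.Prime], 0 < d₀ → 5 ≤ p ^ d₀ → Good p d₀ →
      ∀ d, d₀ ≤ d → Good p d := by
    intro p d₀ hp h0 h5 hg d hd
    induction d, hd using Nat.le_induction with
    | base => exact hg
    | succ d hd ih =>
      refine hcg p d (by omega) (h5.trans ?_) ih
      exact Nat.pow_le_pow_right hp.out.pos hd
  intro p d hp hd h4
  have hp2 := hp.out.two_le
  rcases Nat.lt_or_ge d 2 with h | h
  · obtain rfl : d = 1 := by omega
    rw [pow_one] at h4
    have : p ≠ 4 := by rintro rfl; exact absurd hp.out (by decide)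
    exact hlt p (by omega)
  · by_cases h7 : 7 ≤ p
    · exact top_of_good (up p 1 (by omega) (by rw [pow_one]; omega) (hlg p h7) d (by omega))
    · have hlt7 : p < 7 := by omega
      interval_cases p
      · -- p = 2
        rcases Nat.lt_or_ge d 5 with h5 | h5
        · interval_cases d
          · exact hX22
          · exact hX23.1
          · exact hX24
        · exact top_of_good (up 2 5 (by norm_num) (by norm_num) hX25 d h5)
      · -- p = 3
        rcases Nat.lt_or_ge d 3 with h5 | h5
        · obtain rfl : d = 2 := by omega
          exact hX32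
        · exact top_of_good (up 3 3 (by norm_num) (by norm_num) hX33 d h5)
      · exact absurd hp.out (by decide)
      · exact top_of_good (up 5 2 (by norm_num) (by norm_num) hX52 d h)
      · exact absurd hp.out (by decide)

end Pool.Agent.R379.DL
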