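import Pool.Agent.R379.DL.K4

/-!
# Project DL (MP_5a645a_al): piece K3, the 3-colourings
-/

set_option autoImplicit false

namespace Pool.Agent.R379.DL

open Equiv Finset

namespace K3
open K4

/-- pairs of colours -/
def ab3 : Fin 5 → Fin 3 × Fin 3 := ![(0, 0), (1, 1), (2, 2), (0, 1), (0, 2)]

theorem ab3_inj : ∀ i j, ((ab3 j).1 = (ab3 i).1 ∨ (ab3 j).1 = (ab3 i).2) →
    ((ab3 j).2 = (ab3 i).1 ∨ (ab3 j).2 = (ab3 i).2) →
    ((ab3 i).1 = (ab3 j).1 ∨ (ab3 i).1 = (ab3 j).2) →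
    ((ab3 i).2 = (ab3 j).1 ∨ (ab3 i).2 = (ab3 j).2) → i = j := by decide

/-- the permutations of the colours -/
def σ3 : Fin 5 → Perm (Fin 3) := ![1, swap 0 1, swap 0 2, swap 1 2, swap 0 1 * swap 1 2]

theorem σ3_inj : ∀ i j, (∀ m, σ3 i m = σ3 j m) → i = j := by decide

/-- three classes of different sizes give five inequivalent colourings -/
theorem five {V : Type} [Fintype V] (κ : V → Fin 3)
    (h01 : (univ.filter (fun x => κ x = 0)).card ≠ (univ.filter (fun x => κ x = 1)).card)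
    (h02 : (univ.filter (fun x => κ x = 0)).card ≠ (univ.filter (fun x => κ x = 2)).card)
    (h12 : (univ.filter (fun x => κ x = 1)).card ≠ (univ.filter (fun x => κ x = 2)).card)
    (g : Perm V) (i j : Fin 5) (hij : ∀ x, σ3 i (κ (g x)) = σ3 j (κ x)) : i = j := by
  have hn := gl κ g (σ3 i) (σ3 j) hij
  have key : ∀ a b : Fin 3, (univ.filter (fun x => κ x = a)).card =
      (univ.filter (fun x => κ x = b)).card → a = b := by
    intro a b h
    fin_cases a <;> fin_cases b
    · rfl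
    · exact absurd h h01
    · exact absurd h h02
    · exact absurd h.symm h01
    · rfl
    · exact absurd h h12
    · exact absurd h.symm h02
    · exact absurd h.symm h12
    · rfl
  apply σ3_inj
  intro m
  have h1 := key _ _ (hn m)
  rw [Perm.mul_apply, Perm.inv_eq_iff_eq] at h1
  exact h1.symm

section
variable {p d : ℕ} [Fact p.Prime]

open Classical in
variable (p d) in
/-- the colouring for large dimension -/
noncomputable def κ3 (x : Vp p d) : Fin 3 :=
  if x = 0 ∨ x = ev p d 0 then 0 else if x ∈ EF p d then 1 else 2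

theorem κ3_eq0 {x : Vp p d} : κ3 p d x = 0 ↔ x = 0 ∨ x = ev p d 0 := by
  unfold κ3
  split_ifs with h1 h2 <;> simp [h1]

theorem κ3_eq1 {x : Vp p d} : κ3 p d x = 1 ↔ x ∈ EF p d := by
  unfold κ3
  split_ifs with h1 h2
  · rcases h1 with h1 | h1
    · simp [h1, zero_notMem_EF]
    · simp [h1, e0_notMem_EF]
  · simp [h2]
  · simp [h2]

theorem m0 (hd : 0 < d) : (univ.filter (fun x => κ3 p d x = 0)).card = 2 := by
  classical
  have h : univ.filter (fun x => κ3 p d x = 0) = {0, ev p d 0} := by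
    ext x
    simp [κ3_eq0]
  rw [h, card_pair (e0_ne_zero hd).symm]

theorem m1 : (univ.filter (fun x => κ3 p d x = 1)).card = 2 * (d - 1) := by
  classical
  have h : univ.filter (fun x => κ3 p d x = 1) = EF p d := by
    ext x
    simp [κ3_eq1]
  rw [h, card_EF]

/-- the two types of elements of the stabiliser -/
theorem types {g : Perm (Vp p d)} (hd : 0 < d) (hg : ∀ x, κ3 p d (g x) = κ3 p d x) :
    (g 0 = 0 ∧ g (ev p d 0) = ev p d 0 ∧ g⁻¹ 0 = 0 ∧ g⁻¹ (ev p d 0) = ev p d 0) ∨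
    (g 0 = ev p d 0 ∧ g (ev p d 0) = 0 ∧ g⁻¹ 0 = ev p d 0 ∧ g⁻¹ (ev p d 0) = 0) := by
  have h1 := κ3_eq0.1 ((hg 0).trans (κ3_eq0.2 (Or.inl rfl)))
  have h2 := κ3_eq0.1 ((hg (ev p d 0)).trans (κ3_eq0.2 (Or.inr rfl)))
  have hne := e0_ne_zero (p := p) hd
  rcases h1 with h1 | h1
  · left
    have h3 : g (ev p d 0) = ev p d 0 := by
      rcases h2 with h2 | h2
      · exact absurd (g.injective (h2.trans h1.symm)) hne
      · exact h2
    exact ⟨h1, h3, Perm.inv_eq_iff_eq.2 h1.symm, Perm.inv_eq_iff_eq.2 h3.symm⟩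
  · right
    have h3 : g (ev p d 0) = 0 := by
      rcases h2 with h2 | h2
      · exact h2
      · exact absurd (g.injective (h2.trans h1.symm)) hne
    exact ⟨h1, h3, Perm.inv_eq_iff_eq.2 h3.symm, Perm.inv_eq_iff_eq.2 h1.symm⟩

theorem ds1_le (hd : 0 < d) :
    ds (cst (aff (Vp p d)) (κ3 p d)) 1 ≤ cst (aff (Vp p d)) (κ4 p d) := by
  rw [ds_succ, ds_zero, Subgroup.commutator_le]
  intro a ha b hb
  rw [commutatorElement_def]
  have hc : a * b * a⁻¹ * b⁻¹ ∈ cst (aff (Vp p d)) (κ3 p d) :=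
    Subgroup.mul_mem _ (Subgroup.mul_mem _ (Subgroup.mul_mem _ ha hb) (Subgroup.inv_mem _ ha))
      (Subgroup.inv_mem _ hb)
  have hfix : (a * b * a⁻¹ * b⁻¹) 0 = 0 ∧ (a * b * a⁻¹ * b⁻¹) (ev p d 0) = ev p d 0 := by
    simp only [Perm.mul_apply]
    rcases types hd ha.2 with ⟨a1, a2, a3, a4⟩ | ⟨a1, a2, a3, a4⟩ <;>
    rcases types hd hb.2 with ⟨b1, b2, b3, b4⟩ | ⟨b1, b2, b3, b4⟩ <;>
    simp only [a1, a2, a3, a4, b1, b2, b3, b4, and_self]
  refine ⟨hc.1, fun x => ?_⟩
  set g := a * b * a⁻¹ * b⁻¹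
  by_cases hx0 : x = 0
  · rw [hx0, hfix.1]
  by_cases hx1 : x = ev p d 0
  · rw [hx1, hfix.2]
  have hg0 : g x ≠ 0 := fun h => hx0 (g.injective (h.trans hfix.1.symm))
  have hg1 : g x ≠ ev p d 0 := fun h => hx1 (g.injective (h.trans hfix.2.symm))
  have h1 : g x ∈ EF p d ↔ x ∈ EF p d := by
    rw [← κ3_eq1, ← κ3_eq1, hc.2 x]
  unfold κ4
  rw [if_neg hx0, if_neg hg0, if_neg hx1, if_neg hg1]
  by_cases hE : x ∈ EF p d
  · rw [if_pos hE, if_pos (h1.2 hE)]
  · rw [if_neg hE, if_neg (fun h => hE (h1.1 h))]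

theorem ds2 (h : ST_path) (hd : 0 < d) : ds (cst (aff (Vp p d)) (κ3 p d)) 2 = ⊥ := by
  have h1 : ds (cst (aff (Vp p d)) (κ3 p d)) 2 =
      ds (ds (cst (aff (Vp p d)) (κ3 p d)) 1) 1 := ds_add _ 1 1
  rw [h1]
  exact ds_eq_bot_mono (ds1_le hd) (ds_one_of_comm fun a ha b hb => comm h hd ha hb)

variable (p d) in
/-- the remaining basis vectors -/
noncomputable def Γ1 : Finset (Vp p d) := univ.image fun i : Fin (d - 2) => ev p d (i + 2)

theorem card_Γ1 : (Γ1 p d).card = d - 2 := by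
  unfold Γ1
  rw [card_image_of_injective, card_univ, Fintype.card_fin]
  intro i j h
  have := ev_inj (by omega) h
  exact Fin.ext (by omega)

theorem mem_Γ1 {x : Vp p d} : x ∈ Γ1 p d ↔ ∃ i, 2 ≤ i ∧ i < d ∧ x = ev p d i := by
  unfold Γ1
  rw [mem_image]
  constructor
  · rintro ⟨i, -, rfl⟩
    exact ⟨i + 2, by omega, by omega, rfl⟩
  · rintro ⟨i, h1, h2, rfl⟩
    refine ⟨⟨i - 2, by omega⟩, mem_univ _, ?_⟩
    show ev p d (i - 2 + 2) = _
    rw [Nat.sub_add_cancel h1]

open Classical in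
variable (p d) in
/-- the colouring in dimensions 2 and 3 -/
noncomputable def κ2 (x : Vp p d) : Fin 3 :=
  if x = 0 ∨ x = ev p d 0 ∨ x = ev p d 1 then 0 else if x ∈ Γ1 p d then 1 else 2

theorem κ2_eq0 {x : Vp p d} : κ2 p d x = 0 ↔ x = 0 ∨ x = ev p d 0 ∨ x = ev p d 1 := by
  unfold κ2
  split_ifs with h1 h2 <;> simp [h1]

theorem κ2_eq1 {x : Vp p d} : κ2 p d x = 1 ↔ x ∈ Γ1 p d := by
  unfold κ2
  split_ifs with h1 h2
  · have h3 : x ∉ Γ1 p d := by
      rw [mem_Γ1]
      rintro ⟨i, hi1, hi2, rfl⟩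
      rcases h1 with h1 | h1 | h1
      · have h4 := congrFun h1 ⟨i, hi2⟩
        rw [ev_self hi2] at h4
        exact one_ne_zero h4
      · have := ev_inj hi2 h1
        omega
      · have := ev_inj hi2 h1
        omega
    simp [h3]
  · simp [h2]
  · simp [h2]

theorem l0 (hd : 2 ≤ d) : (univ.filter (fun x => κ2 p d x = 0)).card = 3 := by
  classical
  have h : univ.filter (fun x => κ2 p d x = 0) = {0, ev p d 0, ev p d 1} := by
    ext x
    simp [κ2_eq0]
  have h0 : ev p d 0 ≠ 0 := e0_ne_zero (by omega)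
  have h1 : ev p d 1 ≠ 0 := by
    intro h
    have h3 := congrFun h ⟨1, by omega⟩
    rw [ev_self (by omega)] at h3
    exact one_ne_zero h3
  have h2 : ev p d 0 ≠ ev p d 1 := by
    intro h
    have := ev_inj (by omega) h
    omega
  rw [h, card_insert_of_notMem, card_pair h2]
  rw [mem_insert, mem_singleton]
  rintro (h | h)
  · exact h0 h.symm
  · exact h1 h.symm

theorem l1 : (univ.filter (fun x => κ2 p d x = 1)).card = d - 2 := by
  classical
  have h : univ.filter (fun x => κ2 p d x = 1) = Γ1 p d := by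
    ext x
    simp [κ2_eq1]
  rw [h, card_Γ1]

theorem ds2' (hp : ST_parts) (hd : 2 ≤ d) (hd3 : d ≤ 3) :
    ds (cst (aff (Vp p d)) (κ2 p d)) 2 = ⊥ := by
  classical
  refine hp (Vp p d) (Fin 3) _ {x | κ2 p d x ≠ 2} (κ2 p d) 2 (by norm_num) ?_ ?_ ?_
  · intro g hg x hx
    have h1 := hg.2 x
    refine ⟨?_, h1⟩
    show κ2 p d (g x) ≠ 2
    rw [h1]
    exact hx
  · intro q
    refine ⟨Set.toFinite _, ?_⟩
    have hsub : {x | x ∈ {x | κ2 p d x ≠ 2} ∧ κ2 p d x = q} ⊆
        ((univ.filter (fun x => κ2 p d x = q) : Finset (Vp p d)) : Set (Vp p d)) := by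
      intro x hx
      simp [hx.2]
    have hle := (Set.ncard_le_ncard hsub).trans (Set.ncard_coe_finset _).le
    fin_cases q
    · have h0 := l0 (p := p) hd
      exact hle.trans (h0.le)
    · have h1 := l1 (p := p) (d := d)
      refine hle.trans ?_
      have : (univ.filter (fun x => κ2 p d x = 1)).card ≤ 2 + 1 := by omega
      exact this
    · have hem : {x | x ∈ {x | κ2 p d x ≠ 2} ∧ κ2 p d x = 2} = ∅ := by
        ext x
        simp
      show {x | x ∈ {x | κ2 p d x ≠ 2} ∧ κ2 p d x = 2}.ncard ≤ 2 + 1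
      rw [hem, Set.ncard_empty]
      omega
  · intro g hg hfix
    have h0 : g 0 = 0 := hfix 0 (by
      show κ2 p d 0 ≠ 2
      rw [κ2_eq0.2 (Or.inl rfl)]
      decide)
    refine ext_aff hg.1 (aff (Vp p d)).one_mem h0 rfl fun i hi => ?_
    rw [Perm.one_apply]
    apply hfix
    show κ2 p d (ev p d i) ≠ 2
    rcases Nat.lt_or_ge i 2 with h2 | h2
    · have : κ2 p d (ev p d i) = 0 := by
        rw [κ2_eq0]
        interval_cases i
        · exact Or.inr (Or.inl rfl)
        · exact Or.inr (Or.inr rfl)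
      rw [this]
      decide
    · have : κ2 p d (ev p d i) = 1 := κ2_eq1.2 (mem_Γ1.2 ⟨i, h2, hi, rfl⟩)
      rw [this]
      decide

end

theorem four_le (d : ℕ) (hd : 4 ≤ d) : 4 * d ≤ 2 ^ d := by
  induction d, hd using Nat.le_induction with
  | base => norm_num
  | succ n hn ih => rw [pow_succ]; omega

end K3

open K4 K3 in
theorem pc_K3 (h : ST_path) (hp : ST_parts) (hl : ST_line) : ST_K3 := by
  classical
  intro p d _ hd
  have hp2 := (Fact.out : p.Prime).two_le
  rcases Nat.lt_or_ge d 2 with hd2 | hd2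
  · have hd1 : d = 1 := by omega
    subst hd1
    refine ⟨fun i x => if x = 0 then (ab3 i).1 else (ab3 i).2, fun i => ?_, ?_⟩
    · refine ds_eq_bot_mono ?_ (hl p)
      intro g hg
      exact hg.1
    · intro i j g _ hij
      have h0 : ev p 1 0 ≠ 0 := e0_ne_zero one_pos
      have hval : ∀ (l : Fin 5) (y : Vp p 1), (if y = 0 then (ab3 l).1 else (ab3 l).2) = (ab3 l).1 ∨
          (if y = 0 then (ab3 l).1 else (ab3 l).2) = (ab3 l).2 := by
        intro l y
        split_ifs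
        · exact Or.inl rfl
        · exact Or.inr rfl
      have hij' : ∀ x : Vp p 1, (if g x = 0 then (ab3 i).1 else (ab3 i).2) =
          if x = 0 then (ab3 j).1 else (ab3 j).2 := hij
      apply ab3_inj i j
      · have h1 := hij' 0
        rw [if_pos rfl] at h1
        rw [← h1]
        exact hval i _
      · have h1 := hij' (ev p 1 0)
        rw [if_neg h0] at h1
        rw [← h1]
        exact hval i _
      · have h1 := hij' (g⁻¹ 0)
        have h2 : g (g⁻¹ 0) = 0 := g.apply_symm_apply 0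
        rw [if_pos h2] at h1
        rw [h1]
        exact hval j _
      · have h1 := hij' (g⁻¹ (ev p 1 0))
        have h2 : g (g⁻¹ (ev p 1 0)) = ev p 1 0 := g.apply_symm_apply _
        rw [h2, if_neg h0] at h1
        rw [h1]
        exact hval j _
  rcases Nat.lt_or_ge d 4 with hd4 | hd4
  · refine ⟨fun i x => σ3 i (κ2 p d x), fun i => ?_, ?_⟩
    · exact ds_eq_bot_mono (cst_perm _ _ _) (ds2' hp hd2 (by omega))
    · intro i j g _ hij
      have hsum := sum_card (κ2 p d)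
      rw [Fin.sum_univ_three, card_Vp, l0 hd2, l1] at hsum
      have hq : p ^ d ≠ d + 4 ∧ p ^ d ≠ 2 * d - 1 := by
        rcases hp2.lt_or_eq with h2 | h2
        · have h3 : 3 ^ d ≤ p ^ d := Nat.pow_le_pow_left h2 d
          have h4 := three_pow d hd2
          omega
        · rw [← h2]
          interval_cases d <;> norm_num
      refine five (κ2 p d) ?_ ?_ ?_ g i j hij
      · rw [l0 hd2, l1]; omega
      · rw [l0 hd2]; omega
      · rw [l1]; omega
  · refine ⟨fun i x => σ3 i (κ3 p d x), fun i => ?_, ?_⟩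
    · exact ds_eq_bot_mono (cst_perm _ _ _) (ds2 h hd)
    · intro i j g _ hij
      have hsum := sum_card (κ3 p d)
      rw [Fin.sum_univ_three, card_Vp, m0 hd, m1] at hsum
      have hq : 4 * d ≤ p ^ d := (four_le d hd4).trans (Nat.pow_le_pow_left hp2 d)
      refine five (κ3 p d) ?_ ?_ ?_ g i j hij
      · rw [m0 hd, m1]; omega
      · rw [m0 hd]; omega
      · rw [m1]; omega

end Pool.Agent.R379.DL
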