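import Pool.Agent.R379.DL.Stm

/-!
# Project DL (MP_5a645a_al): piece K4, the 4-colourings
-/

set_option autoImplicit false

namespace Pool.Agent.R379.DL

open Equiv Finset

namespace K4

theorem add_of_aff {V : Type*} [AddCommGroup V] {g : Perm V} (hg : IsAff g) (h0 : g 0 = 0)
    (x y : V) : g (x + y) = g x + g y := by
  have := hg x y 0
  simpa [h0] using this

/-- generic counting lemma -/
theorem gl {V : Type*} [Fintype V] {k : ℕ} (κ : V → Fin k) (g : Perm V) (σ τ : Perm (Fin k))
    (h : ∀ x, σ (κ (g x)) = τ (κ x)) (m : Fin k) :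
    (univ.filter (fun x => κ x = (σ⁻¹ * τ) m)).card = (univ.filter (fun x => κ x = m)).card := by
  symm
  refine Finset.card_equiv g fun x => ?_
  rw [mem_filter, mem_filter]
  simp only [mem_univ, true_and]
  have h1 : κ (g x) = (σ⁻¹ * τ) (κ x) := by
    rw [Perm.mul_apply, ← h x, Perm.eq_inv_iff_eq]
  rw [h1]
  exact (Equiv.apply_eq_iff_eq _).symm

theorem sum_card {V : Type*} [Fintype V] {k : ℕ} (κ : V → Fin k) :
    ∑ m, (univ.filter (fun x => κ x = m)).card = Fintype.card V := by
  classical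
  rw [← Finset.card_univ]
  exact (Finset.card_eq_sum_card_fiberwise (f := κ) (s := univ) (t := univ)
    (fun x _ => mem_univ _)).symm

theorem card_Vp (p d : ℕ) [Fact p.Prime] : Fintype.card (Vp p d) = p ^ d := by
  rw [Fintype.card_fun, ZMod.card, Fintype.card_fin]

theorem cst_perm {Ω κ : Type*} (H : Subgroup (Perm Ω)) (c : Ω → κ) (σ : Perm κ) :
    cst H (fun x => σ (c x)) ≤ cst H c := by
  rintro g ⟨h1, h2⟩
  exact ⟨h1, fun x => σ.injective (h2 x)⟩

theorem ds_one_of_comm {G : Type*} [Group G] {H : Subgroup G}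
    (h : ∀ a ∈ H, ∀ b ∈ H, a * b = b * a) : ds H 1 = ⊥ := by
  rw [ds_succ, ds_zero, eq_bot_iff, Subgroup.commutator_le]
  intro a ha b hb
  rw [Subgroup.mem_bot, commutatorElement_eq_one_iff_mul_comm]
  exact h a ha b hb

section
variable {p d : ℕ} [Fact p.Prime]

theorem ev_self {i : ℕ} (h : i < d) : ev p d i ⟨i, h⟩ = 1 := by simp [ev]

theorem ev_ne {i j : ℕ} (h : j < d) (hij : j ≠ i) : ev p d i ⟨j, h⟩ = 0 := by simp [ev, hij]

theorem ev_eq_single (i : Fin d) : ev p d i = Pi.single i 1 := by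
  funext j
  simp [ev, Pi.single_apply, Fin.ext_iff]

/-- the linear map of an affine permutation fixing the origin -/
noncomputable def lin (g : Perm (Vp p d)) (hg : IsAff g) (h0 : g 0 = 0) :
    Vp p d →ₗ[ZMod p] Vp p d :=
  AddMonoidHom.toZModLinearMap p (AddMonoidHom.mk' g (add_of_aff hg h0))

theorem lin_apply (g : Perm (Vp p d)) (hg : IsAff g) (h0 : g 0 = 0) (x : Vp p d) :
    lin g hg h0 x = g x := rfl

theorem ext_aff {g g' : Perm (Vp p d)} (hg : IsAff g) (hg' : IsAff g') (h0 : g 0 = 0)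
    (h0' : g' 0 = 0) (h : ∀ i < d, g (ev p d i) = g' (ev p d i)) : g = g' := by
  have h1 : lin g hg h0 = lin g' hg' h0' := by
    apply (Pi.basisFun (ZMod p) (Fin d)).ext
    intro i
    rw [Pi.basisFun_apply, ← ev_eq_single]
    exact h i i.2
  apply Equiv.ext
  intro x
  exact DFunLike.congr_fun h1 x

variable (p d) in
/-- the path set -/
noncomputable def EF : Finset (Vp p d) :=
  (univ.image fun i : Fin (d - 1) => ev p d (i + 1)) ∪
    (univ.image fun i : Fin (d - 1) => ev p d i + ev p d (i + 1))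

theorem mem_EF {x : Vp p d} : x ∈ EF p d ↔ (inE p d x ∨ inF p d x) := by
  unfold EF
  rw [mem_union, mem_image, mem_image]
  constructor
  · rintro (⟨i, -, rfl⟩ | ⟨i, -, rfl⟩)
    · exact Or.inl ⟨i + 1, by omega, by omega, rfl⟩
    · exact Or.inr ⟨i, by omega, rfl⟩
  · rintro (⟨i, h1, h2, rfl⟩ | ⟨i, h1, rfl⟩)
    · refine Or.inl ⟨⟨i - 1, by omega⟩, mem_univ _, ?_⟩
      show ev p d (i - 1 + 1) = _
      rw [Nat.sub_add_cancel h1]
    · exact Or.inr ⟨⟨i, by omega⟩, mem_univ _, rfl⟩

theorem zero_notMem_EF : (0 : Vp p d) ∉ EF p d := by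
  rw [mem_EF]
  rintro (⟨i, h1, h2, h⟩ | ⟨i, h1, h⟩)
  · have h3 := congrFun h ⟨i, h2⟩
    rw [ev_self h2] at h3
    exact zero_ne_one h3
  · have h3 := congrFun h ⟨i, by omega⟩
    rw [Pi.add_apply, ev_self (by omega), ev_ne (by omega) (by omega), add_zero] at h3
    exact zero_ne_one h3

theorem e0_notMem_EF : ev p d 0 ∉ EF p d := by
  rw [mem_EF]
  rintro (⟨i, h1, h2, h⟩ | ⟨i, h1, h⟩)
  · have h3 := congrFun h ⟨i, h2⟩
    rw [ev_self h2, ev_ne h2 (by omega)] at h3
    exact zero_ne_one h3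
  · have h3 := congrFun h ⟨i + 1, h1⟩
    rw [Pi.add_apply, ev_self h1, ev_ne h1 (by omega), ev_ne h1 (by omega), zero_add] at h3
    exact zero_ne_one h3

theorem e0_ne_zero (hd : 0 < d) : ev p d 0 ≠ 0 := by
  intro h
  have h3 := congrFun h ⟨0, hd⟩
  rw [ev_self hd] at h3
  exact one_ne_zero h3

theorem ev_inj {i j : ℕ} (hi : i < d) (h : ev p d i = ev p d j) : i = j := by
  by_contra hne
  have h3 := congrFun h ⟨i, hi⟩
  rw [ev_self hi, ev_ne hi hne] at h3
  exact one_ne_zero h3

theorem card_EF : (EF p d).card = 2 * (d - 1) := by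
  unfold EF
  rw [card_union_of_disjoint, card_image_of_injective, card_image_of_injective, card_univ,
    Fintype.card_fin]
  · ring
  · have key : ∀ i j : Fin (d - 1), (i : ℕ) < j →
        ev p d i + ev p d (i + 1) ≠ ev p d j + ev p d (j + 1) := by
      intro i j hij h
      have hi : (i : ℕ) < d := by omega
      have h3 := congrFun h ⟨i, hi⟩
      rw [Pi.add_apply, Pi.add_apply, ev_self hi, ev_ne hi (by omega), ev_ne hi (by omega),
        ev_ne hi (by omega), add_zero, add_zero] at h3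
      exact one_ne_zero h3
    intro i j h
    rcases lt_trichotomy (i : ℕ) j with h1 | h1 | h1
    · exact absurd h (key i j h1)
    · exact Fin.ext h1
    · exact absurd h.symm (key j i h1)
  · intro i j h
    have := ev_inj (by omega) h
    exact Fin.ext (by omega)
  · rw [disjoint_left]
    intro x hx hx'
    obtain ⟨i, -, rfl⟩ := mem_image.1 hx
    obtain ⟨j, -, h⟩ := mem_image.1 hx'
    have hj : (j : ℕ) < d := by omega
    have hj1 : (j : ℕ) + 1 < d := by omega
    by_cases hij : (j : ℕ) = i + 1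
    · have h3 := congrFun h ⟨j + 1, hj1⟩
      rw [Pi.add_apply, ev_self hj1, ev_ne hj1 (by omega), ev_ne hj1 (by omega), zero_add] at h3
      exact one_ne_zero h3
    · have h3 := congrFun h ⟨j, hj⟩
      rw [Pi.add_apply, ev_self hj, ev_ne hj (by omega), ev_ne hj hij, add_zero] at h3
      exact one_ne_zero h3

open Classical in
variable (p d) in
/-- the colouring -/
noncomputable def κ4 (x : Vp p d) : Fin 4 :=
  if x = 0 then 0 else if x = ev p d 0 then 1 else if x ∈ EF p d then 2 else 3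

theorem κ4_eq0 {x : Vp p d} : κ4 p d x = 0 ↔ x = 0 := by
  unfold κ4
  split_ifs with h1 h2 h3 <;> simp [h1]

theorem κ4_eq1 (hd : 0 < d) {x : Vp p d} : κ4 p d x = 1 ↔ x = ev p d 0 := by
  unfold κ4
  split_ifs with h1 h2 h3
  · simp [h1, (e0_ne_zero hd).symm]
  · simp [h2]
  · simp [h2]
  · simp [h2]

theorem κ4_eq2 {x : Vp p d} : κ4 p d x = 2 ↔ x ∈ EF p d := by
  unfold κ4
  split_ifs with h1 h2 h3
  · simp [h1, zero_notMem_EF]
  · simp [h2, e0_notMem_EF]
  · simp [h3]
  · simp [h3]

/-- the action of the stabiliser on the basis -/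
theorem stab (h : ST_path) (hd : 0 < d) {g : Perm (Vp p d)} (hg : g ∈ cst (aff (Vp p d)) (κ4 p d)) :
    g 0 = 0 ∧ (∀ i, i + 1 < d → g (ev p d i) = ev p d i) ∧
  (g (ev p d (d - 1)) = ev p d (d - 1) ∨
    (2 ≤ d ∧ g (ev p d (d - 1)) = ev p d (d - 2) + ev p d (d - 1))) := by
  obtain ⟨h1, h2⟩ := hg
  have h0 : g 0 = 0 := by
    have := h2 0
    rw [κ4_eq0.2 rfl] at this
    exact κ4_eq0.1 this
  have h3 : g (ev p d 0) = ev p d 0 := by
    have := h2 (ev p d 0)
    rw [(κ4_eq1 hd).2 rfl] at this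
    exact (κ4_eq1 hd).1 this
  refine ⟨h0, h p d hd g h1 h0 h3 fun x hx => ?_⟩
  rw [← mem_EF] at hx ⊢
  have := h2 x
  rw [κ4_eq2.2 hx] at this
  exact κ4_eq2.1 this

theorem comm (h : ST_path) (hd : 0 < d) {g g' : Perm (Vp p d)}
    (hg : g ∈ cst (aff (Vp p d)) (κ4 p d)) (hg' : g' ∈ cst (aff (Vp p d)) (κ4 p d)) :
    g * g' = g' * g := by
  obtain ⟨h0, h1, h2⟩ := stab h hd hg
  obtain ⟨h0', h1', h2'⟩ := stab h hd hg'
  have ha : IsAff g := hg.1
  have ha' : IsAff g' := hg'.1
  refine ext_aff (mul_mem hg.1 hg'.1) (mul_mem hg'.1 hg.1) ?_ ?_ fun i hi => ?_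
  · rw [Perm.mul_apply, h0', h0]
  · rw [Perm.mul_apply, h0, h0']
  · rw [Perm.mul_apply, Perm.mul_apply]
    by_cases hi1 : i + 1 < d
    · rw [h1' i hi1, h1 i hi1, h1' i hi1]
    · have hid : i = d - 1 := by omega
      rw [hid]
      rcases h2 with h2 | ⟨hd2, h2⟩
      · rcases h2' with h2' | ⟨hd2, h2'⟩
        · rw [h2', h2, h2']
        · rw [h2', h2, add_of_aff ha h0, h1 (d - 2) (by omega), h2, h2']
      · rcases h2' with h2' | ⟨_, h2'⟩
        · rw [h2', h2, add_of_aff ha' h0', h1' (d - 2) (by omega), h2']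
        · rw [h2', h2, add_of_aff ha h0, add_of_aff ha' h0', h1' (d - 2) (by omega),
            h1 (d - 2) (by omega), h2, h2']

theorem n0 : (univ.filter (fun x => κ4 p d x = 0)).card = 1 := by
  classical
  have h : univ.filter (fun x => κ4 p d x = 0) = {0} := by
    ext x
    simp [κ4_eq0]
  rw [h, card_singleton]

theorem n1 (hd : 0 < d) : (univ.filter (fun x => κ4 p d x = 1)).card = 1 := by
  classical
  have h : univ.filter (fun x => κ4 p d x = 1) = {ev p d 0} := by
    ext x
    simp [κ4_eq1 hd]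
  rw [h, card_singleton]

theorem n2 : (univ.filter (fun x => κ4 p d x = 2)).card = 2 * (d - 1) := by
  classical
  have h : univ.filter (fun x => κ4 p d x = 2) = EF p d := by
    ext x
    simp [κ4_eq2]
  rw [h, card_EF]

end

theorem three_pow (d : ℕ) (hd : 2 ≤ d) : 4 * d + 1 ≤ 3 ^ d := by
  induction d, hd using Nat.le_induction with
  | base => norm_num
  | succ n hn ih => rw [pow_succ]; omega

theorem size_facts {p d : ℕ} [Fact p.Prime] (hd : 2 ≤ d) :
    p ^ d ≠ 2 * d + 1 ∧ p ^ d ≠ 4 * d - 2 := by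
  have hp := (Fact.out : p.Prime).two_le
  rcases hp.lt_or_eq with h | h
  · have h1 : 3 ^ d ≤ p ^ d := Nat.pow_le_pow_left h d
    have h2 := three_pow d hd
    omega
  · rw [← h]
    obtain ⟨e, rfl⟩ := Nat.exists_eq_add_of_le hd
    rw [pow_add]
    omega

theorem comm1 {p : ℕ} [Fact p.Prime] {g g' : Perm (Vp p 1)} (ha : IsAff g) (ha' : IsAff g')
    (h0 : g 0 = 0) (h0' : g' 0 = 0) : g * g' = g' * g := by
  have hx : ∀ x : Vp p 1, x = x 0 • ev p 1 0 := by
    intro x
    funext j
    have hj : j = 0 := Subsingleton.elim _ _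
    subst hj
    simp [ev]
  refine ext_aff ((aff (Vp p 1)).mul_mem ha ha') ((aff (Vp p 1)).mul_mem ha' ha)
    ?_ ?_ fun i hi => ?_
  · rw [Perm.mul_apply, h0', h0]
  · rw [Perm.mul_apply, h0, h0']
  · have hi0 : i = 0 := by omega
    subst hi0
    rw [Perm.mul_apply, Perm.mul_apply]
    obtain ⟨c, h1⟩ : ∃ c : ZMod p, g (ev p 1 0) = c • ev p 1 0 := ⟨_, hx _⟩
    obtain ⟨c', h2⟩ : ∃ c : ZMod p, g' (ev p 1 0) = c • ev p 1 0 := ⟨_, hx _⟩
    have hs : ∀ (c : ZMod p) (x : Vp p 1), g (c • x) = c • g x :=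
      fun c x => (lin g ha h0).map_smul c x
    have hs' : ∀ (c : ZMod p) (x : Vp p 1), g' (c • x) = c • g' x :=
      fun c x => (lin g' ha' h0').map_smul c x
    rw [h2, hs, h1, hs', h2, smul_smul, smul_smul, mul_comm]

/-- the permutations of the colours -/
def σ4 : Fin 5 → Perm (Fin 4) := ![1, swap 2 3, swap 0 2, swap 0 3, swap 1 2]

theorem σ4_inj : ∀ i j, σ4 i 2 = σ4 j 2 → σ4 i 3 = σ4 j 3 → i = j := by decide

/-- pairs of colours -/
def ab : Fin 5 → Fin 4 × Fin 4 := ![(0, 1), (0, 2), (0, 3), (1, 2), (1, 3)]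

theorem ab_ne : ∀ i, (ab i).1 ≠ (ab i).2 := by decide

theorem ab_inj : ∀ i j, ((ab j).1 = (ab i).1 ∨ (ab j).1 = (ab i).2) →
    ((ab j).2 = (ab i).1 ∨ (ab j).2 = (ab i).2) → i = j := by decide

end K4

open K4 in
theorem pc_K4 (h : ST_path) : ST_K4 := by
  classical
  intro p d _ hd
  rcases Nat.lt_or_ge d 2 with hd2 | hd2
  · have hd1 : d = 1 := by omega
    subst hd1
    refine ⟨fun i x => if x = 0 then (ab i).1 else (ab i).2, fun i => ?_, ?_⟩
    · have hfix : ∀ g ∈ cst (aff (Vp p 1)) (fun x => if x = 0 then (ab i).1 else (ab i).2),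
          g 0 = 0 := by
        rintro g ⟨-, hg⟩
        have h1 : (if g 0 = 0 then (ab i).1 else (ab i).2) =
          if (0 : Vp p 1) = 0 then (ab i).1 else (ab i).2 := hg 0
        rw [if_pos rfl] at h1
        by_contra hne
        rw [if_neg hne] at h1
        exact ab_ne i h1.symm
      exact ds_one_of_comm fun a ha b hb => comm1 ha.1 hb.1 (hfix a ha) (hfix b hb)
    · intro i j g _ hij
      have h1 := hij 0
      have h2 := hij (ev p 1 0)
      simp only [if_true, if_neg (e0_ne_zero (p := p) one_pos)] at h1 h2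
      apply ab_inj i j
      · rw [← h1]
        split_ifs
        · exact Or.inl rfl
        · exact Or.inr rfl
      · rw [← h2]
        split_ifs
        · exact Or.inl rfl
        · exact Or.inr rfl
  · refine ⟨fun i x => σ4 i (κ4 p d x), fun i => ?_, ?_⟩
    · exact ds_eq_bot_mono (cst_perm _ _ _) (ds_one_of_comm fun a ha b hb => comm h hd ha hb)
    · intro i j g _ hij
      have hn := gl (κ4 p d) g (σ4 i) (σ4 j) hij
      have hsum := sum_card (κ4 p d)
      rw [Fin.sum_univ_four, card_Vp, n0, n1 hd, n2] at hsum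
      obtain ⟨f1, f2⟩ := size_facts (p := p) hd2
      have k2 : ∀ c : Fin 4, (univ.filter (fun x => κ4 p d x = c)).card = 2 * (d - 1) → c = 2 := by
        intro c hc
        fin_cases c
        · have : (univ.filter (fun x => κ4 p d x = 0)).card = 2 * (d - 1) := hc
          rw [n0] at this
          omega
        · have : (univ.filter (fun x => κ4 p d x = 1)).card = 2 * (d - 1) := hc
          rw [n1 hd] at this
          omega
        · rfl
        · have : (univ.filter (fun x => κ4 p d x = 3)).card = 2 * (d - 1) := hc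
          omega
      have k3 : ∀ c : Fin 4, (univ.filter (fun x => κ4 p d x = c)).card =
          (univ.filter (fun x => κ4 p d x = 3)).card → c = 3 := by
        intro c hc
        fin_cases c
        · have : (univ.filter (fun x => κ4 p d x = 0)).card =
            (univ.filter (fun x => κ4 p d x = 3)).card := hc
          rw [n0] at this
          omega
        · have : (univ.filter (fun x => κ4 p d x = 1)).card =
            (univ.filter (fun x => κ4 p d x = 3)).card := hc
          rw [n1 hd] at this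
          omega
        · have : (univ.filter (fun x => κ4 p d x = 2)).card =
            (univ.filter (fun x => κ4 p d x = 3)).card := hc
          rw [n2] at this
          omega
        · rfl
      have t2 : ((σ4 i)⁻¹ * σ4 j) 2 = 2 := k2 _ (by rw [hn 2, n2])
      have t3 : ((σ4 i)⁻¹ * σ4 j) 3 = 3 := k3 _ (hn 3)
      rw [Perm.mul_apply, Perm.inv_eq_iff_eq] at t2 t3
      exact σ4_inj i j t2.symm t3.symm

end Pool.Agent.R379.DL
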