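import Pool.Agent.R379.DL.Stm

/-! Project DL, piece K5 (helper91): five 5-colourings with trivial affine stabiliser. -/

set_option autoImplicit false

namespace Pool.Agent.R379.DL

open Equiv

namespace K5

variable {p d : ℕ}

lemma ev_self [Fact p.Prime] {i : ℕ} (hi : i < d) : ev p d i ⟨i, hi⟩ = 1 := by simp [ev]

lemma ev_ne {i : ℕ} {j : Fin d} (h : (j : ℕ) ≠ i) : ev p d i j = 0 := by simp [ev, h]

lemma one_ne [hp : Fact p.Prime] : (1 : ZMod p) ≠ 0 := one_ne_zero

lemma ev_ne_zero [Fact p.Prime] {i : ℕ} (hi : i < d) : ev p d i ≠ 0 := by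
  intro h
  have := congrFun h ⟨i, hi⟩
  rw [ev_self hi] at this
  exact one_ne this

lemma ev_inj [Fact p.Prime] {i j : ℕ} (hi : i < d) (h : ev p d i = ev p d j) : i = j := by
  by_contra hne
  have := congrFun h ⟨i, hi⟩
  rw [ev_self hi, ev_ne (by simpa using hne)] at this
  exact one_ne this

lemma f_ne_zero [Fact p.Prime] {i : ℕ} (hi : i + 1 < d) : ev p d i + ev p d (i + 1) ≠ 0 := by
  intro h
  have := congrFun h ⟨i, by omega⟩
  rw [Pi.add_apply, ev_self (by omega), ev_ne (by simp), add_zero] at this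
  exact one_ne this

lemma f_ne_ev [Fact p.Prime] {i j : ℕ} (hi : i + 1 < d) : ev p d i + ev p d (i + 1) ≠ ev p d j := by
  intro h
  by_cases hij : i = j
  · have := congrFun h ⟨i + 1, hi⟩
    rw [Pi.add_apply, ev_self hi, ev_ne (by simp), ev_ne (by simp; omega), zero_add] at this
    exact one_ne this
  · have := congrFun h ⟨i, by omega⟩
    rw [Pi.add_apply, ev_self (by omega), ev_ne (by simp), ev_ne (by simpa using hij), add_zero] at this
    exact one_ne this

lemma inE_iff_ne0 [Fact p.Prime] {x : Vp p d} (h : inE p d x) : x ≠ 0 ∧ x ≠ ev p d 0 := by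
  obtain ⟨i, h1, h2, rfl⟩ := h
  exact ⟨ev_ne_zero h2, fun h' => by have := ev_inj h2 h'; omega⟩

lemma inF_ne [Fact p.Prime] {x : Vp p d} (h : inF p d x) : x ≠ 0 ∧ x ≠ ev p d 0 ∧ ¬ inE p d x := by
  obtain ⟨i, h1, rfl⟩ := h
  refine ⟨f_ne_zero h1, f_ne_ev h1, ?_⟩
  rintro ⟨j, -, -, h'⟩
  exact f_ne_ev h1 h'

open Classical in
/-- the colouring -/
noncomputable def kap (p d : ℕ) (x : Vp p d) : Fin 5 :=
  if x = 0 then 0 else if x = ev p d 0 then 1 else if inE p d x then 2 else if inF p d x then 3 else 4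

lemma kap_zero (x : Vp p d) : kap p d x = 0 ↔ x = 0 := by
  unfold kap
  split_ifs with h1 h2 h3 h4 <;> simp_all

lemma kap_one [Fact p.Prime] (hd : 0 < d) (x : Vp p d) : kap p d x = 1 ↔ x = ev p d 0 := by
  unfold kap
  split_ifs with h1 h2 h3 h4
  · subst h1
    simp only [Fin.isValue, zero_ne_one, false_iff]
    exact fun h => ev_ne_zero hd h.symm
  all_goals simp_all

lemma kap_two [Fact p.Prime] (x : Vp p d) : kap p d x = 2 ↔ inE p d x := by
  unfold kap
  split_ifs with h1 h2 h3 h4
  · simp only [Fin.isValue, show (0 : Fin 5) ≠ 2 by decide, false_iff]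
    exact fun h => (inE_iff_ne0 h).1 h1
  · simp only [Fin.isValue, show (1 : Fin 5) ≠ 2 by decide, false_iff]
    exact fun h => (inE_iff_ne0 h).2 h2
  · simp [h3]
  · simp [h3]
  · simp [h3]

lemma kap_three [Fact p.Prime] (x : Vp p d) : kap p d x = 3 ↔ inF p d x := by
  unfold kap
  split_ifs with h1 h2 h3 h4
  · simp only [Fin.isValue, show (0 : Fin 5) ≠ 3 by decide, false_iff]
    exact fun h => (inF_ne h).1 h1
  · simp only [Fin.isValue, show (1 : Fin 5) ≠ 3 by decide, false_iff]
    exact fun h => (inF_ne h).2.1 h2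
  · simp only [Fin.isValue, show (2 : Fin 5) ≠ 3 by decide, false_iff]
    exact fun h => (inF_ne h).2.2 h3
  · simp [h4]
  · simp [h4]

/-- an additive permutation fixing the basis is trivial -/
lemma eq_one [Fact p.Prime] {g : Perm (Vp p d)} (hg : IsAff g) (h0 : g 0 = 0)
    (h : ∀ i, i < d → g (ev p d i) = ev p d i) : g = 1 := by
  have hadd : ∀ x y, g (x + y) = g x + g y := by
    intro x y
    have := hg x y 0
    rwa [sub_zero, h0, sub_zero] at this
  let G : Vp p d →+ Vp p d := ⟨⟨g, h0⟩, hadd⟩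
  have : G = AddMonoidHom.id _ := by
    refine AddMonoidHom.functions_ext _ _ _ fun i x => ?_
    have h1 : (Pi.single i x : Vp p d) = x.val • ev p d i := by
      funext j
      by_cases hj : j = i
      · subst hj
        simp [ev]
      · have : (j : ℕ) ≠ i := fun h' => hj (Fin.ext h')
        simp [ev, hj, this]
    rw [h1, map_nsmul, map_nsmul]
    congr 1
    exact h i i.2
  ext1 x
  exact congrFun (congrArg DFunLike.coe this) x

lemma const5 (n : Fin 5 → ℕ) (δ : Fin 5) (hδ : δ ≠ 0) (h : ∀ c, n c = n (c + δ)) (c : Fin 5) :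
    n c = n 0 := by
  have key : ∀ δ : Fin 5, δ ≠ 0 → ∀ c : Fin 5, c = 0 ∨ c + δ = 0 ∨ c + δ + δ = 0 ∨
      c + δ + δ + δ = 0 ∨ c + δ + δ + δ + δ = 0 := by decide
  have h1 := h c
  have h2 := h (c + δ)
  have h3 := h (c + δ + δ)
  have h4 := h (c + δ + δ + δ)
  rcases key δ hδ c with hc | hc | hc | hc | hc
  · rw [hc]
  · rw [h1, hc]
  · rw [h1, h2, hc]
  · rw [h1, h2, h3, hc]
  · rw [h1, h2, h3, h4, hc]

end K5

open K5 in
theorem pc_K5 (h : ST_path) : ST_K5 := by
  classical
  intro p d _ hd
  refine ⟨fun i x => kap p d x + i, ?_, ?_⟩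
  · intro i
    rw [ds_zero, eq_bot_iff]
    intro g hg
    obtain ⟨hga, hgc⟩ := mem_cst.1 hg
    have hga' : IsAff g := hga
    have hk : ∀ x, kap p d (g x) = kap p d x := fun x => add_right_cancel (hgc x)
    have h0 : g 0 = 0 := (kap_zero _).1 (by rw [hk, kap_zero])
    have h1 : g (ev p d 0) = ev p d 0 := (kap_one hd _).1 (by rw [hk, kap_one hd])
    have hE : ∀ x, inE p d x → inE p d (g x) := fun x hx =>
      (kap_two _).1 (by rw [hk, kap_two]; exact hx)
    have hF : ∀ x, inF p d x → inF p d (g x) := fun x hx =>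
      (kap_three _).1 (by rw [hk, kap_three]; exact hx)
    obtain ⟨h2, h3⟩ := h p d hd g hga' h0 h1 (fun x hx => hx.imp (hE x) (hF x))
    rw [Subgroup.mem_bot]
    apply eq_one hga' h0
    intro i hi
    rcases Nat.lt_or_ge (i + 1) d with h4 | h4
    · exact h2 i h4
    · obtain rfl : i = d - 1 := by omega
      rcases h3 with h3 | ⟨h5, h3⟩
      · exact h3
      · exfalso
        have h6 := hE (ev p d (d - 1)) ⟨d - 1, by omega, by omega, rfl⟩
        rw [h3] at h6
        have h7 : inF p d (ev p d (d - 2) + ev p d (d - 1)) :=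
          ⟨d - 2, by omega, by rw [show d - 2 + 1 = d - 1 by omega]⟩
        exact (inF_ne h7).2.2 h6
  · intro i j g _ hij
    by_contra hne
    let n : Fin 5 → ℕ := fun c => (Finset.univ.filter fun x : Vp p d => kap p d x = c).card
    have hn : ∀ c, n c = n (c + (j - i)) := by
      intro c
      refine Finset.card_bij (fun x _ => g x) ?_ ?_ ?_
      · intro x hx
        have h1 : kap p d x = c := (Finset.mem_filter.1 hx).2
        have h2 := hij x
        simp only at h2
        refine Finset.mem_filter.2 ⟨Finset.mem_univ _, ?_⟩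
        have h3 : kap p d (g x) = kap p d (g x) + i - i := by rw [add_sub_cancel_right]
        rw [h3, h2, h1, add_sub_assoc]
      · intro x _ y _ hxy
        exact g.injective hxy
      · intro y hy
        refine ⟨g.symm y, ?_, by simp⟩
        have h1 : kap p d y = c + (j - i) := (Finset.mem_filter.1 hy).2
        have h2 := hij (g.symm y)
        simp only [Equiv.apply_symm_apply] at h2
        refine Finset.mem_filter.2 ⟨Finset.mem_univ _, ?_⟩
        have h3 : kap p d (g.symm y) = kap p d (g.symm y) + j - j := by rw [add_sub_cancel_right]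
        rw [h3, ← h2, h1]
        abel
    have hconst := const5 n (j - i) (sub_ne_zero.2 (Ne.symm hne)) hn
    have hn0 : n 0 = 1 := by
      rw [Finset.card_eq_one]
      refine ⟨0, ?_⟩
      ext x
      simp [kap_zero]
    have hsum : ∑ c, n c = p ^ d := by
      have h1 : ∑ c, n c = (Finset.univ : Finset (Vp p d)).card :=
        (Finset.card_eq_sum_card_fiberwise (f := kap p d) (t := Finset.univ) (fun _ _ => by simp)).symm
      rw [h1, Finset.card_univ, Fintype.card_fun, ZMod.card, Fintype.card_fin]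
    have h5 : p ^ d = 5 := by
      rw [← hsum, Finset.sum_congr rfl fun c _ => (hconst c).trans hn0]
      simp
    have hd1 : d = 1 := by
      have h6 : Nat.Prime (p ^ d) := by rw [h5]; norm_num
      exact Nat.Prime.eq_one_of_pow h6
    have h2 : n 2 = 1 := (hconst 2).trans hn0
    obtain ⟨x, hx⟩ := Finset.card_eq_one.1 h2
    have h7 : x ∈ Finset.univ.filter fun x : Vp p d => kap p d x = 2 := by rw [hx]; simp
    obtain ⟨k, h8, h9, -⟩ := (kap_two x).1 (Finset.mem_filter.1 h7).2
    omega

end Pool.Agent.R379.DL
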