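import Pool.Agent.R379.DL.Stm

/-! # Project DL, piece L1: the wreath product is solvable -/

namespace Pool.Agent.R379.DL

open Equiv

theorem L1_step (h1 : ST_perm) {Ω A : Type} [Finite A] (H : Subgroup (Perm Ω)) (m : ℕ)
    (hm : m ≤ 3) (hA : Nat.card A ≤ m + 1) (F : Set Ω) (hF : ∀ g ∈ H, ∀ x ∈ F, g x ∈ F)
    (φ : Ω → A) (hφ : ∀ g ∈ H, ∀ x ∈ F, ∀ y ∈ F, φ (g x) = φ (g y) ↔ φ x = φ y)
    (hsurj : ∀ a, ∃ x ∈ F, φ x = a) : ∀ g ∈ ds H m, ∀ x ∈ F, φ (g x) = φ x := by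
  intro g hg
  obtain ⟨q, hq, hqF, hqF', hqφ⟩ := relds
    (R := fun (g : Perm Ω) (q : Perm A) => (∀ x ∈ F, g x ∈ F) ∧ (∀ x ∈ F, g⁻¹ x ∈ F) ∧
      ∀ x ∈ F, φ (g x) = q (φ x))
    (by
      rintro a a' b b' ⟨ha1, ha2, ha3⟩ ⟨hb1, hb2, hb3⟩
      refine ⟨fun x hx => ha1 _ (hb1 x hx), fun x hx => ?_, fun x hx => ?_⟩
      · rw [mul_inv_rev, Perm.mul_apply]
        exact hb2 _ (ha2 x hx)
      · rw [Perm.mul_apply, ha3 _ (hb1 x hx), hb3 x hx, Perm.mul_apply])
    (by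
      rintro a a' ⟨ha1, ha2, ha3⟩
      refine ⟨ha2, fun x hx => by rw [inv_inv]; exact ha1 x hx, fun x hx => ?_⟩
      rw [eq_comm, Perm.inv_eq_iff_eq, ← ha3 _ (ha2 x hx)]
      simp)
    ⟨fun x hx => hx, fun x hx => hx, fun x _ => rfl⟩
    H ⊤
    (by
      intro g hg
      choose s hsF hsφ using hsurj
      have hinj : Function.Injective (fun a => φ (g (s a))) := by
        intro a b hab
        have := (hφ g hg (s a) (hsF a) (s b) (hsF b)).mp hab
        rw [hsφ, hsφ] at this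
        exact this
      refine ⟨Equiv.ofBijective _ (Finite.injective_iff_bijective.mp hinj), Subgroup.mem_top _,
        hF g hg, hF g⁻¹ (H.inv_mem hg), ?_⟩
      intro x hx
      show φ (g x) = φ (g (s (φ x)))
      rw [hφ g hg x hx _ (hsF _), hsφ]) m g hg
  rw [h1 A m hm hA ⊤, Subgroup.mem_bot] at hq
  subst hq
  intro x hx
  rw [hqφ x hx]
  rfl

theorem pc_solv (h1 : ST_perm) : ST_solv := by
  refine ⟨1 + 3 + 3, ?_⟩
  rw [ds_add, ds_add, eq_bot_iff]
  have s1 : ∀ g ∈ ds GG 1, ∀ x : Om, (g x).1 = x.1 := by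
    intro g hg x
    refine L1_step h1 GG 1 (by norm_num) (by simp) Set.univ (fun _ _ _ _ => trivial)
      (fun x => x.1) (fun g hg x _ y _ => (hg x y).1) (fun a => ⟨(a, 0, 0), trivial, rfl⟩)
      g hg x trivial
  have s2 : ∀ g ∈ ds (ds GG 1) 3, ∀ x : Om, (g x).2.1 = x.2.1 := by
    intro g hg x
    refine L1_step h1 (ds GG 1) 3 (by norm_num) (by simp) {y : Om | y.1 = x.1} ?_
      (fun x => x.2.1) ?_ (fun a => ⟨(x.1, a, 0), rfl, rfl⟩) g hg x rfl
    · intro g hg y hy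
      show (g y).1 = x.1
      rw [s1 g hg y]; exact hy
    · intro g hg y hy z hz
      have hGG : g ∈ GG := ds_le _ _ hg
      have e := (hGG y z).2
      have hyz : y.1 = z.1 := (hy : y.1 = x.1).trans (hz : z.1 = x.1).symm
      have hg1 : (g y).1 = (g z).1 := by rw [s1 g hg, s1 g hg, hyz]
      constructor
      · intro h; exact (e.mp ⟨hg1, h⟩).2
      · intro h; exact (e.mpr ⟨hyz, h⟩).2
  intro g hg
  have hg2 : g ∈ ds (ds GG 1) 3 := ds_le _ _ hg
  have hg1 : g ∈ ds GG 1 := ds_le _ _ hg2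
  have s3 : ∀ x : Om, (g x).2.2 = x.2.2 := by
    intro x
    refine L1_step h1 (ds (ds GG 1) 3) 3 (by norm_num) (by simp)
      {y : Om | y.1 = x.1 ∧ y.2.1 = x.2.1} ?_
      (fun x => x.2.2) ?_ (fun a => ⟨(x.1, x.2.1, a), ⟨rfl, rfl⟩, rfl⟩) g hg x ⟨rfl, rfl⟩
    · intro g hg y hy
      refine ⟨?_, ?_⟩
      · rw [s1 g (ds_le _ _ hg) y]; exact hy.1
      · rw [s2 g hg y]; exact hy.2
    · intro g hg y hy z hz
      have e1 : ∀ w, (g w).1 = w.1 := s1 g (ds_le _ _ hg)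
      have e2 : ∀ w, (g w).2.1 = w.2.1 := s2 g hg
      have hyz1 : y.1 = z.1 := hy.1.trans hz.1.symm
      have hyz2 : y.2.1 = z.2.1 := hy.2.trans hz.2.symm
      constructor
      · intro h
        have : g y = g z := by
          apply Prod.ext
          · rw [e1, e1, hyz1]
          · apply Prod.ext
            · rw [e2, e2, hyz2]
            · exact h
        rw [g.injective this]
      · intro h
        have : y = z := Prod.ext hyz1 (Prod.ext hyz2 h)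
        rw [this]
  rw [Subgroup.mem_bot]
  ext1 x
  rw [Perm.one_apply]
  exact Prod.ext (s1 g hg1 x) (Prod.ext (s2 g hg2 x) (s3 x))

end Pool.Agent.R379.DL
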