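import Pool.Agent.R379.DL.Stm

/-!
# Project DL, piece L2a: the swap lemma and the lower bound for two blocks with the same types
-/

namespace Pool.Agent.R379.DL

open Equiv
open scoped commutatorElement

theorem pc_swap : ST_swap := by
  intro Ω H s x y L hs hx hy hxL hyL hsL hne hds
  have inv_fix : ∀ (u : Perm Ω), (∀ z, z ∉ L → u z = z) → ∀ z, z ∉ L → u⁻¹ z = z := by
    intro u hu z hz
    rw [Perm.inv_eq_iff_eq]
    exact (hu z hz).symm
  have inv_mem : ∀ (u : Perm Ω), (∀ z, z ∉ L → u z = z) → ∀ z, z ∈ L → u⁻¹ z ∈ L := by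
    intro u hu z hz
    by_contra hc
    have h1 := hu _ hc
    rw [← Perm.mul_apply, mul_inv_cancel, Perm.one_apply] at h1
    exact hc (h1 ▸ hz)
  have key : ∀ (u : Perm Ω), (∀ z, z ∉ L → u z = z) → ∀ z, z ∈ L → (s * u * s⁻¹ * u⁻¹) z = u⁻¹ z := by
    intro u hu z hz
    have h1 := inv_mem u hu z hz
    have h2 : s⁻¹ (u⁻¹ z) ∉ L := by
      intro hc
      have := hsL _ hc
      rw [← Perm.mul_apply, mul_inv_cancel, Perm.one_apply] at this
      exact this h1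
    simp only [Perm.mul_apply]
    rw [hu _ h2, ← Perm.mul_apply, mul_inv_cancel, Perm.one_apply]
  have hcx : ⁅s, x⁆ ∈ ds H 1 := Subgroup.commutator_mem_commutator hs hx
  have hcy : ⁅s, y⁆ ∈ ds H 1 := Subgroup.commutator_mem_commutator hs hy
  have hc : ⁅⁅s, x⁆, ⁅s, y⁆⁆ ∈ ds H 2 := Subgroup.commutator_mem_commutator hcx hcy
  rw [hds, Subgroup.mem_bot, commutatorElement_eq_one_iff_mul_comm] at hc
  have hxx : ∀ z, z ∈ L → ⁅s, x⁆ z = x⁻¹ z := fun z hz => by
    rw [commutatorElement_def]; exact key x hxL z hz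
  have hyy : ∀ z, z ∈ L → ⁅s, y⁆ z = y⁻¹ z := fun z hz => by
    rw [commutatorElement_def]; exact key y hyL z hz
  have hfin : x⁻¹ * y⁻¹ = y⁻¹ * x⁻¹ := by
    ext z
    by_cases hz : z ∈ L
    · have h1 := congrArg (fun p : Perm Ω => p z) hc
      simp only [Perm.mul_apply] at h1 ⊢
      rw [hyy z hz, hxx z hz, hxx _ (inv_mem y hyL z hz), hyy _ (inv_mem x hxL z hz)] at h1
      exact h1
    · simp only [Perm.mul_apply]
      rw [inv_fix x hxL z hz, inv_fix y hyL z hz, inv_fix x hxL z hz]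
  apply hne
  have := congrArg (fun p : Perm Ω => p⁻¹) hfin
  simp only [mul_inv_rev, inv_inv] at this
  exact this.symm

/-- the permutation of a leaf -/
def leafP (i : Fin 2) (j : Fin 4) (ρ : Perm (Fin 4)) : Perm Om where
  toFun x := if x.1 = i ∧ x.2.1 = j then (x.1, x.2.1, ρ x.2.2) else x
  invFun x := if x.1 = i ∧ x.2.1 = j then (x.1, x.2.1, ρ.symm x.2.2) else x
  left_inv x := by
    by_cases h : x.1 = i ∧ x.2.1 = j
    · simp [h]
      rw [← h.1, ← h.2]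
    · simp [h]
  right_inv x := by
    by_cases h : x.1 = i ∧ x.2.1 = j
    · simp [h]
      rw [← h.1, ← h.2]
    · simp [h]

theorem leafP_apply (i : Fin 2) (j : Fin 4) (ρ : Perm (Fin 4)) (x : Om) :
    leafP i j ρ x = if x.1 = i ∧ x.2.1 = j then (x.1, x.2.1, ρ x.2.2) else x := rfl

theorem leafP_fst (i : Fin 2) (j : Fin 4) (ρ : Perm (Fin 4)) (x : Om) : (leafP i j ρ x).1 = x.1 := by
  rw [leafP_apply]; split_ifs <;> rfl

theorem leafP_snd (i : Fin 2) (j : Fin 4) (ρ : Perm (Fin 4)) (x : Om) :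
    (leafP i j ρ x).2.1 = x.2.1 := by
  rw [leafP_apply]; split_ifs <;> rfl

theorem leafP_mem_GG (i : Fin 2) (j : Fin 4) (ρ : Perm (Fin 4)) : leafP i j ρ ∈ GG := by
  intro x y
  simp only [leafP_fst, leafP_snd, iff_self, and_self]

theorem leafP_mem_cst (T : Fin 2 → Fin 4 → Fin 5) (i : Fin 2) (j : Fin 4) (ρ : Perm (Fin 4))
    (h : ∀ k : Fin 4, ((ρ k : ℕ) < (T i j : ℕ)) ↔ ((k : ℕ) < (T i j : ℕ))) :
    leafP i j ρ ∈ cst GG (gT T) := by
  refine ⟨leafP_mem_GG i j ρ, fun x => ?_⟩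
  by_cases hx : x.1 = i ∧ x.2.1 = j
  · unfold gT
    rw [leafP_fst, leafP_snd, leafP_apply, if_pos hx]
    have := h x.2.2
    rw [hx.1, hx.2]
    simp only [this]
  · rw [leafP_apply, if_neg hx]

/-- the exchange of the two blocks -/
def swapP (τ : Perm (Fin 4)) : Perm Om where
  toFun x := if x.1 = 0 then (1, τ x.2.1, x.2.2) else (0, τ.symm x.2.1, x.2.2)
  invFun x := if x.1 = 0 then (1, τ x.2.1, x.2.2) else (0, τ.symm x.2.1, x.2.2)
  left_inv x := by
    obtain ⟨a, b, c⟩ := x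
    fin_cases a <;> simp
  right_inv x := by
    obtain ⟨a, b, c⟩ := x
    fin_cases a <;> simp

theorem swapP_apply (τ : Perm (Fin 4)) (x : Om) :
    swapP τ x = if x.1 = 0 then (1, τ x.2.1, x.2.2) else (0, τ.symm x.2.1, x.2.2) := rfl

theorem swapP_mem_GG (τ : Perm (Fin 4)) : swapP τ ∈ GG := by
  rintro ⟨a, b, c⟩ ⟨a', b', c'⟩
  fin_cases a <;> fin_cases a' <;> simp [swapP_apply]

theorem swapP_mem_cst (T : Fin 2 → Fin 4 → Fin 5) (τ : Perm (Fin 4))
    (h : ∀ j, T 1 (τ j) = T 0 j) : swapP τ ∈ cst GG (gT T) := by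
  refine ⟨swapP_mem_GG τ, ?_⟩
  rintro ⟨a, b, c⟩
  fin_cases a
  · simp [swapP_apply, gT, h]
  · have := h (τ.symm b)
    rw [Equiv.apply_symm_apply] at this
    simp [swapP_apply, gT, this]

theorem pc_low4 (hs : ST_swap) : ST_low4 := by
  intro T τ j hτ hj
  refine hs Om (cst GG (gT T)) (swapP τ) (leafP 0 j (Equiv.swap 1 2)) (leafP 0 j (Equiv.swap 2 3))
    {z | z.1 = 0 ∧ z.2.1 = j} (swapP_mem_cst T τ hτ) ?_ ?_ ?_ ?_ ?_ ?_
  · apply leafP_mem_cst
    rw [hj]; decide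
  · apply leafP_mem_cst
    rw [hj]; decide
  · intro z hz
    have hz' : ¬ (z.1 = 0 ∧ z.2.1 = j) := hz
    rw [leafP_apply, if_neg hz']
  · intro z hz
    have hz' : ¬ (z.1 = 0 ∧ z.2.1 = j) := hz
    rw [leafP_apply, if_neg hz']
  · rintro ⟨a, b, c⟩ ⟨h1, h2⟩ ⟨h3, h4⟩
    simp only at h1
    subst h1
    simp [swapP_apply] at h3
  · intro hc
    have := congrArg (fun p : Perm Om => (p (0, j, 1)).2.2) hc
    simp only [Perm.mul_apply, leafP_apply] at this
    revert this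
    simp
    decide

end Pool.Agent.R379.DL
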