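import Pool.Agent.R379.DL.Stm

/-!
# Project DL (MP_5a645a_al): piece L2b, cases 1 and 2 of the lower bound
-/

namespace Pool.Agent.R379.DL

open Equiv

namespace L2b

/-- a permutation acting in the leaves -/
def Lf (σ : Fin 2 → Fin 4 → Perm (Fin 4)) : Perm Om where
  toFun x := (x.1, x.2.1, σ x.1 x.2.1 x.2.2)
  invFun x := (x.1, x.2.1, (σ x.1 x.2.1)⁻¹ x.2.2)
  left_inv x := by simp
  right_inv x := by simp

theorem Lf_apply (σ : Fin 2 → Fin 4 → Perm (Fin 4)) (x : Om) :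
    Lf σ x = (x.1, x.2.1, σ x.1 x.2.1 x.2.2) := rfl

theorem Lf_mem (σ : Fin 2 → Fin 4 → Perm (Fin 4)) : Lf σ ∈ GG :=
  fun _ _ => ⟨Iff.rfl, Iff.rfl⟩

/-- one permutation on the leaf `(i,j)` -/
def leaf (i : Fin 2) (j : Fin 4) (ρ : Perm (Fin 4)) : Fin 2 → Fin 4 → Perm (Fin 4) :=
  fun i' j' => if i' = i ∧ j' = j then ρ else 1

/-- the embedding of `S_4` as the group of a leaf -/
def lh (i : Fin 2) (j : Fin 4) : Perm (Fin 4) →* Perm Om :=
  MonoidHom.mk' (fun ρ => Lf (leaf i j ρ)) (by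
    intro a b
    ext1 x
    rw [Perm.mul_apply, Lf_apply, Lf_apply, Lf_apply]
    by_cases h : x.1 = i ∧ x.2.1 = j
    · simp only [leaf, if_pos h, Perm.mul_apply]
    · simp only [leaf, if_neg h, Perm.one_apply])

theorem lh_apply_in (i : Fin 2) (j : Fin 4) (ρ : Perm (Fin 4)) (k : Fin 4) :
    lh i j ρ (i, j, k) = (i, j, ρ k) := by
  change Lf (leaf i j ρ) (i, j, k) = _
  rw [Lf_apply]
  simp [leaf]

theorem lh_apply_out (i : Fin 2) (j : Fin 4) (ρ : Perm (Fin 4)) (x : Om)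
    (h : ¬ (x.1 = i ∧ x.2.1 = j)) : lh i j ρ x = x := by
  change Lf (leaf i j ρ) x = _
  rw [Lf_apply]
  simp only [leaf, if_neg h, Perm.one_apply]

theorem lh_inj (i : Fin 2) (j : Fin 4) : Function.Injective (lh i j) := by
  intro a b h
  ext1 k
  have h1 := lh_apply_in i j a k
  rw [h, lh_apply_in] at h1
  exact ((Prod.ext_iff.mp (Prod.ext_iff.mp h1).2).2).symm

theorem lh_mem {T : Fin 2 → Fin 4 → Fin 5} {i : Fin 2} {j : Fin 4} {ρ : Perm (Fin 4)}
    (h : ∀ k, ((ρ k : Fin 4) : ℕ) < ((T i j : Fin 5) : ℕ) ↔ (k : ℕ) < ((T i j : Fin 5) : ℕ)) :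
    lh i j ρ ∈ cst GG (gT T) := by
  refine ⟨Lf_mem _, fun x => ?_⟩
  by_cases hx : x.1 = i ∧ x.2.1 = j
  · obtain ⟨a, b, k⟩ := x
    obtain ⟨rfl, rfl⟩ := hx
    rw [lh_apply_in]
    unfold gT
    exact decide_eq_decide.mpr (h k)
  · rw [lh_apply_out _ _ _ _ hx]

/-- the commutator -/
def cm {G : Type*} [Group G] (a b : G) : G := a * b * a⁻¹ * b⁻¹

theorem map_cm {G G' : Type*} [Group G] [Group G'] (f : G →* G') (a b : G) :
    f (cm a b) = cm (f a) (f b) := by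
  simp only [cm, map_mul, map_inv]

theorem ds_two_ne {G : Type*} [Group G] {H : Subgroup G} {s a t b : G} (hs : s ∈ H) (ha : a ∈ H)
    (ht : t ∈ H) (hb : b ∈ H) (h : cm (cm s a) (cm t b) ≠ 1) : ds H 2 ≠ ⊥ := by
  intro h0
  apply h
  have h1 : cm s a ∈ ds H 1 := Subgroup.commutator_mem_commutator hs ha
  have h2 : cm t b ∈ ds H 1 := Subgroup.commutator_mem_commutator ht hb
  have h3 : cm (cm s a) (cm t b) ∈ ds H 2 := Subgroup.commutator_mem_commutator h1 h2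
  rw [h0] at h3
  exact Subgroup.mem_bot.mp h3

theorem s4 : cm (cm (swap 0 1 : Perm (Fin 4)) (swap 1 2)) (cm (swap 0 1 : Perm (Fin 4)) (swap 1 3)) ≠ 1 := by
  decide

/-- the permutation `σ` of the leaves of the block `i` -/
def M (i : Fin 2) (σ : Perm (Fin 4)) : Perm Om where
  toFun x := (x.1, (if x.1 = i then σ else 1) x.2.1, x.2.2)
  invFun x := (x.1, (if x.1 = i then σ else 1)⁻¹ x.2.1, x.2.2)
  left_inv x := by simp
  right_inv x := by simp

theorem M_apply (i : Fin 2) (σ : Perm (Fin 4)) (x : Om) :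
    M i σ x = (x.1, (if x.1 = i then σ else 1) x.2.1, x.2.2) := rfl

theorem M_mem (i : Fin 2) (σ : Perm (Fin 4)) : M i σ ∈ GG := by
  intro x y
  rw [M_apply, M_apply]
  refine ⟨Iff.rfl, ?_⟩
  simp only
  constructor
  · rintro ⟨h1, h2⟩
    rw [h1] at h2
    exact ⟨h1, (Equiv.injective _) h2⟩
  · rintro ⟨h1, h2⟩
    rw [h1, h2]
    exact ⟨rfl, rfl⟩

theorem M_cst {T : Fin 2 → Fin 4 → Fin 5} {i : Fin 2} {σ : Perm (Fin 4)}
    (h : ∀ j, T i (σ j) = T i j) : M i σ ∈ cst GG (gT T) := by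
  refine ⟨M_mem _ _, fun x => ?_⟩
  rw [M_apply]
  unfold gT
  by_cases hx : x.1 = i
  · simp only [if_pos hx]
    rw [hx, h]
  · simp only [if_neg hx, Perm.one_apply]

theorem low2_aux (hs : ST_swap) (T : Fin 2 → Fin 4 → Fin 5) (i : Fin 2) (j j' : Fin 4) (hj : j ≠ j')
    (hT : T i j = T i j') (ρ ρ' : Perm (Fin 4))
    (h : ∀ k, ((ρ k : Fin 4) : ℕ) < ((T i j : Fin 5) : ℕ) ↔ (k : ℕ) < ((T i j : Fin 5) : ℕ))
    (h' : ∀ k, ((ρ' k : Fin 4) : ℕ) < ((T i j : Fin 5) : ℕ) ↔ (k : ℕ) < ((T i j : Fin 5) : ℕ))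
    (hc : ρ * ρ' ≠ ρ' * ρ) : ds (cst GG (gT T)) 2 ≠ ⊥ := by
  refine hs Om (cst GG (gT T)) (M i (swap j j')) (lh i j ρ) (lh i j ρ')
    {z | z.1 = i ∧ z.2.1 = j} ?_ (lh_mem h) (lh_mem h') ?_ ?_ ?_ ?_
  · apply M_cst
    intro l
    rcases eq_or_ne l j with rfl | h1
    · rw [swap_apply_left, hT]
    · rcases eq_or_ne l j' with rfl | h2
      · rw [swap_apply_right, hT]
      · rw [swap_apply_of_ne_of_ne h1 h2]
  · intro z hz
    exact lh_apply_out _ _ _ _ hz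
  · intro z hz
    exact lh_apply_out _ _ _ _ hz
  · rintro z ⟨hz1, hz2⟩ ⟨h1, h2⟩
    rw [M_apply] at h2
    simp only [if_pos hz1, hz2, swap_apply_left] at h2
    exact hj h2.symm
  · rw [← map_mul, ← map_mul]
    exact fun h => hc (lh_inj i j h)

end L2b

open L2b in
/-- L2, case 1 -/
theorem pc_low1 : ST_low1 := by
  intro T i j hT
  have key : ∀ ρ : Perm (Fin 4), lh i j ρ ∈ cst GG (gT T) := by
    intro ρ
    apply lh_mem
    intro k
    rcases hT with h | h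
    · rw [h]; simp
    · rw [h]
      exact ⟨fun _ => k.2, fun _ => (ρ k).2⟩
  refine ds_two_ne (key (swap 0 1)) (key (swap 1 2)) (key (swap 0 1)) (key (swap 1 3)) ?_
  rw [← map_cm, ← map_cm, ← map_cm]
  intro h
  rw [← map_one (lh i j)] at h
  exact s4 (lh_inj i j h)

open L2b in
/-- L2, case 2 -/
theorem pc_low2 (hs : ST_swap) : ST_low2 := by
  intro T i j j' hj hT h
  rcases h with h | h
  · refine low2_aux hs T i j j' hj hT (swap 1 2) (swap 2 3) ?_ ?_ ?_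
    · rw [h]; decide
    · rw [h]; decide
    · decide
  · refine low2_aux hs T i j j' hj hT (swap 0 1) (swap 1 2) ?_ ?_ ?_
    · rw [h]; decide
    · rw [h]; decide
    · decide

end Pool.Agent.R379.DL
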