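import Pool.Agent.R379.DL.Defs

/-!
# Project DL (MP_5a645a_al): the statements of the pieces (see NOTES.md)
-/

namespace Pool.Agent.R379.DL

open Equiv

/-! ## T: tools -/

/-- T1: on at most `m+1 ≤ 4` points every permutation group has derived length `≤ m`. -/
def ST_perm : Prop := ∀ (α : Type) [Finite α] (m : ℕ), m ≤ 3 → Nat.card α ≤ m + 1 →
  ∀ H : Subgroup (Perm α), ds H m = ⊥

/-- T2: a group preserving all the parts (of size `≤ m+1 ≤ 4`) of a set `Γ`, faithful on `Γ`. -/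
def ST_parts : Prop := ∀ (Ω Q : Type) (H : Subgroup (Perm Ω)) (Γ : Set Ω) (f : Ω → Q) (m : ℕ), m ≤ 3 →
  (∀ g ∈ H, ∀ x ∈ Γ, g x ∈ Γ ∧ f (g x) = f x) →
  (∀ q, {x | x ∈ Γ ∧ f x = q}.Finite ∧ {x | x ∈ Γ ∧ f x = q}.ncard ≤ m + 1) →
  (∀ g ∈ H, (∀ x ∈ Γ, g x = x) → g = 1) → ds H m = ⊥

/-! ## A: primitive solvable groups are affine -/

/-- A: a primitive solvable permutation group is affine over a prime field. -/
def ST_aff : Prop := ∀ (S : Type) [Finite S] [Nontrivial S] (P : Subgroup (Perm S)),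
  (∃ n, ds P n = ⊥) → (∀ x y, ∃ g ∈ P, g x = y) →
  (∀ r : Setoid S, (∀ g ∈ P, ∀ x y, r x y → r (g x) (g y)) → r = ⊥ ∨ r = ⊤) →
  ∃ (p d : ℕ) (_ : Fact p.Prime) (_ : 0 < d) (e : S ≃ Vp p d),
    ∀ g ∈ P, IsAff ((e.symm.trans g).trans e)

/-! ## K: the path colourings -/

/-- the `i`-th basis vector (zero for `i ≥ d`) -/
def ev (p d i : ℕ) : Vp p d := fun j => if (j : ℕ) = i then 1 else 0

/-- `x ∈ {e_1,…,e_{d-1}}` -/
def inE (p d : ℕ) (x : Vp p d) : Prop := ∃ i, 1 ≤ i ∧ i < d ∧ x = ev p d i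

/-- `x ∈ {e_0+e_1,…,e_{d-2}+e_{d-1}}` -/
def inF (p d : ℕ) (x : Vp p d) : Prop := ∃ i, i + 1 < d ∧ x = ev p d i + ev p d (i + 1)

/-- K0: the path lemma. -/
def ST_path : Prop := ∀ (p d : ℕ) [Fact p.Prime], 0 < d → ∀ g : Perm (Vp p d), IsAff g →
  g 0 = 0 → g (ev p d 0) = ev p d 0 →
  (∀ x, (inE p d x ∨ inF p d x) → (inE p d (g x) ∨ inF p d (g x))) →
  (∀ i, i + 1 < d → g (ev p d i) = ev p d i) ∧
  (g (ev p d (d - 1)) = ev p d (d - 1) ∨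
    (2 ≤ d ∧ g (ev p d (d - 1)) = ev p d (d - 2) + ev p d (d - 1)))

def ST_K5 : Prop := ∀ (p d : ℕ) [Fact p.Prime], 0 < d → TOP 5 0 p d
def ST_K4 : Prop := ∀ (p d : ℕ) [Fact p.Prime], 0 < d → TOP 4 1 p d
def ST_K3 : Prop := ∀ (p d : ℕ) [Fact p.Prime], 0 < d → TOP 3 2 p d
def ST_K2 : Prop := ∀ (p d : ℕ) [Fact p.Prime], 0 < d → 4 ≤ p ^ d → TOP 2 3 p d

/-! ## C: cones -/

/-- the cone over `D`: the origin and the copy of `D` in the hyperplane `x_0 = 1` -/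
def cone (p d : ℕ) (D : Vp p d → Bool) : Vp p (d + 1) → Bool :=
  fun x => decide (x = 0) || (decide (x 0 = 1) && D (fun i => x i.succ))

/-- C1: an affine map between two cones over robust sets. -/
def ST_coneFix : Prop := ∀ (p d : ℕ) [Fact p.Prime], 0 < d → ∀ D D' : Vp p d → Bool,
  Rob p d D → Rob p d D' → ∀ g ∈ aff (Vp p (d + 1)), (∀ x, cone p d D' (g x) = cone p d D x) →
  g 0 = 0 ∧ (∀ x, g x 0 = x 0) ∧
    ∃ h ∈ aff (Vp p d), (∀ u : Vp p d, g (Fin.cons 1 u : Vp p (d + 1)) = Fin.cons 1 (h u)) ∧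
      (∀ u, D' (h u) = D u)

/-- C2 -/
def ST_coneDl : Prop := ∀ (p d : ℕ) [Fact p.Prime], 0 < d → ∀ D : Vp p d → Bool, Rob p d D →
  ds (cst (aff (Vp p d)) D) 3 = ⊥ → ds (cst (aff (Vp p (d + 1))) (cone p d D)) 3 = ⊥

/-- C3 -/
def ST_coneGood : Prop := ∀ (p d : ℕ) [Fact p.Prime], 0 < d → 5 ≤ p ^ d → Good p d → Good p (d + 1)

/-! ## D: dimension one -/

/-- D1 -/
def ST_line : Prop := ∀ (p : ℕ) [Fact p.Prime], ds (aff (Vp p 1)) 2 = ⊥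

/-- D2 -/
def ST_lineTop : Prop := ∀ (p : ℕ) [Fact p.Prime], 5 ≤ p → TOP 2 3 p 1

/-- D3 -/
def ST_lineGood : Prop := ∀ (p : ℕ) [Fact p.Prime], 7 ≤ p → Good p 1

/-! ## E: explicit sets -/

/-- the colouring attached to a finite set -/
def setD {V : Type} [DecidableEq V] (S : Finset V) : V → Bool := fun x => decide (x ∈ S)

/-- number of `(y,z) ∈ S²` with `y + z - x ∈ S` -/
def tct {V : Type} [AddCommGroup V] [DecidableEq V] (S : Finset V) (x : V) : ℕ :=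
  ((S ×ˢ S).filter (fun q => q.1 + q.2 - x ∈ S)).card

/-- E0: the t-lemma. -/
def ST_tl : Prop := ∀ (p d : ℕ) [Fact p.Prime] (S : Finset (Vp p d)), (0 : Vp p d) ∈ S →
  (∀ i, i < d → ev p d i ∈ S) →
  (∀ y ∈ S, (S.filter (fun x => tct S x = tct S y)).card ≤ 4) →
  ds (cst (aff (Vp p d)) (setD S)) 3 = ⊥

/-- E1: robustness of complements of small sets. -/
def ST_robc : Prop := ∀ (p d : ℕ) [Fact p.Prime] (S : Finset (Vp p d)), 2 * (S.card + 1) < p ^ d →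
  Rob p d (fun x => !(setD S x))

/-- E2: invariants under affine equivalence. -/
def ST_inv : Prop := ∀ (p d : ℕ) [Fact p.Prime] (S S' : Finset (Vp p d)), ∀ g ∈ aff (Vp p d),
  (∀ x, setD S (g x) = setD S' x) →
  S.card = S'.card ∧ (∑ x ∈ S, tct S x = ∑ x ∈ S', tct S' x)

/-- E3: a good family from explicit sets. -/
def ST_mkGood : Prop := ∀ (p d : ℕ) [Fact p.Prime], 0 < d → ∀ (S : Fin 5 → Finset (Vp p d)),
  (∀ i, 2 * ((S i).card + 1) < p ^ d) → (∀ i j, (S i).card = (S j).card → i = j) →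
  (∀ i, (0 : Vp p d) ∈ S i) → (∀ i j, j < d → ev p d j ∈ S i) →
  (∀ i, ∀ y ∈ S i, ((S i).filter (fun x => tct (S i) x = tct (S i) y)).card ≤ 4) → Good p d

/-- X22 -/
def ST_X22 : Prop := TOP 2 3 2 2
/-- X23: `(2,3)`, together with the robust set of six points. -/
def ST_X23 : Prop := TOP 2 3 2 3 ∧
  ds (cst (aff (Vp 2 3)) (fun x => !(setD {0, ev 2 3 0} x))) 3 = ⊥
/-- X24 -/
def ST_X24 : Prop := TOP 2 3 2 4
/-- X25 -/
def ST_X25 : Prop := Good 2 5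
/-- X32 -/
def ST_X32 : Prop := TOP 2 3 3 2
/-- X33 -/
def ST_X33 : Prop := Good 3 3
/-- X52 -/
def ST_X52 : Prop := Good 5 2

/-! ## I: the induction -/

/-- the action of the stabiliser of the fibre over `s₀` on this fibre -/
def W1 {B S : Type} (W : Subgroup (Perm B)) (f : B → S) (s₀ : S) :
    Subgroup (Perm {x : B // f x = s₀}) where
  carrier := {h | ∃ g ∈ W, ∀ x, g x.1 = (h x).1}
  one_mem' := ⟨1, W.one_mem, fun _ => rfl⟩
  mul_mem' := by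
    rintro a b ⟨a', ha', hra⟩ ⟨b', hb', hrb⟩
    exact ⟨a' * b', W.mul_mem ha' hb', fun x => by rw [Perm.mul_apply, hrb, hra]; rfl⟩
  inv_mem' := by
    rintro a ⟨a', ha', hra⟩
    refine ⟨a'⁻¹, W.inv_mem ha', fun x => ?_⟩
    rw [Perm.inv_eq_iff_eq, hra]
    simp

/-- I1: one step of the induction (a system of blocks, the fibres of `f`). -/
def ST_step : Prop := ∀ (B S : Type) [Finite B] (W : Subgroup (Perm B)) (f : B → S) (s₀ : S),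
  (∀ x y, ∃ g ∈ W, g x = y) → Function.Surjective f →
  (∀ g ∈ W, ∀ x y, f x = f y → f (g x) = f (g y)) →
  ∀ (p d k m D : ℕ) (e : S ≃ Vp p d),
  (∀ g ∈ W, ∀ q : Perm S, (∀ x, f (g x) = q (f x)) → IsAff ((e.symm.trans q).trans e)) →
  TOP k m p d →
  ∀ c : Fin k → ({x : B // f x = s₀} → Bool),
  (∀ i, ds (cst (W1 W f s₀) (c i)) D = ⊥) →
  (∀ i j, ∀ h ∈ W1 W f s₀, (∀ x, c i (h x) = c j x) → i = j) →
  m + D ≤ 3 →
  ∃ γ : Fin 5 → (B → Bool), (∀ i, ds (cst W (γ i)) 3 = ⊥) ∧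
    (∀ i j, ∀ g ∈ W, (∀ x, γ i (g x) = γ j x) → i = j)

/-- I2: transitive solvable groups of degree `≥ 4` have five inequivalent good 2-colourings. -/
def ST_ind : Prop := ∀ (B : Type) [Finite B] (W : Subgroup (Perm B)), (∃ n, ds W n = ⊥) →
  (∀ x y, ∃ g ∈ W, g x = y) → 4 ≤ Nat.card B →
  ∃ γ : Fin 5 → (B → Bool), (∀ i, ds (cst W (γ i)) 3 = ⊥) ∧
    (∀ i j, ∀ g ∈ W, (∀ x, γ i (g x) = γ j x) → i = j)

/-- I3: the upper bound. -/
def ST_upper : Prop := ∀ (Ω : Type) [Finite Ω] (G : Subgroup (Perm Ω)), (∃ n, ds G n = ⊥) →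
  ∃ γ : Ω → Bool, ds (cst G γ) 3 = ⊥

/-! ## L: the lower bound -/

/-- thirty-two points -/
abbrev Om := Fin 2 × Fin 4 × Fin 4

/-- the wreath product `S_4 ≀ S_4 ≀ S_2` -/
def GG : Subgroup (Perm Om) where
  carrier := {g | ∀ x y : Om, ((g x).1 = (g y).1 ↔ x.1 = y.1) ∧
    (((g x).1 = (g y).1 ∧ (g x).2.1 = (g y).2.1) ↔ (x.1 = y.1 ∧ x.2.1 = y.2.1))}
  one_mem' := fun x y => ⟨Iff.rfl, Iff.rfl⟩
  mul_mem' := by
    intro a b ha hb x y
    exact ⟨(ha (b x) (b y)).1.trans (hb x y).1, (ha (b x) (b y)).2.trans (hb x y).2⟩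
  inv_mem' := by
    intro a ha x y
    have h := ha (a⁻¹ x) (a⁻¹ y)
    have e : ∀ z, a (a⁻¹ z) = z := fun z => a.apply_symm_apply z
    rw [e, e] at h
    exact ⟨h.1.symm, h.2.symm⟩

/-- L1 -/
def ST_solv : Prop := ∃ n, ds GG n = ⊥

/-- L2 -/
def ST_low : Prop := ∀ γ : Om → Bool, ds (cst GG γ) 2 ≠ ⊥

/-- the normalised colouring: the leaf `(i,j)` has its first `T i j` points coloured -/
def gT (T : Fin 2 → Fin 4 → Fin 5) : Om → Bool :=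
  fun x => decide ((x.2.2 : ℕ) < (T x.1 x.2.1 : ℕ))

/-- L2a: the swap lemma -/
def ST_swap : Prop := ∀ (Ω : Type) (H : Subgroup (Perm Ω)) (s x y : Perm Ω) (L : Set Ω),
  s ∈ H → x ∈ H → y ∈ H → (∀ z, z ∉ L → x z = z) → (∀ z, z ∉ L → y z = z) →
  (∀ z ∈ L, s z ∉ L) → x * y ≠ y * x → ds H 2 ≠ ⊥

/-- L2b: a monochromatic leaf -/
def ST_low1 : Prop := ∀ (T : Fin 2 → Fin 4 → Fin 5) (i : Fin 2) (j : Fin 4), (T i j = 0 ∨ T i j = 4) →
  ds (cst GG (gT T)) 2 ≠ ⊥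

/-- L2c: two leaves of the same type 1 or 3 in a block -/
def ST_low2 : Prop := ∀ (T : Fin 2 → Fin 4 → Fin 5) (i : Fin 2) (j j' : Fin 4), j ≠ j' → T i j = T i j' →
  (T i j = 1 ∨ T i j = 3) → ds (cst GG (gT T)) 2 ≠ ⊥

/-- L2d: three leaves of type 2 in a block -/
def ST_low3 : Prop := ∀ (T : Fin 2 → Fin 4 → Fin 5) (i : Fin 2) (j j' j'' : Fin 4), j ≠ j' → j ≠ j'' →
  j' ≠ j'' → T i j = 2 → T i j' = 2 → T i j'' = 2 → ds (cst GG (gT T)) 2 ≠ ⊥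

/-- L2e: the two blocks have the same types, among them 1 -/
def ST_low4 : Prop := ∀ (T : Fin 2 → Fin 4 → Fin 5) (τ : Perm (Fin 4)) (j : Fin 4),
  (∀ j, T 1 (τ j) = T 0 j) → T 0 j = 1 → ds (cst GG (gT T)) 2 ≠ ⊥

/-- L2f: all normalised colourings -/
def ST_lowN : Prop := ∀ T : Fin 2 → Fin 4 → Fin 5, ds (cst GG (gT T)) 2 ≠ ⊥

end Pool.Agent.R379.DL
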