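import Mathlib
import Pool.Agent.R379.DL.Stm

/-! Project DL, piece L2d: three leaves of type 2 in a block. -/

set_option autoImplicit false

namespace Pool.Agent.R379.DL

open Equiv

namespace L2d394

/-- permute the leaves of block `i` -/
def MM (i : Fin 2) (σ : Perm (Fin 4)) : Perm Om where
  toFun x := if x.1 = i then (x.1, σ x.2.1, x.2.2) else x
  invFun x := if x.1 = i then (x.1, σ.symm x.2.1, x.2.2) else x
  left_inv x := by
    by_cases h : x.1 = i <;> simp [h]
    exact Prod.ext h.symm rfl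
  right_inv x := by
    by_cases h : x.1 = i <;> simp [h]
    exact Prod.ext h.symm rfl

/-- permute the points of the leaf `(i,j)` -/
def LL (i : Fin 2) (j : Fin 4) (ρ : Perm (Fin 4)) : Perm Om where
  toFun x := if x.1 = i ∧ x.2.1 = j then (x.1, x.2.1, ρ x.2.2) else x
  invFun x := if x.1 = i ∧ x.2.1 = j then (x.1, x.2.1, ρ.symm x.2.2) else x
  left_inv x := by
    by_cases h : x.1 = i ∧ x.2.1 = j
    · simp only [h, and_self, if_true, Equiv.symm_apply_apply]
      exact Prod.ext h.1.symm (Prod.ext h.2.symm rfl)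
    · simp [h]
  right_inv x := by
    by_cases h : x.1 = i ∧ x.2.1 = j
    · simp only [h, and_self, if_true, Equiv.apply_symm_apply]
      exact Prod.ext h.1.symm (Prod.ext h.2.symm rfl)
    · simp [h]

theorem MM_apply (i : Fin 2) (σ : Perm (Fin 4)) (x : Om) :
    MM i σ x = if x.1 = i then (x.1, σ x.2.1, x.2.2) else x := rfl

theorem LL_apply (i : Fin 2) (j : Fin 4) (ρ : Perm (Fin 4)) (x : Om) :
    LL i j ρ x = if x.1 = i ∧ x.2.1 = j then (x.1, x.2.1, ρ x.2.2) else x := rfl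

theorem MM_mem (i : Fin 2) (σ : Perm (Fin 4)) : MM i σ ∈ GG := by
  have h1 : ∀ x : Om, (MM i σ x).1 = x.1 := by
    intro x
    rw [MM_apply]
    split_ifs <;> rfl
  intro x y
  rw [h1, h1]
  refine ⟨Iff.rfl, ?_⟩
  refine and_congr_right fun hxy => ?_
  rw [MM_apply, MM_apply]
  by_cases hx : x.1 = i
  · rw [if_pos hx, if_pos (hxy ▸ hx)]
    exact σ.injective.eq_iff
  · rw [if_neg hx, if_neg (hxy ▸ hx)]

theorem LL_mem (i : Fin 2) (j : Fin 4) (ρ : Perm (Fin 4)) : LL i j ρ ∈ GG := by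
  have h1 : ∀ x : Om, (LL i j ρ x).1 = x.1 := by
    intro x
    rw [LL_apply]
    split_ifs <;> rfl
  have h2 : ∀ x : Om, (LL i j ρ x).2.1 = x.2.1 := by
    intro x
    rw [LL_apply]
    split_ifs <;> rfl
  intro x y
  rw [h1, h1, h2, h2]
  exact ⟨Iff.rfl, Iff.rfl⟩

theorem MM_col (T : Fin 2 → Fin 4 → Fin 5) (i : Fin 2) (σ : Perm (Fin 4)) (h : ∀ j, T i (σ j) = T i j) :
    MM i σ ∈ cst GG (gT T) := by
  refine mem_cst.2 ⟨MM_mem i σ, fun x => ?_⟩
  rw [MM_apply]
  by_cases hx : x.1 = i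
  · rw [if_pos hx]
    unfold gT
    simp only [hx, h]
  · rw [if_neg hx]

theorem LL_col (T : Fin 2 → Fin 4 → Fin 5) (i : Fin 2) (j : Fin 4) (h : T i j = 2) :
    LL i j (swap 0 1) ∈ cst GG (gT T) := by
  refine mem_cst.2 ⟨LL_mem i j _, fun x => ?_⟩
  rw [LL_apply]
  by_cases hx : x.1 = i ∧ x.2.1 = j
  · rw [if_pos hx]
    unfold gT
    simp only [hx.1, hx.2, h]
    generalize x.2.2 = k
    revert k
    decide
  · rw [if_neg hx]

/-- the commutator -/
def cm (a b : Perm Om) : Perm Om := a * b * a⁻¹ * b⁻¹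

theorem cm_mem {H : Subgroup (Perm Om)} {n : ℕ} {a b : Perm Om} (ha : a ∈ ds H n) (hb : b ∈ ds H n) :
    cm a b ∈ ds H (n + 1) := by
  rw [ds_succ]
  exact Subgroup.commutator_mem_commutator ha hb

theorem comm_ne (i : Fin 2) (j j' j'' : Fin 4) (h1 : j ≠ j') (h2 : j ≠ j'') (h3 : j' ≠ j'') :
    cm (cm (MM i (swap j j')) (LL i j (swap 0 1))) (cm (MM i (swap j j')) (MM i (swap j' j''))) (i, j'', 0) ≠
      (i, j'', 0) := by
  revert i j j' j''
  decide

end L2d394

open L2d394 in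
theorem pc_low3 : ST_low3 := by
  intro T i j j' j'' h1 h2 h3 hj hj' hj'' hbot
  have hs : MM i (swap j j') ∈ cst GG (gT T) := MM_col T i _ (fun l => by
    by_cases e1 : l = j
    · subst e1; rw [swap_apply_left, hj, hj']
    by_cases e2 : l = j'
    · subst e2; rw [swap_apply_right, hj, hj']
    rw [swap_apply_of_ne_of_ne e1 e2])
  have hb : MM i (swap j' j'') ∈ cst GG (gT T) := MM_col T i _ (fun l => by
    by_cases e1 : l = j'
    · subst e1; rw [swap_apply_left, hj', hj'']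
    by_cases e2 : l = j''
    · subst e2; rw [swap_apply_right, hj', hj'']
    rw [swap_apply_of_ne_of_ne e1 e2])
  have ha : LL i j (swap 0 1) ∈ cst GG (gT T) := LL_col T i j hj
  have hmem : cm (cm (MM i (swap j j')) (LL i j (swap 0 1))) (cm (MM i (swap j j')) (MM i (swap j' j''))) ∈
      ds (cst GG (gT T)) 2 :=
    cm_mem (H := cst GG (gT T)) (n := 1) (cm_mem (H := cst GG (gT T)) (n := 0) hs ha)
      (cm_mem (H := cst GG (gT T)) (n := 0) hs hb)
  rw [hbot, Subgroup.mem_bot] at hmem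
  apply comm_ne i j j' j'' h1 h2 h3
  rw [hmem]
  rfl

end Pool.Agent.R379.DL
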