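import Pool.Agent.R379.DL.Stm

/-! # Project DL, piece L2f: the lower bound for all colourings -/

namespace Pool.Agent.R379.DL

open Equiv

theorem L2f_col (a b c d : Bool) : ∃ ρ : Perm (Fin 4), ∃ m : Fin 5, ∀ k : Fin 4,
    (![a, b, c, d] : Fin 4 → Bool) (ρ k) = decide ((k : ℕ) < (m : ℕ)) := by
  revert a b c d
  decide

/-- the decidable form of the first hypothesis -/
def L2f_a (t : Fin 4 → Fin 5) : Bool := decide (∀ j : Fin 4, t j ≠ 0 ∧ t j ≠ 4)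
/-- the decidable form of the second hypothesis -/
def L2f_b (t : Fin 4 → Fin 5) : Bool :=
  decide (∀ j j' : Fin 4, j ≠ j' → t j = t j' → t j ≠ 1 ∧ t j ≠ 3)
/-- the decidable form of the third hypothesis -/
def L2f_c (t : Fin 4 → Fin 5) : Bool :=
  decide (∀ j j' j'' : Fin 4, j ≠ j' → j ≠ j'' → j' ≠ j'' → t j = 2 → t j' = 2 → t j'' ≠ 2)
/-- the decidable form of the conclusion -/
def L2f_d (t : Fin 4 → Fin 5) : Bool :=
  decide (∃ σ : Perm (Fin 4), ∀ k : Fin 4, t (σ k) = (![1, 2, 2, 3] : Fin 4 → Fin 5) k)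

theorem L2f_key : ∀ a b c d : Fin 5, (L2f_a ![a, b, c, d] && L2f_b ![a, b, c, d] &&
    L2f_c ![a, b, c, d]) = true → L2f_d ![a, b, c, d] = true := by
  set_option maxRecDepth 100000 in decide

theorem L2f_typ (t : Fin 4 → Fin 5) (h1 : ∀ j, t j ≠ 0 ∧ t j ≠ 4)
    (h2 : ∀ j j', j ≠ j' → t j = t j' → t j ≠ 1 ∧ t j ≠ 3)
    (h3 : ∀ j j' j'', j ≠ j' → j ≠ j'' → j' ≠ j'' → t j = 2 → t j' = 2 → t j'' ≠ 2) :
    ∃ σ : Perm (Fin 4), ∀ k, t (σ k) = (![1, 2, 2, 3] : Fin 4 → Fin 5) k := by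
  have ht : (![t 0, t 1, t 2, t 3] : Fin 4 → Fin 5) = t := by
    funext j
    fin_cases j <;> rfl
  have key := L2f_key (t 0) (t 1) (t 2) (t 3)
  rw [ht] at key
  have := key (by
    unfold L2f_a L2f_b L2f_c
    rw [Bool.and_eq_true, Bool.and_eq_true, decide_eq_true_eq, decide_eq_true_eq,
      decide_eq_true_eq]
    exact ⟨⟨h1, h2⟩, h3⟩)
  unfold L2f_d at this
  exact of_decide_eq_true this

theorem pc_lowN (h1 : ST_low1) (h2 : ST_low2) (h3 : ST_low3) (h4 : ST_low4) : ST_lowN := by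
  intro T
  by_cases c1 : ∃ i j, T i j = 0 ∨ T i j = 4
  · obtain ⟨i, j, hij⟩ := c1
    exact h1 T i j hij
  push Not at c1
  by_cases c2 : ∃ i j j', j ≠ j' ∧ T i j = T i j' ∧ (T i j = 1 ∨ T i j = 3)
  · obtain ⟨i, j, j', hj, he, ho⟩ := c2
    exact h2 T i j j' hj he ho
  by_cases c3 : ∃ i j j' j'', j ≠ j' ∧ j ≠ j'' ∧ j' ≠ j'' ∧ T i j = 2 ∧ T i j' = 2 ∧ T i j'' = 2
  · obtain ⟨i, j, j', j'', a1, a2, a3, a4, a5, a6⟩ := c3
    exact h3 T i j j' j'' a1 a2 a3 a4 a5 a6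
  have hσ : ∀ i, ∃ σ : Perm (Fin 4), ∀ k, T i (σ k) = (![1, 2, 2, 3] : Fin 4 → Fin 5) k := by
    intro i
    apply L2f_typ (T i) (c1 i)
    · intro j j' hj he
      constructor
      · intro h; exact c2 ⟨i, j, j', hj, he, Or.inl h⟩
      · intro h; exact c2 ⟨i, j, j', hj, he, Or.inr h⟩
    · intro j j' j'' a1 a2 a3 a4 a5 a6
      exact c3 ⟨i, j, j', j'', a1, a2, a3, a4, a5, a6⟩
  choose σ hσ using hσ
  refine h4 T ((σ 0)⁻¹.trans (σ 1)) (σ 0 0) ?_ ?_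
  · intro j
    show T 1 (σ 1 ((σ 0)⁻¹ j)) = T 0 j
    rw [hσ 1, ← hσ 0]
    simp
  · rw [hσ 0 0]
    rfl

theorem pc_low (h : ST_lowN) : ST_low := by
  intro γ hγ
  have hc : ∀ (i : Fin 2) (j : Fin 4), ∃ ρ : Perm (Fin 4), ∃ m : Fin 5, ∀ k : Fin 4,
      γ (i, j, ρ k) = decide ((k : ℕ) < (m : ℕ)) := by
    intro i j
    obtain ⟨ρ, m, hρ⟩ := L2f_col (γ (i, j, 0)) (γ (i, j, 1)) (γ (i, j, 2)) (γ (i, j, 3))
    refine ⟨ρ, m, fun k => ?_⟩
    rw [← hρ k]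
    have : (![γ (i, j, 0), γ (i, j, 1), γ (i, j, 2), γ (i, j, 3)] : Fin 4 → Bool) =
        fun k => γ (i, j, k) := by
      funext l
      fin_cases l <;> rfl
    rw [this]
  choose ρ T hρ using hc
  let e : Perm Om :=
    { toFun := fun x => (x.1, x.2.1, ρ x.1 x.2.1 x.2.2)
      invFun := fun x => (x.1, x.2.1, (ρ x.1 x.2.1)⁻¹ x.2.2)
      left_inv := fun x => by simp
      right_inv := fun x => by simp }
  have heG : e ∈ GG := fun x y => ⟨Iff.rfl, Iff.rfl⟩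
  have hγe : ∀ x, γ (e x) = gT T x := fun x => hρ x.1 x.2.1 x.2.2
  refine h T ?_
  rw [eq_bot_iff]
  intro g hg
  obtain ⟨g', hg', hgg⟩ := relds
    (R := fun (g g' : Perm Om) => g' = e * g * e⁻¹)
    (by
      intro a a' b b' ha hb
      rw [ha, hb]; group)
    (by
      intro a a' ha
      rw [ha]; group)
    (by group) (cst GG (gT T)) (cst GG γ)
    (by
      intro g hg
      refine ⟨e * g * e⁻¹, ⟨GG.mul_mem (GG.mul_mem heG hg.1) (GG.inv_mem heG), ?_⟩, rfl⟩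
      intro x
      rw [Perm.mul_apply, Perm.mul_apply, hγe, hg.2, ← hγe]
      simp) 2 g hg
  rw [hγ, Subgroup.mem_bot] at hg'
  rw [Subgroup.mem_bot]
  rw [hg'] at hgg
  have : g = e⁻¹ * (e * g * e⁻¹) * e := by group
  rw [this, ← hgg]
  group

end Pool.Agent.R379.DL
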