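import Pool.Agent.R379.DL.Stm

/-!
# Project DL, piece T1: permutation groups on at most four points
-/

namespace Pool.Agent.R379.DL

open Equiv

theorem S2_a : ∀ a b : Perm (Fin 2), a * b * a⁻¹ * b⁻¹ = 1 := by decide

theorem S3_a : ∀ a b : Perm (Fin 3), Perm.sign a = 1 → Perm.sign b = 1 →
    a * b * a⁻¹ * b⁻¹ = 1 := by decide

set_option maxRecDepth 10000 in
theorem S4_a : ∀ a b : Perm (Fin 4), Perm.sign a = 1 → Perm.sign b = 1 →
    (a * b * a⁻¹ * b⁻¹) * (a * b * a⁻¹ * b⁻¹) = 1 := by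
  decide +kernel

set_option maxRecDepth 10000 in
theorem S4_b : ∀ a b : Perm (Fin 4), Perm.sign a = 1 → Perm.sign b = 1 → a * a = 1 → b * b = 1 →
    a * b = b * a := by
  decide +kernel

theorem ds_S2 : ds (⊤ : Subgroup (Perm (Fin 2))) 1 = ⊥ := by
  rw [ds_succ, ds_zero, eq_bot_iff, Subgroup.commutator_le]
  intro a _ b _
  rw [Subgroup.mem_bot]
  exact S2_a a b

/-- the even permutations -/
def evS (n : ℕ) : Subgroup (Perm (Fin n)) := Equiv.Perm.sign.ker

theorem mem_evS {n : ℕ} {a : Perm (Fin n)} : a ∈ evS n ↔ Perm.sign a = 1 := MonoidHom.mem_ker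

theorem sign_comm {n : ℕ} (a b : Perm (Fin n)) : Perm.sign (a * b * a⁻¹ * b⁻¹) = 1 := by
  rw [map_mul, map_mul, map_mul, map_inv, map_inv, mul_comm (Perm.sign a) (Perm.sign b),
    mul_inv_cancel_right, mul_inv_cancel]

theorem ds_le_ev (n : ℕ) : ds (⊤ : Subgroup (Perm (Fin n))) 1 ≤ evS n := by
  rw [ds_succ, ds_zero, Subgroup.commutator_le]
  intro a _ b _
  rw [mem_evS]
  exact sign_comm a b

theorem ds_S3 : ds (⊤ : Subgroup (Perm (Fin 3))) 2 = ⊥ := by
  rw [ds_succ, eq_bot_iff]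
  refine (Subgroup.commutator_mono (ds_le_ev 3) (ds_le_ev 3)).trans ?_
  rw [Subgroup.commutator_le]
  intro a ha b hb
  rw [mem_evS] at ha hb
  rw [Subgroup.mem_bot]
  exact S3_a a b ha hb

/-- Klein's group -/
def K4 : Subgroup (Perm (Fin 4)) where
  carrier := {g | Perm.sign g = 1 ∧ g * g = 1}
  one_mem' := ⟨map_one _, mul_one _⟩
  mul_mem' := by
    rintro a b ⟨ha, ha'⟩ ⟨hb, hb'⟩
    refine ⟨by rw [map_mul, ha, hb, mul_one], ?_⟩
    have h := S4_b a b ha hb ha' hb'
    calc a * b * (a * b) = a * (b * a) * b := by group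
      _ = a * (a * b) * b := by rw [h]
      _ = (a * a) * (b * b) := by group
      _ = 1 := by rw [ha', hb', mul_one]
  inv_mem' := by
    rintro a ⟨ha, ha'⟩
    refine ⟨by rw [map_inv, ha, inv_one], ?_⟩
    rw [← mul_inv_rev, ha', inv_one]

theorem ds_S4 : ds (⊤ : Subgroup (Perm (Fin 4))) 3 = ⊥ := by
  have h2 : ds (⊤ : Subgroup (Perm (Fin 4))) 2 ≤ K4 := by
    rw [ds_succ]
    refine (Subgroup.commutator_mono (ds_le_ev 4) (ds_le_ev 4)).trans ?_
    rw [Subgroup.commutator_le]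
    intro a ha b hb
    rw [mem_evS] at ha hb
    exact ⟨sign_comm a b, S4_a a b ha hb⟩
  rw [ds_succ, eq_bot_iff]
  refine (Subgroup.commutator_mono h2 h2).trans ?_
  rw [Subgroup.commutator_le]
  intro a ha b hb
  rw [Subgroup.mem_bot, commutatorElement_def, S4_b a b ha.1 hb.1 ha.2 hb.2]
  group

theorem pc_perm : ST_perm := by
  intro α _ m hm hcard H
  have htop : ds (⊤ : Subgroup (Perm (Fin (m + 1)))) m = ⊥ := by
    interval_cases m
    · rw [ds_zero, eq_bot_iff]
      intro g _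
      rw [Subgroup.mem_bot]
      ext x
      have h1 := (g x).2
      have h2 := ((1 : Perm (Fin (0 + 1))) x).2
      omega
    · exact ds_S2
    · exact ds_S3
    · exact ds_S4
  have hemb : Nonempty (α ↪ Fin (m + 1)) := by
    have := Fintype.ofFinite α
    rw [Function.Embedding.nonempty_iff_card_le, Fintype.card_fin, ← Nat.card_eq_fintype_card]
    exact hcard
  obtain ⟨e⟩ := hemb
  rw [eq_bot_iff]
  intro g hg
  obtain ⟨h, hh, hr⟩ := relds (fun (g : Perm α) (h : Perm (Fin (m + 1))) => ∀ x, h (e x) = e (g x))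
    (by
      intro a a' b b' ha hb x
      rw [Perm.mul_apply, Perm.mul_apply, hb, ha])
    (by
      intro a a' ha x
      rw [Perm.inv_eq_iff_eq, ha]
      simp)
    (fun x => rfl) H ⊤
    (fun g _ => ⟨g.viaEmbedding e, Subgroup.mem_top _, fun x => g.viaEmbedding_apply e x⟩) m g hg
  rw [htop, Subgroup.mem_bot] at hh
  rw [Subgroup.mem_bot]
  ext x
  apply e.injective
  rw [← hr x, hh]
  rfl

end Pool.Agent.R379.DL
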