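import Pool.Agent.R379.DL.Stm

/-! Project DL, piece T2 (helper92). -/

namespace Pool.Agent.R379.DL

open Equiv

theorem pc_parts (h : ST_perm) : ST_parts := by
  intro Ω Q H Γ f m hm hpres hcard hfaith
  rw [eq_bot_iff]
  intro g hg
  have hgH : g ∈ H := ds_le H m hg
  rw [Subgroup.mem_bot]
  apply hfaith g hgH
  intro x hx
  have : Finite {y : Ω // y ∈ Γ ∧ f y = f x} := (hcard (f x)).1
  have hc : Nat.card {y : Ω // y ∈ Γ ∧ f y = f x} ≤ m + 1 := (hcard (f x)).2
  have key := relds (G := Perm Ω) (G' := Perm {y : Ω // y ∈ Γ ∧ f y = f x})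
    (fun g s => ∀ y : {y : Ω // y ∈ Γ ∧ f y = f x}, g y.1 = (s y).1)
    (by
      intro a a' b b' ha hb y
      rw [Perm.mul_apply, hb, ha, Perm.mul_apply])
    (by
      intro a a' ha y
      rw [Perm.inv_eq_iff_eq, ha]
      simp)
    (by intro y; rfl) H ⊤
    (by
      intro a ha
      have hp : ∀ y, (a y ∈ Γ ∧ f (a y) = f x) ↔ (y ∈ Γ ∧ f y = f x) := by
        intro y
        constructor
        · intro hy
          have h1 := hpres a⁻¹ (H.inv_mem ha) (a y) hy.1
          have e : a⁻¹ (a y) = y := a.symm_apply_apply y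
          rw [e] at h1
          exact ⟨h1.1, h1.2.trans hy.2⟩
        · intro hy
          have h1 := hpres a ha y hy.1
          exact ⟨h1.1, h1.2.trans hy.2⟩
      exact ⟨Perm.subtypePerm a hp, Subgroup.mem_top _, fun y => rfl⟩) m g hg
  obtain ⟨g', hg', hR⟩ := key
  have hb : ds (⊤ : Subgroup (Perm {y : Ω // y ∈ Γ ∧ f y = f x})) m = ⊥ := h _ m hm hc ⊤
  rw [hb, Subgroup.mem_bot] at hg'
  have h1 := hR ⟨x, hx, rfl⟩
  rw [hg'] at h1
  exact h1

end Pool.Agent.R379.DL
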