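import Pool.Agent.R379.DL.Stm

/-!
# Project DL: pieces X22 and X23
-/

namespace Pool.Agent.R379.DL

open Equiv

/-- equivalent 2-colourings have colour classes of the same size -/
theorem x23_card {V : Type} [Fintype V] (C C' : V → Fin 2) (g : Perm V)
    (h : ∀ x, C (g x) = C' x) :
    (Finset.univ.filter (fun x => C x = 1)).card = (Finset.univ.filter (fun x => C' x = 1)).card := by
  symm
  apply Finset.card_bij (fun x _ => g x)
  · intro x hx
    simp only [Finset.mem_filter, Finset.mem_univ, true_and] at hx ⊢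
    rw [h]; exact hx
  · intro x _ y _ hxy
    exact g.injective hxy
  · intro y hy
    refine ⟨g⁻¹ y, ?_, by simp⟩
    simp only [Finset.mem_filter, Finset.mem_univ, true_and] at hy ⊢
    rw [← h]; simpa using hy

/-- the colouring by `Fin 2` attached to a 0-1 colouring -/
def x23F {V : Type} (D : V → Bool) : V → Fin 2 := fun x => if D x = true then 1 else 0

theorem x23F_inj (a b : Bool) (h : (if a = true then (1 : Fin 2) else 0) = if b = true then 1 else 0) :
    a = b := by revert a b; decide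

theorem cst_x23F {V : Type} (H : Subgroup (Perm V)) (D : V → Bool) : cst H (x23F D) = cst H D := by
  ext g
  rw [mem_cst, mem_cst]
  refine and_congr_right (fun _ => forall_congr' fun x => ?_)
  unfold x23F
  exact ⟨fun h => x23F_inj _ _ h, fun h => by rw [h]⟩

theorem cst_not_X23 {V : Type} (H : Subgroup (Perm V)) (D : V → Bool) :
    cst H (fun x => !(D x)) = cst H D := by
  ext g
  rw [mem_cst, mem_cst]
  refine and_congr_right (fun _ => forall_congr' fun x => ?_)
  simp

/-! ## X22 -/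

/-- the first `i` points of the plane -/
def x22C (i : Fin 5) : Vp 2 2 → Fin 2 := fun x => if (x 0).val + 2 * (x 1).val < (i : ℕ) then 1 else 0

theorem x22_card : ∀ i j : Fin 5,
    (Finset.univ.filter (fun x => x22C i x = 1)).card = (Finset.univ.filter (fun x => x22C j x = 1)).card →
    i = j := by decide

theorem pc_X22 (h1 : ST_perm) : ST_X22 := by
  refine ⟨x22C, fun i => ?_, fun i j g _ h => ?_⟩
  · apply h1 (Vp 2 2) 3 le_rfl
    rw [Nat.card_eq_fintype_card]
    decide
  · exact x22_card i j (x23_card _ _ g h)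

/-! ## X23 -/

/-- the three sets -/
def s2 : Finset (Vp 2 3) := {0, ev 2 3 0}
def s3 : Finset (Vp 2 3) := {0, ev 2 3 0, ev 2 3 1}
def s4 : Finset (Vp 2 3) := {0, ev 2 3 0, ev 2 3 1, ev 2 3 2}

/-- `S4` -/
theorem x23_s4 (ht : ST_tl) : ds (cst (aff (Vp 2 3)) (setD s4)) 3 = ⊥ := by
  apply ht 2 3 s4
  · decide
  · intro i hi
    interval_cases i <;> decide
  · intro y _
    refine le_trans (Finset.card_filter_le _ _) ?_
    decide

/-- a permutation which preserves a finset preserves the sum -/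
theorem x23_sum {V : Type} [AddCommGroup V] [DecidableEq V] (S : Finset V) (g : Perm V)
    (hg : ∀ x, g x ∈ S ↔ x ∈ S) : ∑ x ∈ S, g x = ∑ x ∈ S, x := by
  apply Finset.sum_bij (fun x _ => g x)
  · intro x hx; exact (hg x).2 hx
  · intro x _ y _ hxy; exact g.injective hxy
  · intro y hy
    refine ⟨g⁻¹ y, ?_, by simp⟩
    have := hg (g⁻¹ y)
    rw [← Perm.mul_apply, mul_inv_cancel, Perm.one_apply] at this
    exact this.1 hy
  · intro x _; rfl

theorem setD_iff {V : Type} [DecidableEq V] {S : Finset V} {x y : V} (h : setD S x = setD S y) :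
    x ∈ S ↔ y ∈ S := by
  unfold setD at h
  simpa using h

theorem vp2_neg (d : ℕ) (x : Vp 2 d) : -x = x := by
  funext i
  rw [Pi.neg_apply]
  generalize x i = a
  revert a; decide

theorem vp2_sub (d : ℕ) (x y : Vp 2 d) : x - y = x + y := by
  rw [sub_eq_add_neg, vp2_neg]

/-- the parts for `S3` -/
def f3 : Vp 2 3 → Fin 3 := fun x => if x ∈ s3 then 0 else if x = ev 2 3 0 + ev 2 3 1 then 1 else 2

theorem x23_s3 (h : ST_parts) : ds (cst (aff (Vp 2 3)) (setD s3)) 3 = ⊥ := by
  apply h (Vp 2 3) (Fin 3) (cst (aff (Vp 2 3)) (setD s3)) Set.univ f3 3 le_rfl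
  · intro g hg x _
    refine ⟨Set.mem_univ _, ?_⟩
    obtain ⟨hga, hgc⟩ := mem_cst.1 hg
    have hS : ∀ x, g x ∈ s3 ↔ x ∈ s3 := fun x => setD_iff (hgc x)
    have hsum := x23_sum s3 g hS
    have e1 : g (ev 2 3 0 + ev 2 3 1) = ev 2 3 0 + ev 2 3 1 := by
      have h1 := hga (ev 2 3 0) (ev 2 3 1) 0
      rw [sub_zero, vp2_sub] at h1
      rw [h1]
      have h2 : ∀ F : Vp 2 3 → Vp 2 3, ∑ x ∈ s3, F x = F (ev 2 3 0) + F (ev 2 3 1) + F 0 := by
        intro F
        unfold s3
        rw [Finset.sum_insert (by decide), Finset.sum_insert (by decide), Finset.sum_singleton]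
        abel
      rw [h2, h2] at hsum
      rw [hsum, add_zero]
    unfold f3
    rw [if_congr (hS x) rfl rfl]
    have e2 : g x = ev 2 3 0 + ev 2 3 1 ↔ x = ev 2 3 0 + ev 2 3 1 := by
      constructor
      · intro h; apply g.injective; rw [h, e1]
      · intro h; rw [h, e1]
    rw [if_congr e2 rfl rfl]
  · intro q
    refine ⟨Set.toFinite _, ?_⟩
    have : {x : Vp 2 3 | x ∈ Set.univ ∧ f3 x = q} = ((Finset.univ.filter (fun x => f3 x = q) : Finset (Vp 2 3)) : Set (Vp 2 3)) := by
      ext x; simp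
    rw [this, Set.ncard_coe_finset]
    clear this
    revert q; decide
  · intro g _ hx
    ext1 x
    exact hx x (Set.mem_univ _)

/-- forgetting the first coordinate -/
def tl3 : Vp 2 3 → Vp 2 2 := fun x i => x i.succ

/-- the point stabiliser in the plane -/
def st0 : Subgroup (Perm (Vp 2 2)) where
  carrier := {q | q 0 = 0}
  one_mem' := rfl
  mul_mem' := by
    intro a b ha hb
    show (a * b) 0 = 0
    rw [Perm.mul_apply]
    rw [show b 0 = 0 from hb]; exact ha
  inv_mem' := by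
    intro a ha
    show a⁻¹ 0 = 0
    rw [Perm.inv_eq_iff_eq]; exact (show a 0 = 0 from ha).symm

theorem st0_ds (h : ST_parts) : ds st0 2 = ⊥ := by
  apply h (Vp 2 2) Unit st0 {x | x ≠ 0} (fun _ => ()) 2 (by norm_num)
  · intro g hg x hx
    refine ⟨?_, rfl⟩
    intro h0
    apply hx
    apply g.injective
    rw [h0, show g 0 = 0 from hg]
  · intro q
    refine ⟨Set.toFinite _, ?_⟩
    have : {x : Vp 2 2 | x ∈ {x : Vp 2 2 | x ≠ 0} ∧ () = q} = ((Finset.univ.filter (fun x => x ≠ 0) : Finset (Vp 2 2)) : Set (Vp 2 2)) := by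
      ext x; simp
    rw [this, Set.ncard_coe_finset]
    decide
  · intro g hg hx
    ext1 x
    by_cases h0 : x = 0
    · rw [h0]; exact hg
    · exact hx x h0

theorem tl3_iff : ∀ x y : Vp 2 3, tl3 x = tl3 y ↔ (x = y ∨ x = y + ev 2 3 0) := by decide

theorem tl3_surj (y : Vp 2 2) : tl3 (Fin.cons 0 y : Vp 2 3) = y := by
  funext i; simp [tl3]

theorem x23_tr (g : Perm (Vp 2 3)) (hg : g ∈ cst (aff (Vp 2 3)) (setD s2)) (x : Vp 2 3) :
    g (x + ev 2 3 0) = g x + ev 2 3 0 := by
  obtain ⟨hga, hgc⟩ := mem_cst.1 hg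
  have hS : ∀ x, g x ∈ s2 ↔ x ∈ s2 := fun x => setD_iff (hgc x)
  have h1 := hga x (ev 2 3 0) 0
  rw [sub_zero, vp2_sub] at h1
  have hsum := x23_sum s2 g hS
  have h2 : ∀ F : Vp 2 3 → Vp 2 3, ∑ x ∈ s2, F x = F (ev 2 3 0) + F 0 := by
    intro F
    unfold s2
    rw [Finset.sum_insert (by decide), Finset.sum_singleton, add_comm]
  rw [h2, h2, add_zero] at hsum
  rw [h1, add_assoc, hsum]

theorem x23_s2 (h : ST_parts) : ds (cst (aff (Vp 2 3)) (setD s2)) 3 = ⊥ := by
  set H := cst (aff (Vp 2 3)) (setD s2) with hH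
  have hcong : ∀ g ∈ H, ∀ x y, tl3 x = tl3 y → tl3 (g x) = tl3 (g y) := by
    intro g hg x y hxy
    rcases (tl3_iff x y).1 hxy with h | h
    · rw [h]
    · rw [h, x23_tr g hg]
      exact (tl3_iff _ _).2 (Or.inr rfl)
  have key : ∀ g ∈ ds H 2, ∃ q ∈ ds st0 2, ∀ x, tl3 (g x) = q (tl3 x) := by
    apply relds (R := fun (g : Perm (Vp 2 3)) (q : Perm (Vp 2 2)) => ∀ x, tl3 (g x) = q (tl3 x))
    · intro a a' b b' ha hb x
      rw [Perm.mul_apply, Perm.mul_apply, ha, hb]
    · intro a a' ha x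
      rw [eq_comm, Perm.inv_eq_iff_eq, ← ha]
      simp
    · intro x; rfl
    · intro g hg
      have hgi : g⁻¹ ∈ H := H.inv_mem hg
      have hl : ∀ (g : Perm (Vp 2 3)), g ∈ H → ∀ y : Vp 2 3,
          tl3 (g⁻¹ (Fin.cons 0 (tl3 (g y)) : Vp 2 3)) = tl3 y := by
        intro g hg y
        have := hcong g⁻¹ (H.inv_mem hg) (Fin.cons 0 (tl3 (g y))) (g y) (tl3_surj _)
        rw [this]
        simp
      refine ⟨⟨fun y => tl3 (g (Fin.cons 0 y)), fun y => tl3 (g⁻¹ (Fin.cons 0 y)), ?_, ?_⟩, ?_, ?_⟩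
      · intro y
        have := hl g hg (Fin.cons 0 y)
        exact this.trans (tl3_surj y)
      · intro y
        have := hl g⁻¹ hgi (Fin.cons 0 y)
        rw [inv_inv] at this
        exact this.trans (tl3_surj y)
      · show tl3 (g (Fin.cons 0 0)) = 0
        obtain ⟨hga, hgc⟩ := mem_cst.1 hg
        have hS : g (Fin.cons 0 0) ∈ s2 := (setD_iff (hgc _)).2 (by decide)
        revert hS
        generalize g (Fin.cons 0 0) = z
        revert z
        decide
      · intro x
        exact hcong g hg _ _ (tl3_surj _).symm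
  rw [st0_ds h] at key
  show ds H (2 + 1) = ⊥
  rw [ds_add]
  apply h (Vp 2 3) (Vp 2 2) (ds H 2) Set.univ tl3 1 (by norm_num)
  · intro g hg x _
    refine ⟨Set.mem_univ _, ?_⟩
    obtain ⟨q, hq, hq2⟩ := key g hg
    rw [Subgroup.mem_bot] at hq
    rw [hq2, hq, Perm.one_apply]
  · intro q
    refine ⟨Set.toFinite _, ?_⟩
    have : {x : Vp 2 3 | x ∈ Set.univ ∧ tl3 x = q} = ((Finset.univ.filter (fun x => tl3 x = q) : Finset (Vp 2 3)) : Set (Vp 2 3)) := by
      ext x; simp
    rw [this, Set.ncard_coe_finset]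
    clear this
    revert q; decide
  · intro g _ hx
    ext1 x
    exact hx x (Set.mem_univ _)

/-- the five colourings of `F_2^3` -/
def x23D (i : Fin 5) : Vp 2 3 → Bool :=
  if i = 0 then setD s2 else if i = 1 then setD s3 else if i = 2 then setD s4
  else if i = 3 then (fun x => !(setD s3 x)) else (fun x => !(setD s2 x))

theorem x23_cards : ∀ i j : Fin 5,
    (Finset.univ.filter (fun x => x23F (x23D i) x = 1)).card =
      (Finset.univ.filter (fun x => x23F (x23D j) x = 1)).card → i = j := by decide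

theorem pc_X23 (_h1 : ST_perm) (h : ST_parts) (ht : ST_tl) (_hi : ST_inv) : ST_X23 := by
  refine ⟨⟨fun i => x23F (x23D i), fun i => ?_, fun i j g _ hg => ?_⟩, ?_⟩
  · rw [cst_x23F]
    fin_cases i
    · exact x23_s2 h
    · exact x23_s3 h
    · exact x23_s4 ht
    · show ds (cst (aff (Vp 2 3)) (fun x => !(setD s3 x))) 3 = ⊥
      rw [cst_not_X23]; exact x23_s3 h
    · show ds (cst (aff (Vp 2 3)) (fun x => !(setD s2 x))) 3 = ⊥
      rw [cst_not_X23]; exact x23_s2 h
  · exact x23_cards i j (x23_card _ _ g hg)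
  · rw [cst_not_X23]; exact x23_s2 h

end Pool.Agent.R379.DL
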