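import Pool.Agent.R379.DL.Stm

namespace Pool.Agent.R379.DL

open Equiv

namespace X24p

/-- the first set -/
def sA : Finset (Vp 2 4) := {0, ev 2 4 0, ev 2 4 1, ev 2 4 2, ev 2 4 3, ![1, 1, 0, 1]}

/-- the second set -/
def sB : Finset (Vp 2 4) :=
  {0, ev 2 4 0, ev 2 4 1, ev 2 4 2, ev 2 4 3, ![1, 1, 1, 0], ![0, 0, 1, 1], ![1, 0, 1, 1]}

/-- the six points of the three dimensional space -/
def d3 : Vp 2 3 → Bool := fun x => !(setD {0, ev 2 3 0} x)

/-- the cone -/
def cC : Vp 2 4 → Bool := cone 2 3 d3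

/-- colours -/
def b2 (b : Bool) : Fin 2 := if b then 1 else 0

lemma b2_inj {a b : Bool} (h : b2 a = b2 b) : a = b := by
  revert h; revert a b; decide

/-- the five sets -/
def DD : Fin 5 → (Vp 2 4 → Bool) := ![setD sA, fun x => !(setD sA x), setD sB, cC, fun x => !(cC x)]

lemma cst_not {Ω : Type} (H : Subgroup (Perm Ω)) (D : Ω → Bool) :
    cst H (fun x => !(D x)) = cst H D := by
  ext g
  simp only [mem_cst]
  constructor
  · rintro ⟨h1, h2⟩
    refine ⟨h1, fun x => ?_⟩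
    have := h2 x
    simpa using this
  · rintro ⟨h1, h2⟩
    refine ⟨h1, fun x => ?_⟩
    rw [h2 x]

lemma cst_b2 {Ω : Type} (H : Subgroup (Perm Ω)) (D : Ω → Bool) :
    cst H (fun x => b2 (D x)) = cst H D := by
  ext g
  simp only [mem_cst]
  constructor
  · rintro ⟨h1, h2⟩
    exact ⟨h1, fun x => b2_inj (h2 x)⟩
  · rintro ⟨h1, h2⟩
    refine ⟨h1, fun x => ?_⟩
    rw [h2 x]

lemma card_eq {D D' : Vp 2 4 → Bool} (g : Perm (Vp 2 4)) (h : ∀ x, D (g x) = D' x) :
    (Finset.univ.filter (fun x => D x = true)).card =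
      (Finset.univ.filter (fun x => D' x = true)).card := by
  symm
  apply Finset.card_bij (fun x _ => g x)
  · intro x hx
    rw [Finset.mem_filter] at hx ⊢
    exact ⟨Finset.mem_univ _, by rw [h x]; exact hx.2⟩
  · intro x _ y _ hxy
    exact g.injective hxy
  · intro y hy
    rw [Finset.mem_filter] at hy
    refine ⟨g.symm y, ?_, by simp⟩
    rw [Finset.mem_filter]
    refine ⟨Finset.mem_univ _, ?_⟩
    rw [← h]
    simpa using hy.2

lemma sizes : ∀ i : Fin 5, (Finset.univ.filter (fun x => DD i x = true)).card =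
    (![6, 10, 8, 7, 9] : Fin 5 → ℕ) i := by
  decide +kernel

lemma A0 : (0 : Vp 2 4) ∈ sA := by decide +kernel
lemma B0 : (0 : Vp 2 4) ∈ sB := by decide +kernel
lemma Ai : ∀ i : Fin 4, ev 2 4 i ∈ sA := by decide +kernel
lemma Bi : ∀ i : Fin 4, ev 2 4 i ∈ sB := by decide +kernel
lemma At : ∀ y ∈ sA, (sA.filter (fun x => tct sA x = tct sA y)).card ≤ 4 := by decide +kernel
lemma Bt : ∀ y ∈ sB, (sB.filter (fun x => tct sB x = tct sB y)).card ≤ 4 := by decide +kernel

end X24p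

open X24p in
theorem pc_X24 (ht : ST_tl) (hi : ST_inv) (h23 : ST_X23) (hr : ST_robc) (hc : ST_coneDl) :
    ST_X24 := by
  have hA : ds (cst (aff (Vp 2 4)) (setD sA)) 3 = ⊥ :=
    ht 2 4 sA A0 (fun i hi => Ai ⟨i, hi⟩) At
  have hB : ds (cst (aff (Vp 2 4)) (setD sB)) 3 = ⊥ :=
    ht 2 4 sB B0 (fun i hi => Bi ⟨i, hi⟩) Bt
  have hC : ds (cst (aff (Vp 2 4)) cC) 3 = ⊥ := by
    apply hc 2 3 (by norm_num) d3
    · apply hr 2 3
      decide +kernel
    · exact h23.2
  refine ⟨fun i x => b2 (DD i x), ?_, ?_⟩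
  · intro i
    rw [cst_b2]
    fin_cases i
    · exact hA
    · show ds (cst (aff (Vp 2 4)) (fun x => !(setD sA x))) 3 = ⊥
      rw [cst_not]; exact hA
    · exact hB
    · exact hC
    · show ds (cst (aff (Vp 2 4)) (fun x => !(cC x))) 3 = ⊥
      rw [cst_not]; exact hC
  · intro i j g _ h
    have h1 := card_eq (D := DD i) (D' := DD j) g (fun x => b2_inj (h x))
    rw [sizes, sizes] at h1
    clear h
    revert i j
    decide

end Pool.Agent.R379.DL
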