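import Pool.Agent.R379.DL.Stm

/-! Project DL, piece X25 (helper92): explicit subsets of `F_2^5`, coded by natural numbers `< 32`
(bits = coordinates), where `y + z - x` becomes `xor`. -/

namespace Pool.Agent.R379.DL

open Equiv

namespace X25

/-- the vector with the given code -/
def dec (n : ℕ) : Vp 2 5 := fun i => if n.testBit (i : ℕ) then 1 else 0

/-- the number `tct` in codes -/
def tN (L : List ℕ) (c : ℕ) : ℕ :=
  (L.map fun a => (L.map fun b => if (a ^^^ b ^^^ c) ∈ L then 1 else 0).sum).sum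

theorem dec_add_sub (a b c : ℕ) : dec a + dec b - dec c = dec (a ^^^ b ^^^ c) := by
  funext i
  simp only [Pi.add_apply, Pi.sub_apply, dec, Nat.testBit_xor]
  cases a.testBit (i : ℕ) <;> cases b.testBit (i : ℕ) <;> cases c.testBit (i : ℕ) <;> decide

theorem dec_inj {a b : ℕ} (ha : a < 32) (hb : b < 32) (h : dec a = dec b) : a = b := by
  apply Nat.eq_of_testBit_eq
  intro i
  by_cases hi : i < 5
  · have h1 := congrFun h ⟨i, hi⟩
    simp only [dec] at h1
    cases h2 : a.testBit i <;> cases h3 : b.testBit i <;> simp [h2, h3] at h1 ⊢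
  · have h32 : (32 : ℕ) ≤ 2 ^ i := by
      calc (32 : ℕ) = 2 ^ 5 := by norm_num
        _ ≤ 2 ^ i := Nat.pow_le_pow_right (by norm_num) (by omega)
    rw [Nat.testBit_lt_two_pow (lt_of_lt_of_le ha h32), Nat.testBit_lt_two_pow (lt_of_lt_of_le hb h32)]

/-- the set with a given list of codes -/
def SL (L : List ℕ) : Finset (Vp 2 5) := L.toFinset.image dec

section
variable {L : List ℕ} (hL : L.Nodup) (hb : ∀ a ∈ L, a < 32)
include hb

theorem injOn : Set.InjOn dec (L.toFinset : Set ℕ) := by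
  intro a ha b hb' h
  exact dec_inj (hb a (by simpa using ha)) (hb b (by simpa using hb')) h

theorem mem_SL {n : ℕ} (hn : n < 32) : dec n ∈ SL L ↔ n ∈ L := by
  unfold SL
  rw [Finset.mem_image]
  constructor
  · rintro ⟨a, ha, hab⟩
    rw [List.mem_toFinset] at ha
    rw [← dec_inj (hb a ha) hn hab]; exact ha
  · intro h
    exact ⟨n, List.mem_toFinset.mpr h, rfl⟩

include hL

theorem card_SL : (SL L).card = L.length := by
  unfold SL
  rw [Finset.card_image_of_injOn (injOn hb), List.toFinset_card_of_nodup hL]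

theorem tct_dec {c : ℕ} (hc : c ∈ L) : tct (SL L) (dec c) = tN L c := by
  unfold tct tN
  rw [Finset.card_filter, Finset.sum_product]
  conv_lhs => rw [show (SL L) = L.toFinset.image dec from rfl]
  rw [Finset.sum_image (fun a ha b hb' h => injOn hb ha hb' h), List.sum_toFinset _ hL]
  congr 1
  apply List.map_congr_left
  intro a ha
  rw [Finset.sum_image (fun a ha b hb' h => injOn hb ha hb' h), List.sum_toFinset _ hL]
  congr 1
  apply List.map_congr_left
  intro b hbL
  have hlt : a ^^^ b ^^^ c < 32 := by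
    have h1 := Nat.xor_lt_two_pow (n := 5) (Nat.xor_lt_two_pow (n := 5) (hb a ha) (hb b hbL)) (hb c hc)
    exact h1
  have hm := mem_SL hb hlt
  simp only [dec_add_sub]
  unfold SL at hm
  simp only [hm]

theorem bound {V : List ℕ} (hV : L.map (tN L) = V) (h4 : ∀ v ∈ V, V.count v ≤ 4) :
    ∀ y ∈ SL L, ((SL L).filter (fun x => tct (SL L) x = tct (SL L) y)).card ≤ 4 := by
  intro y hy
  obtain ⟨b, hbL, rfl⟩ := Finset.mem_image.mp hy
  rw [List.mem_toFinset] at hbL
  have h1 : (SL L).filter (fun x => tct (SL L) x = tct (SL L) (dec b)) =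
      ((L.filter (fun a => tN L a = tN L b)).toFinset).image dec := by
    ext x
    simp only [Finset.mem_filter, Finset.mem_image, List.mem_toFinset, List.mem_filter,
      decide_eq_true_eq]
    constructor
    · rintro ⟨hx, hxy⟩
      obtain ⟨a, ha, rfl⟩ := Finset.mem_image.mp hx
      rw [List.mem_toFinset] at ha
      rw [tct_dec hL hb ha, tct_dec hL hb hbL] at hxy
      exact ⟨a, ⟨ha, hxy⟩, rfl⟩
    · rintro ⟨a, ⟨ha, hab⟩, rfl⟩
      refine ⟨Finset.mem_image_of_mem _ (List.mem_toFinset.mpr ha), ?_⟩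
      rw [tct_dec hL hb ha, tct_dec hL hb hbL, hab]
  rw [h1]
  refine Finset.card_image_le.trans ?_
  refine (List.toFinset_card_le _).trans ?_
  have h2 : (L.filter (fun a => decide (tN L a = tN L b))).length = V.count (tN L b) := by
    rw [← hV, List.count, List.countP_map, List.countP_eq_length_filter]
    congr 1
  rw [h2]
  exact h4 _ (by rw [← hV]; exact List.mem_map_of_mem hbL)

end

/-- the five lists -/
def LL : Fin 5 → List ℕ :=
  ![[0, 1, 2, 4, 8, 16, 24], [0, 1, 2, 4, 8, 16, 23, 24], [0, 1, 2, 4, 8, 16, 13, 6, 15],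
    [0, 1, 2, 4, 8, 16, 5, 21, 29, 6], [0, 1, 2, 4, 8, 16, 13, 17, 3, 5, 22]]

/-- the values of `tN` -/
def VV : Fin 5 → List ℕ :=
  ![[25, 19, 19, 19, 25, 25, 25], [28, 22, 22, 22, 28, 28, 22, 28],
    [37, 37, 37, 43, 37, 25, 43, 43, 43], [52, 46, 40, 46, 40, 46, 52, 46, 40, 40],
    [55, 55, 61, 67, 43, 61, 43, 61, 61, 67, 55]]

theorem nodup : ∀ i, (LL i).Nodup := by decide +kernel
theorem lt32 : ∀ i, ∀ a ∈ LL i, a < 32 := by decide +kernel
theorem vals : ∀ i, (LL i).map (tN (LL i)) = VV i := by decide +kernel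
theorem cnt : ∀ i, ∀ v ∈ VV i, (VV i).count v ≤ 4 := by decide +kernel
theorem zmem : ∀ i, 0 ∈ LL i := by decide +kernel
theorem emem : ∀ i, ∀ j : Fin 5, 2 ^ (j : ℕ) ∈ LL i := by decide +kernel
theorem len : ∀ i, (LL i).length = 7 + (i : ℕ) := by decide +kernel

theorem dec_zero : dec 0 = 0 := by
  funext i; simp [dec]

theorem dec_pow : ∀ j : Fin 5, dec (2 ^ (j : ℕ)) = ev 2 5 j := by
  decide +kernel

end X25

theorem pc_X25 (h : ST_mkGood) : ST_X25 := by
  have : Fact (Nat.Prime 2) := ⟨Nat.prime_two⟩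
  refine h 2 5 (by norm_num) (fun i => X25.SL (X25.LL i)) ?_ ?_ ?_ ?_ ?_
  · intro i
    rw [X25.card_SL (X25.nodup i) (X25.lt32 i), X25.len]
    have := i.2
    have e : (2 : ℕ) ^ 5 = 32 := by norm_num
    omega
  · intro i j hij
    rw [X25.card_SL (X25.nodup i) (X25.lt32 i), X25.card_SL (X25.nodup j) (X25.lt32 j), X25.len,
      X25.len] at hij
    apply Fin.ext
    omega
  · intro i
    rw [← X25.dec_zero]
    exact (X25.mem_SL (X25.lt32 i) (by norm_num)).mpr (X25.zmem i)
  · intro i j hj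
    have h1 := X25.dec_pow ⟨j, hj⟩
    rw [← h1]
    refine (X25.mem_SL (X25.lt32 i) ?_).mpr (X25.emem i ⟨j, hj⟩)
    exact X25.lt32 i _ (X25.emem i ⟨j, hj⟩)
  · intro i
    exact X25.bound (X25.nodup i) (X25.lt32 i) (X25.vals i) (X25.cnt i)

end Pool.Agent.R379.DL
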