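import Pool.Agent.R379.DL.Stm

/-!
# Project DL (MP_5a645a_al): piece X32, five inequivalent good 2-colourings of the plane `F_3^2`
-/

namespace Pool.Agent.R379.DL

open Equiv

namespace X32

/-- the first set -/
def S0 : Finset (Vp 3 2) := {0, ev 3 2 0, ev 3 2 1}
/-- the second set -/
def S1 : Finset (Vp 3 2) := {0, ev 3 2 0, ev 3 2 0 + ev 3 2 0, ev 3 2 1}
/-- the third set -/
def S2 : Finset (Vp 3 2) := {0, ev 3 2 0, ev 3 2 1, ev 3 2 0 + ev 3 2 1}

/-- all five sets -/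
def F : Fin 5 → Finset (Vp 3 2) := ![S0, S1, S2, S2ᶜ, S0ᶜ]

/-- the colouring attached to a boolean colouring -/
def b2 : Bool → Fin 2 := fun b => if b then 1 else 0

theorem b2_inj : Function.Injective b2 := by decide

theorem card_F : ∀ i j, (F i).card = (F j).card → i = j ∨ (i = 1 ∧ j = 2) ∨ (i = 2 ∧ j = 1) := by
  decide +kernel

theorem tot : ∑ x ∈ S1, tct S1 x ≠ ∑ x ∈ S2, tct S2 x := by
  decide +kernel

theorem ds_of_card (ht : ST_tl) (S : Finset (Vp 3 2)) (h0 : (0 : Vp 3 2) ∈ S)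
    (h1 : ∀ i, i < 2 → ev 3 2 i ∈ S) (hc : S.card ≤ 4) :
    ds (cst (aff (Vp 3 2)) (setD S)) 3 = ⊥ := by
  haveI : Fact (Nat.Prime 3) := ⟨by norm_num⟩
  exact ht 3 2 S h0 h1 (fun y _ => (Finset.card_filter_le _ _).trans hc)

theorem cst_compl (S : Finset (Vp 3 2)) :
    cst (aff (Vp 3 2)) (setD Sᶜ) ≤ cst (aff (Vp 3 2)) (setD S) := by
  intro g hg
  refine ⟨hg.1, fun x => ?_⟩
  have h := hg.2 x
  simp only [setD, Finset.mem_compl, decide_not] at h ⊢
  exact Bool.not_inj h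

theorem ds_S0 (ht : ST_tl) : ds (cst (aff (Vp 3 2)) (setD S0)) 3 = ⊥ :=
  ds_of_card ht S0 (by decide +kernel) (by decide +kernel) (by decide +kernel)
theorem ds_S1 (ht : ST_tl) : ds (cst (aff (Vp 3 2)) (setD S1)) 3 = ⊥ :=
  ds_of_card ht S1 (by decide +kernel) (by decide +kernel) (by decide +kernel)
theorem ds_S2 (ht : ST_tl) : ds (cst (aff (Vp 3 2)) (setD S2)) 3 = ⊥ :=
  ds_of_card ht S2 (by decide +kernel) (by decide +kernel) (by decide +kernel)

theorem ds_F (ht : ST_tl) (i : Fin 5) : ds (cst (aff (Vp 3 2)) (setD (F i))) 3 = ⊥ := by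
  fin_cases i
  · exact ds_S0 ht
  · exact ds_S1 ht
  · exact ds_S2 ht
  · exact ds_eq_bot_mono (cst_compl S2) (ds_S2 ht)
  · exact ds_eq_bot_mono (cst_compl S0) (ds_S0 ht)

end X32

open X32 in
/-- X32 -/
theorem pc_X32 (ht : ST_tl) (hi : ST_inv) : ST_X32 := by
  haveI : Fact (Nat.Prime 3) := ⟨by norm_num⟩
  refine ⟨fun i x => b2 (setD (F i) x), fun i => ?_, fun i j g hg h => ?_⟩
  · refine ds_eq_bot_mono ?_ (ds_F ht i)
    intro g hg
    exact ⟨hg.1, fun x => b2_inj (hg.2 x)⟩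
  · have h' := hi 3 2 (F i) (F j) g hg (fun x => b2_inj (h x))
    rcases card_F i j h'.1 with h1 | ⟨h1, h2⟩ | ⟨h1, h2⟩
    · exact h1
    · subst h1; subst h2
      exact absurd h'.2 tot
    · subst h1; subst h2
      exact absurd h'.2.symm tot

end Pool.Agent.R379.DL
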