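import Mathlib
import Pool.Agent.R379.DL.Stm

/-!
# MP_5a645a_al, pieces X33, X52: explicit good families in `F_3^3` and `F_5^2`
-/

namespace Pool.Agent.R379.DL

open Equiv

/-- the five sets in `F_3^3` -/
def SX33 : Fin 5 → Finset (Vp 3 3)
  | 0 => {![0,0,0], ![1,0,0], ![0,1,0], ![0,0,1]}
  | 1 => {![0,0,0], ![1,0,0], ![0,1,0], ![0,0,1], ![0,2,1]}
  | 2 => {![0,0,0], ![1,0,0], ![0,1,0], ![0,0,1], ![2,1,1], ![0,1,2]}
  | 3 => {![0,0,0], ![1,0,0], ![0,1,0], ![0,0,1], ![1,1,0], ![0,2,0], ![2,0,1]}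
  | 4 => {![0,0,0], ![1,0,0], ![0,1,0], ![0,0,1], ![1,0,1], ![0,2,0], ![2,0,1], ![0,0,2]}

theorem SX33_card : ∀ i : Fin 5, (SX33 i).card = i.val + 4 := by
  decide +kernel

theorem SX33_mem : ∀ i : Fin 5, (![0,0,0] : Vp 3 3) ∈ SX33 i ∧ (![1,0,0] : Vp 3 3) ∈ SX33 i ∧
    (![0,1,0] : Vp 3 3) ∈ SX33 i ∧ (![0,0,1] : Vp 3 3) ∈ SX33 i := by
  decide +kernel

theorem SX33_t : ∀ i, ∀ y ∈ SX33 i,
    ((SX33 i).filter (fun x => tct (SX33 i) x = tct (SX33 i) y)).card ≤ 4 := by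
  decide +kernel

theorem pc_X33 (h : ST_mkGood) : ST_X33 := by
  have : Fact (Nat.Prime 3) := ⟨by norm_num⟩
  refine h 3 3 (by norm_num) SX33 ?_ ?_ ?_ ?_ SX33_t
  · intro i
    rw [SX33_card]
    omega
  · intro i j hij
    rw [SX33_card, SX33_card] at hij
    apply Fin.ext
    omega
  · intro i
    have : (0 : Vp 3 3) = ![0,0,0] := by
      funext k; fin_cases k <;> rfl
    rw [this]
    exact (SX33_mem i).1
  · intro i j hj
    have h0 : ev 3 3 0 = ![1,0,0] := by funext k; fin_cases k <;> rfl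
    have h1 : ev 3 3 1 = ![0,1,0] := by funext k; fin_cases k <;> rfl
    have h2 : ev 3 3 2 = ![0,0,1] := by funext k; fin_cases k <;> rfl
    interval_cases j
    · rw [h0]; exact (SX33_mem i).2.1
    · rw [h1]; exact (SX33_mem i).2.2.1
    · rw [h2]; exact (SX33_mem i).2.2.2

/-- the five sets in `F_5^2` -/
def SX52 : Fin 5 → Finset (Vp 5 2)
  | 0 => {![0,0], ![1,0], ![0,1]}
  | 1 => {![0,0], ![1,0], ![0,1], ![3,0]}
  | 2 => {![0,0], ![1,0], ![0,1], ![3,1], ![4,2]}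
  | 3 => {![0,0], ![1,0], ![0,1], ![0,2], ![3,2], ![2,1]}
  | 4 => {![0,0], ![1,0], ![0,1], ![2,0], ![4,1], ![1,1], ![2,3]}

theorem SX52_card : ∀ i : Fin 5, (SX52 i).card = i.val + 3 := by
  decide +kernel

theorem SX52_mem : ∀ i : Fin 5, (![0,0] : Vp 5 2) ∈ SX52 i ∧ (![1,0] : Vp 5 2) ∈ SX52 i ∧
    (![0,1] : Vp 5 2) ∈ SX52 i := by
  decide +kernel

theorem SX52_t : ∀ i, ∀ y ∈ SX52 i,
    ((SX52 i).filter (fun x => tct (SX52 i) x = tct (SX52 i) y)).card ≤ 4 := by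
  decide +kernel

theorem pc_X52 (h : ST_mkGood) : ST_X52 := by
  have : Fact (Nat.Prime 5) := ⟨by norm_num⟩
  refine h 5 2 (by norm_num) SX52 ?_ ?_ ?_ ?_ SX52_t
  · intro i
    rw [SX52_card]
    omega
  · intro i j hij
    rw [SX52_card, SX52_card] at hij
    apply Fin.ext
    omega
  · intro i
    have : (0 : Vp 5 2) = ![0,0] := by
      funext k; fin_cases k <;> rfl
    rw [this]
    exact (SX52_mem i).1
  · intro i j hj
    have h0 : ev 5 2 0 = ![1,0] := by funext k; fin_cases k <;> rfl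
    have h1 : ev 5 2 1 = ![0,1] := by funext k; fin_cases k <;> rfl
    interval_cases j
    · rw [h0]; exact (SX52_mem i).2.1
    · rw [h1]; exact (SX52_mem i).2.2

end Pool.Agent.R379.DL
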